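import Mathlib

/-!
# Sharp interface limit: interface of the disproof (MP_c63f0d_an)

Space-time points are `(t, x, y)`.  `S ε g` is the average of `g` over the random point
`(t - ε σ, (x, y) + ε √(2σ) Z)`, `σ` exponential with mean one, `Z` standard Gaussian in the plane.
-/

set_option autoImplicit false

open MeasureTheory Set Filter Topology ProbabilityTheory
open scoped ENNReal ContDiff

namespace Pool.Agent.W5h10.SI

/-- space-time -/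
abbrev ST : Type := ℝ × ℝ × ℝ

/-- the exponential distribution with mean one -/
noncomputable def ex : Measure ℝ :=
  (volume.restrict (Ioi 0)).withDensity fun s => ENNReal.ofReal (Real.exp (-s))

/-- the standard normal distribution -/
noncomputable def ga : Measure ℝ := gaussianReal 0 1

/-- the law of `(σ, Z₁, Z₂)` -/
noncomputable def mu : Measure ST := ex.prod (ga.prod ga)

/-- the random point -/
noncomputable def pt (ε : ℝ) (p w : ST) : ST :=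
  (p.1 - ε * w.1, p.2.1 + ε * √(2 * w.1) * w.2.1, p.2.2 + ε * √(2 * w.1) * w.2.2)

/-- the average -/
noncomputable def S (ε : ℝ) (g : ST → ℝ) (p : ST) : ℝ := ∫ w, g (pt ε p w) ∂mu

/-- time derivative -/
noncomputable def dt (φ : ST → ℝ) (p : ST) : ℝ := fderiv ℝ φ p (1, 0, 0)

/-- Laplacian in the space variables -/
noncomputable def lap (φ : ST → ℝ) (p : ST) : ℝ :=
  fderiv ℝ (fun q => fderiv ℝ φ q (0, 1, 0)) p (0, 1, 0) +
    fderiv ℝ (fun q => fderiv ℝ φ q (0, 0, 1)) p (0, 0, 1)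

/-- test functions -/
structure Test (φ : ST → ℝ) : Prop where
  smooth : ContDiff ℝ ∞ φ
  compact : HasCompactSupport φ

/-! ### The linear operator -/

/-- (A) the adjoint identity: `d/dσ (e^{-σ} E φ(t + εσ, x + ε√(2σ) Z)) =
e^{-σ} E (ε φ_t + ε² Δφ - φ)(...)` (Gaussian integration by parts), integrated over `σ > 0`. -/
def S_ADJ : Prop := ∀ (ε : ℝ), 0 < ε → ∀ φ : ST → ℝ, Test φ → ∀ p : ST,
  ∫ w, (φ (p.1 + ε * w.1, p.2.1 - ε * √(2 * w.1) * w.2.1, p.2.2 - ε * √(2 * w.1) * w.2.2)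
    - ε * dt φ (p.1 + ε * w.1, p.2.1 - ε * √(2 * w.1) * w.2.1, p.2.2 - ε * √(2 * w.1) * w.2.2)
    - ε ^ 2 * lap φ (p.1 + ε * w.1, p.2.1 - ε * √(2 * w.1) * w.2.1,
        p.2.2 - ε * √(2 * w.1) * w.2.2)) ∂mu = φ p

/-- (B) `u = S ε g` is a weak solution of `ε u_t = ε² Δu - u + g`. Fubini, translation by `w`,
and (A). -/
def S_WEAK : Prop := ∀ (ε : ℝ), 0 < ε → ∀ g : ST → ℝ, Measurable g → (∀ p, 0 ≤ g p ∧ g p ≤ 1) →
  ∀ φ : ST → ℝ, Test φ →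
  ∫ p, (S ε g p * (ε * dt φ p + ε ^ 2 * lap φ p) + (g p - S ε g p) * φ p) = 0

/-- (C) `S ε g` is continuous (`L¹` continuity of translations of the kernel
`(1/ε) e^{-τ/ε} (4πετ)⁻¹ e^{-|z|²/(4ετ)}`, `τ > 0`). -/
def S_CONT : Prop := ∀ (ε : ℝ), 0 < ε → ∀ g : ST → ℝ, Measurable g → (∀ p, 0 ≤ g p ∧ g p ≤ 1) →
  Continuous (S ε g)

/-- (D) monotone iteration `g_{n+1} = min g₀ (h (S g_n))`: the largest solution of
`g = min g₀ (h (S g))`. -/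
def S_ITER : Prop := ∀ (ε : ℝ), 0 < ε → ∀ h : ℝ → ℝ, Continuous h → Monotone h →
  (∀ x, 0 ≤ h x ∧ h x ≤ 1) → ∀ g₀ : ST → ℝ, Measurable g₀ → (∀ p, 0 ≤ g₀ p ∧ g₀ p ≤ 1) →
  ∃ g : ST → ℝ, Measurable g ∧ (∀ p, 0 ≤ g p ∧ g p ≤ 1) ∧ (∀ p, g p = min (g₀ p) (h (S ε g p))) ∧
    ∀ g' : ST → ℝ, Measurable g' → (∀ p, 0 ≤ g' p) → (∀ p, g' p ≤ g₀ p) →
      (∀ p, g' p ≤ h (S ε g' p)) → ∀ p, g' p ≤ g p

/-- measurability, bounds and monotonicity of `S` -/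
def S_BASIC : Prop := IsProbabilityMeasure mu ∧
  (∀ (ε : ℝ) (g : ST → ℝ), Measurable g → Measurable (S ε g)) ∧
  (∀ (ε : ℝ) (g : ST → ℝ), (∀ p, 0 ≤ g p ∧ g p ≤ 1) → ∀ p, 0 ≤ S ε g p ∧ S ε g p ≤ 1) ∧
  (∀ (ε : ℝ) (g g' : ST → ℝ), Measurable g → Measurable g' → (∀ p, 0 ≤ g p ∧ g p ≤ 1) →
    (∀ p, 0 ≤ g' p ∧ g' p ≤ 1) → ∀ p : ST, (∀ q : ST, q.1 ≤ p.1 → g q ≤ g' q) → 0 ≤ ε →
    S ε g p ≤ S ε g' p)

/-! ### The law of `b σ + √(2σ) Z` -/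

/-- the exponent `(√(b² + 4) - b) / 2` -/
noncomputable def lam (b : ℝ) : ℝ := (√(b ^ 2 + 4) - b) / 2

/-- the factor `(√(b² + 4) + b) / (2 √(b² + 4))` -/
noncomputable def fac (b : ℝ) : ℝ := (√(b ^ 2 + 4) + b) / (2 * √(b ^ 2 + 4))

/-- (E) the tail of `b σ + √(2σ) Z` (an asymmetric Laplace law). Hint: both sides have the
characteristic function `1 / (1 - i b ξ + ξ²)` (given `σ` the characteristic function is
`exp (σ (i b ξ - ξ²))`); `Measure.ext_of_charFun`. -/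
def S_PROF : Prop := ∀ b x : ℝ, 0 ≤ x →
  (ex.prod ga) {w | x ≤ b * w.1 + √(2 * w.1) * w.2} =
    ENNReal.ofReal (fac b * Real.exp (-(lam b * x)))

/-- (E') the same in the plane, in the direction of the unit vector `(c, s)` (rotation invariance:
`c Z₁ + s Z₂` is standard Gaussian). -/
def S_HALF : Prop := ∀ b x c s : ℝ, c ^ 2 + s ^ 2 = 1 → 0 ≤ x →
  mu {w | x ≤ b * w.1 + √(2 * w.1) * (c * w.2.1 + s * w.2.2)} =
    ENNReal.ofReal (fac b * Real.exp (-(lam b * x)))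

/-! ### The shrinking disc -/

/-- (F) For `ε K ≤ R` and `|x| ≤ R` the random point `x + ε√(2σ)Z` is in the disc of radius
`R + (39/10) ε σ` with probability at least `85/100`. Proof: if `|x| ≤ R/2` this holds when
`ε √(2σ)|Z| < R/2`. If `|x| ≥ R/2`, `w = √(2σ) Z`, `e = x/|x|`:
`|x + εw| ≤ |x| + ε⟨e,w⟩ + ε²|w|²/(2|x|) ≤ R + ε⟨e,w⟩ + ε²|w|²/R`, so it holds when
`⟨e, w⟩ < (8/3) σ` (probability `fac (8/3) = 9/10` by (E') with `x = 0` and `-e`; null sets) and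
`ε |w|²/R ≤ (39/10 - 8/3) σ`, that is `2 ε |Z|² / R ≤ 37/30` (the complement has probability at most
`1/20` for large `K`). -/
def S_BALL : Prop := ∃ K : ℝ, 0 < K ∧ ∀ ε R : ℝ, 0 < ε → ε * K ≤ R → ∀ x y : ℝ,
  x ^ 2 + y ^ 2 ≤ R ^ 2 → ENNReal.ofReal (85 / 100) ≤
    mu {w | (x + ε * √(2 * w.1) * w.2.1) ^ 2 + (y + ε * √(2 * w.1) * w.2.2) ^ 2 <
      (R + 39 / 10 * ε * w.1) ^ 2}

/-! ### The wedges -/

/-- the component of `(x, y)` in the direction `e_j = (cos (2πj/N), sin (2πj/N))` -/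
noncomputable def ca (N j : ℕ) (x y : ℝ) : ℝ :=
  x * Real.cos (2 * Real.pi * j / N) + y * Real.sin (2 * Real.pi * j / N)

/-- the component of `(x, y)` orthogonal to `e_j` -/
noncomputable def cb (N j : ℕ) (x y : ℝ) : ℝ :=
  -x * Real.sin (2 * Real.pi * j / N) + y * Real.cos (2 * Real.pi * j / N)

/-- the distances to the two sides of the wedge with the tip `R e_j`, with half opening angle
`ω`, `sin ω = 5/13`, `cos ω = 12/13` -/
noncomputable def d1 (N j : ℕ) (R x y : ℝ) : ℝ := (5 * (ca N j x y - R) - 12 * cb N j x y) / 13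

/-- see `d1` -/
noncomputable def d2 (N j : ℕ) (R x y : ℝ) : ℝ := (5 * (ca N j x y - R) + 12 * cb N j x y) / 13

/-- the complement of the `N` open wedges -/
def D (N : ℕ) (R : ℝ) : Set (ℝ × ℝ) := {z | ∀ j < N, d1 N j R z.1 z.2 ≤ 0 ∨ d2 N j R z.1 z.2 ≤ 0}

/-- (G) the disc of radius `R` is contained in `D N R` -/
def S_IN : Prop := ∀ (N : ℕ) (R : ℝ), 0 < R → ∀ x y : ℝ, x ^ 2 + y ^ 2 < R ^ 2 → (x, y) ∈ D N R

/-- (H) `D N R` is contained in a slightly larger disc: choose the nearest `e_j`, at angle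
`ψ ≤ π/N`; then `r (5 cos ψ - 12 sin ψ) ≤ 5 R`. -/
def S_OUT : Prop := ∀ δ : ℝ, 0 < δ → ∃ N₀ : ℕ, ∀ N : ℕ, N₀ ≤ N → ∀ R : ℝ, 0 < R → ∀ x y : ℝ,
  (x, y) ∈ D N R → x ^ 2 + y ^ 2 ≤ ((1 + δ) * R) ^ 2

/-- the points outside `D N R` for which the bound of the average is more than `79/100` -/
def Bad (N : ℕ) (ε R : ℝ) : Set (ℝ × ℝ) :=
  {z | z ∉ D N R ∧ ∀ j < N, 0 < d1 N j R z.1 z.2 → 0 < d2 N j R z.1 z.2 →
    79 / 100 < 4 / 5 * (Real.exp (-(d1 N j R z.1 z.2 / (2 * ε))) +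
      Real.exp (-(d2 N j R z.1 z.2 / (2 * ε))))}

/-- (I) the area of `Bad`. Let `j` be the nearest direction, `a = ca`, `b = cb`, `|b| ≤ a tan (π/N)`.
As `5a - 12|b|` is largest for the nearest direction, the point is in the wedge `j`. Let
`m = min d1 d2 = (5(a-R) - 12|b|)/13`, `M = max d1 d2 = (5(a-R) + 12|b|)/13`. Either `M < 20 ε`: then
`0 < a - R < 52 ε`, `|b| < 22 ε`; or `m < ε/30`: then `a` is in an interval of length `13ε/150`, given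
`b`, and `|b| ≤ (R + ε) tan (π/N) / (1 - (12/5) tan (π/N))`, at most `1.05 π (R + ε) / N` for large
`N`. -/
def S_AREA : Prop := ∃ N₀ : ℕ, ∀ N : ℕ, N₀ ≤ N → ∀ ε R : ℝ, 0 < ε → 0 < R →
  volume (Bad N ε R) ≤
    ENNReal.ofReal (2 * Real.pi * (R + ε) * (ε / 10) + 2400 * N * ε ^ 2)

/-- the radius at time `t` -/
noncomputable def rad (t : ℝ) : ℝ := 1 - 39 / 10 * t

/-- the source bound: the indicator of `D N (rad t)`, for `t ≤ 1/10` -/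
noncomputable def g0 (N : ℕ) (p : ST) : ℝ := by
  classical
  exact if p.1 ≤ 1 / 10 ∧ p.2 ∈ D N (rad p.1) then 1 else 0

/-- the indicator of the disc -/
noncomputable def gB (p : ST) : ℝ := by
  classical
  exact if p.1 ≤ 1 / 10 ∧ p.2.1 ^ 2 + p.2.2 ^ 2 < rad p.1 ^ 2 then 1 else 0

/-- (J) if `t ≤ 1/10` and `(x, y)` is in the wedge `j` then
`S ε 1_D ≤ (4/5) (e^{-d1/(2ε)} + e^{-d2/(2ε)})`: `D` is contained in the union of the two half-planes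
`d1 ≤ 0`, `d2 ≤ 0`, and along the random point `d1` becomes
`d1 - (3/2) ε σ + ε √(2σ) ⟨n, Z⟩` with a unit vector `n`; (E') with `b = 3/2`, `fac b = 4/5`,
`lam b = 1/2`. -/
def S_UP : Prop := ∀ (N j : ℕ) (ε : ℝ) (p : ST), j < N → 0 < ε → p.1 ≤ 1 / 10 →
  0 < d1 N j (rad p.1) p.2.1 p.2.2 → 0 < d2 N j (rad p.1) p.2.1 p.2.2 →
  S ε (g0 N) p ≤ 4 / 5 * (Real.exp (-(d1 N j (rad p.1) p.2.1 p.2.2 / (2 * ε))) +
    Real.exp (-(d2 N j (rad p.1) p.2.1 p.2.2 / (2 * ε))))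

/-- (K) convergence: if `u` is between the averages of the indicators of the discs of radii
`rad t` and `(1 + δ) rad t` then it is close to the indicator of the disc in `L¹`. Proof: inside,
`1 - u ≤ P(|x + εw| ≥ rad t + (39/10)εσ) ≤ P(|x| ≥ rad t - ε|w|)`, outside
`u ≤ P(|x| ≤ (1+δ)(rad t + (39/10)εσ) + ε|w|)`, `w = √(2σ)Z`; integrate over the plane first (areas of
annuli), then over `mu` (second moments of `σ` and `|w|` are finite). -/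
def S_LONE : Prop := ∃ C : ℝ, 0 < C ∧ ∀ ε δ : ℝ, 0 < ε → ε < 1 → 0 < δ → δ < 1 → ∀ u : ST → ℝ,
  Measurable u → (∀ p, u p ≤ 1) → (∀ p, 0 ≤ u p) → ∀ t : ℝ, 0 ≤ t → t ≤ 1 / 10 →
  (∀ x y : ℝ, S ε gB (t, x, y) ≤ u (t, x, y)) →
  (∀ x y : ℝ, ENNReal.ofReal (u (t, x, y)) ≤
    mu {w | (x + ε * √(2 * w.1) * w.2.1) ^ 2 + (y + ε * √(2 * w.1) * w.2.2) ^ 2 ≤
      ((1 + δ) * rad (t - ε * w.1)) ^ 2}) →
  ∫⁻ z : ℝ × ℝ, ENNReal.ofReal |u (t, z) - {z : ℝ × ℝ | z.1 ^ 2 + z.2 ^ 2 < rad t ^ 2}.indicator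
    (fun _ => (1 : ℝ)) z| ≤ ENNReal.ofReal (C * (ε + δ))

/-! ### The reaction term -/

/-- the quintic step -/
noncomputable def step (y : ℝ) : ℝ :=
  if y ≤ 0 then 0 else if 1 ≤ y then 1 else y ^ 3 * (10 - 15 * y + 6 * y ^ 2)

/-- `h = 0` on `u ≤ 79/100`, `h = 1` on `u ≥ 85/100` -/
noncomputable def hh (u : ℝ) : ℝ := step ((u - 79 / 100) * (50 / 3))

/-- the reaction term `f(u) = -u + h(u)` -/
noncomputable def ff (u : ℝ) : ℝ := -u + hh u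

/-- (L) elementary properties of `hh` and `ff`. (The zero is unique: `f < 0` where
`(u - 79/100)(50/3) ≤ 1/20`, `f > 0` where it is `≥ 19/20`, `u < 1`, and `f' > 0` between.) -/
def S_FUN : Prop := Continuous hh ∧ Monotone hh ∧ (∀ x, 0 ≤ hh x ∧ hh x ≤ 1) ∧
  (∀ x, x ≤ 79 / 100 → hh x = 0) ∧ (∀ x, 85 / 100 ≤ x → hh x = 1) ∧
  ContDiff ℝ 2 ff ∧ ff 0 = 0 ∧ ff 1 = 0 ∧ deriv ff 0 < 0 ∧ deriv ff 1 < 0 ∧
  ∃ a : ℝ, 79 / 100 < a ∧ a < 85 / 100 ∧ ff a = 0 ∧ 0 < deriv ff a ∧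
    (∀ u, 0 < u → u < a → ff u < 0) ∧ (∀ u, a < u → u < 1 → 0 < ff u)

/-! ### The effort -/

/-- `α` yields a travelling wave of speed `b` with the profile `U`:
`U'' + b U' + f(U) - α U = 0` (integrated), `U(-∞) = 0`, `U(∞) = 1`. -/
structure Wave (f : ℝ → ℝ) (b : ℝ) (α U : ℝ → ℝ) : Prop where
  meas : Measurable α
  nonneg : ∀ x, 0 ≤ α x
  range : ∀ x, 0 ≤ U x ∧ U x ≤ 1
  diff : Differentiable ℝ U
  cont : Continuous (deriv U)
  int : ∀ x y : ℝ, IntervalIntegrable (fun s => α s * U s) volume x y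
  eq : ∀ x y : ℝ, deriv U y - deriv U x = ∫ s in x..y, (α s * U s - b * deriv U s - f (U s))
  bot : Tendsto U atBot (𝓝 0)
  top : Tendsto U atTop (𝓝 1)

/-- (M) the lower bound for the effort. `x₀`: the last point with `U = a`; on `[x₀, ∞)` `U ≥ a`,
`α U ≥ U'' + b U'`, so `∫_{x₀}^{y} α ≥ [U'/U] + ∫ (U'/U)² + b log (U(y)/a)`; and
`U'(x₀) = ∫_{-∞}^{x₀} (α U - f(U)) e^{b(s - x₀)} ds ≤ ∫_{-∞}^{x₀} α + a/b` (as `-f(U) ≤ a`). Use sequences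
`x_n → -∞`, `y_n → ∞` with `U'(x_n), U'(y_n) → 0` (mean value theorem). -/
def S_EFF : Prop := ∀ (f : ℝ → ℝ) (a b : ℝ), Continuous f → 0 < a → a < 1 → 0 < b →
  (∀ u, 0 ≤ u → u ≤ a → -u ≤ f u) → (∀ u, a ≤ u → u ≤ 1 → 0 ≤ f u) →
  ∀ α U : ℝ → ℝ, Wave f b α U →
    ENNReal.ofReal (a * b * Real.log (1 / a) - a / b) ≤ ∫⁻ x, ENNReal.ofReal (α x)

/-- (M') numbers -/
def S_NUM : Prop := ∀ a : ℝ, 79 / 100 < a → a < 85 / 100 →
  3 / 10 ≤ a * (39 / 10) * Real.log (1 / a) - a / (39 / 10) ∧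
  ∀ b : ℝ, 39 / 10 < b → 0 < a * b * Real.log (1 / a) - a / b

end Pool.Agent.W5h10.SI
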