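import Mathlib
import Pool.Agent.W5h10.SI.Defs

/-!
# (A) The adjoint identity
-/

set_option autoImplicit false

open MeasureTheory Set Filter Topology ProbabilityTheory
open scoped ENNReal ContDiff

namespace Pool.Agent.W5h10.SI

namespace Adj

theorem ga_prob : IsProbabilityMeasure ga := by
  unfold ga; infer_instance

theorem ex_integral (f : ℝ → ℝ) :
    ∫ s, f s ∂ex = ∫ s in Ioi (0 : ℝ), Real.exp (-s) * f s := by
  unfold ex
  rw [integral_withDensity_eq_integral_toReal_smul (by fun_prop) (by simp)]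
  refine integral_congr_ae (Eventually.of_forall fun s => ?_)
  simp [ENNReal.toReal_ofReal (Real.exp_pos _).le]

theorem ex_integrable (f : ℝ → ℝ) :
    Integrable f ex ↔ IntegrableOn (fun s => Real.exp (-s) * f s) (Ioi 0) := by
  unfold ex
  rw [integrable_withDensity_iff_integrable_smul' (by fun_prop) (by simp)]
  unfold IntegrableOn
  apply integrable_congr
  refine Eventually.of_forall fun s => ?_
  simp [ENNReal.toReal_ofReal (Real.exp_pos _).le]

theorem ex_prob : IsProbabilityMeasure ex := by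
  constructor
  unfold ex
  rw [withDensity_apply _ MeasurableSet.univ, Measure.restrict_univ]
  rw [← ofReal_integral_eq_lintegral_ofReal]
  · rw [integral_exp_neg_Ioi_zero]; simp
  · exact integrableOn_exp_neg_Ioi 0
  · exact Eventually.of_forall fun s => (Real.exp_pos _).le

theorem ex_pos : ∀ᵐ s ∂ex, 0 < s := by
  unfold ex
  exact (withDensity_absolutelyContinuous _ _).ae_le (ae_restrict_mem measurableSet_Ioi)

theorem int_inv_sqrt : Integrable (fun s : ℝ => 1 / √(2 * s)) ex := by
  rw [ex_integrable]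
  have h := (Real.GammaIntegral_convergent (s := 1 / 2) (by norm_num)).const_mul (1 / √2)
  refine IntegrableOn.congr_fun h ?_ measurableSet_Ioi
  intro s hs
  have hs' : (0 : ℝ) < s := hs
  have h2 : s ^ ((1 : ℝ) / 2 - 1) = 1 / √s := by
    rw [show (1 : ℝ) / 2 - 1 = -(1 / 2) by norm_num, Real.rpow_neg hs'.le, Real.sqrt_eq_rpow]
    simp
  simp only []
  rw [h2, Real.sqrt_mul (by norm_num)]
  field_simp

theorem test_fderiv {φ : ST → ℝ} (h : Test φ) (v : ST) : Test (fun q => fderiv ℝ φ q v) where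
  smooth := (h.smooth.fderiv_right (m := ∞) (by simp)).clm_apply contDiff_const
  compact := h.compact.fderiv_apply ℝ v

theorem test_bdd {φ : ST → ℝ} (h : Test φ) : ∃ C, 0 ≤ C ∧ ∀ q, |φ q| ≤ C := by
  obtain ⟨C, hC⟩ := h.smooth.continuous.bounded_above_of_compact_support h.compact
  exact ⟨C, (norm_nonneg _).trans (hC 0), hC⟩

/-- Gaussian integration by parts -/
theorem stein (f f' : ℝ → ℝ) (C : ℝ) (hf' : Measurable f') (hb : ∀ x, |f x| ≤ C)
    (hb' : ∀ x, |f' x| ≤ C) (hd : ∀ x, HasDerivAt f (f' x) x) :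
    ∫ x, x * f x ∂ga = ∫ x, f' x ∂ga := by
  have hf : Continuous f := continuous_iff_continuousAt.2 fun x => (hd x).continuousAt
  have hg : ∀ x, HasDerivAt (gaussianPDFReal 0 1) (-x * gaussianPDFReal 0 1 x) x := by
    intro x
    unfold gaussianPDFReal
    have h1 : HasDerivAt (fun y : ℝ => -(y - 0) ^ 2 / (2 * ((1 : NNReal) : ℝ))) (-x) x := by
      have := (((hasDerivAt_id x).sub_const 0).pow 2).neg.div_const (2 * ((1 : NNReal) : ℝ))
      refine this.congr_deriv ?_
      simp
      ring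
    refine (h1.exp.const_mul _).congr_deriv ?_
    ring
  have i0 : Integrable (gaussianPDFReal 0 1) := integrable_gaussianPDFReal 0 1
  have i1 : Integrable (fun x => x * gaussianPDFReal 0 1 x) := by
    have := (integrable_mul_exp_neg_mul_sq (b := 1 / 2) (by norm_num)).const_mul
      ((√(2 * Real.pi * ((1 : NNReal) : ℝ)))⁻¹)
    refine this.congr (Eventually.of_forall fun x => ?_)
    simp only [gaussianPDFReal]
    rw [show -(x - 0) ^ 2 / (2 * ((1 : NNReal) : ℝ)) = -(1 / 2) * x ^ 2 by simp; ring]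
    ring
  have j0 : Integrable (fun x => f x * gaussianPDFReal 0 1 x) := by
    refine Integrable.mono' (i0.norm.const_mul C)
      (hf.aestronglyMeasurable.mul i0.aestronglyMeasurable) (Eventually.of_forall fun x => ?_)
    rw [norm_mul]
    exact mul_le_mul_of_nonneg_right (hb x) (norm_nonneg _)
  have j1 : Integrable (fun x => f' x * gaussianPDFReal 0 1 x) := by
    refine Integrable.mono' (i0.norm.const_mul C)
      (hf'.aestronglyMeasurable.mul i0.aestronglyMeasurable) (Eventually.of_forall fun x => ?_)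
    rw [norm_mul]
    exact mul_le_mul_of_nonneg_right (hb' x) (norm_nonneg _)
  have j2 : Integrable (fun x => f x * (-x * gaussianPDFReal 0 1 x)) := by
    refine Integrable.mono' (i1.norm.const_mul C)
      (hf.aestronglyMeasurable.mul (i1.aestronglyMeasurable.neg.congr
        (Eventually.of_forall fun x => by simp))) (Eventually.of_forall fun x => ?_)
    rw [norm_mul, neg_mul, norm_neg]
    exact mul_le_mul_of_nonneg_right (hb x) (norm_nonneg _)
  have h0 := integral_eq_zero_of_hasDerivAt_of_integrable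
    (fun x => (hd x).mul (hg x)) (j1.add j2) j0
  have h1 : ∫ x, f' x * gaussianPDFReal 0 1 x + f x * (-x * gaussianPDFReal 0 1 x) =
      (∫ x, f' x * gaussianPDFReal 0 1 x) + ∫ x, f x * (-x * gaussianPDFReal 0 1 x) :=
    integral_add j1 j2
  unfold ga
  rw [integral_gaussianReal_eq_integral_smul (by norm_num),
    integral_gaussianReal_eq_integral_smul (by norm_num)]
  simp only [smul_eq_mul]
  have h2 : ∫ x, f x * (-x * gaussianPDFReal 0 1 x) =
      -∫ x, gaussianPDFReal 0 1 x * (x * f x) := by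
    rw [← integral_neg]
    congr 1; ext x; ring
  have h3 : ∫ x, f' x * gaussianPDFReal 0 1 x = ∫ x, gaussianPDFReal 0 1 x * f' x := by
    congr 1; ext x; ring
  rw [← h3]
  have h4 : ∫ x, gaussianPDFReal 0 1 x * (x * f x) =
      -∫ x, f x * (-x * gaussianPDFReal 0 1 x) := by rw [h2]; ring
  rw [h4]
  have h5 : (∫ x, f' x * gaussianPDFReal 0 1 x + f x * (-x * gaussianPDFReal 0 1 x)) = 0 := h0
  linarith

theorem int_id : Integrable (fun x : ℝ => x) ga := by
  unfold ga
  exact (memLp_id_gaussianReal (μ := 0) (v := 1) 1).integrable (by norm_num)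

theorem steinx (f f' : ℝ × ℝ → ℝ) (C : ℝ) (hf : Measurable f) (hf' : Measurable f')
    (hb : ∀ z, |f z| ≤ C) (hb' : ∀ z, |f' z| ≤ C)
    (hd : ∀ x y, HasDerivAt (fun x => f (x, y)) (f' (x, y)) x) :
    ∫ z, z.1 * f z ∂(ga.prod ga) = ∫ z, f' z ∂(ga.prod ga) := by
  have := ga_prob
  have h1 : Integrable (fun z : ℝ × ℝ => z.1 * f z) (ga.prod ga) := by
    refine Integrable.mono' ((int_id.comp_fst ga).norm.mul_const C)
      (measurable_fst.mul hf).aestronglyMeasurable (Eventually.of_forall fun z => ?_)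
    rw [norm_mul]
    exact mul_le_mul_of_nonneg_left (hb z) (norm_nonneg _)
  have h2 : Integrable f' (ga.prod ga) :=
    Integrable.of_bound hf'.aestronglyMeasurable C (Eventually.of_forall hb')
  rw [integral_prod_symm _ h1, integral_prod_symm _ h2]
  congr 1; ext y
  exact stein (fun x => f (x, y)) (fun x => f' (x, y)) C (by fun_prop) (fun x => hb _)
    (fun x => hb' _) (fun x => hd x y)

theorem steiny (f f' : ℝ × ℝ → ℝ) (C : ℝ) (hf : Measurable f) (hf' : Measurable f')
    (hb : ∀ z, |f z| ≤ C) (hb' : ∀ z, |f' z| ≤ C)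
    (hd : ∀ x y, HasDerivAt (fun y => f (x, y)) (f' (x, y)) y) :
    ∫ z, z.2 * f z ∂(ga.prod ga) = ∫ z, f' z ∂(ga.prod ga) := by
  have := ga_prob
  have h1 : Integrable (fun z : ℝ × ℝ => z.2 * f z) (ga.prod ga) := by
    refine Integrable.mono' ((int_id.comp_snd ga).norm.mul_const C)
      (measurable_snd.mul hf).aestronglyMeasurable (Eventually.of_forall fun z => ?_)
    rw [norm_mul]
    exact mul_le_mul_of_nonneg_left (hb z) (norm_nonneg _)
  have h2 : Integrable f' (ga.prod ga) :=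
    Integrable.of_bound hf'.aestronglyMeasurable C (Eventually.of_forall hb')
  rw [integral_prod _ h1, integral_prod _ h2]
  congr 1; ext x
  exact stein (fun y => f (x, y)) (fun y => f' (x, y)) C (by fun_prop) (fun y => hb _)
    (fun y => hb' _) (fun y => hd x y)

/-- the point of the adjoint -/
noncomputable def qt (ε : ℝ) (p w : ST) : ST :=
  (p.1 + ε * w.1, p.2.1 - ε * √(2 * w.1) * w.2.1, p.2.2 - ε * √(2 * w.1) * w.2.2)

theorem cont_qt (ε : ℝ) (p : ST) : Continuous (qt ε p) := by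
  unfold qt; fun_prop

theorem int_test {φ : ST → ℝ} (h : Test φ) (ε : ℝ) (p : ST) :
    Integrable (fun w => φ (qt ε p w)) mu := by
  have := ga_prob
  have := ex_prob
  have : IsProbabilityMeasure mu := by unfold mu; infer_instance
  obtain ⟨C, -, hC⟩ := test_bdd h
  exact Integrable.of_bound (h.smooth.continuous.comp (cont_qt ε p)).aestronglyMeasurable C
    (Eventually.of_forall fun w => hC _)

theorem int_kx {ψ : ST → ℝ} (h : Test ψ) (ε : ℝ) (hε : 0 < ε) (p : ST) :
    Integrable (fun w : ST => ε / √(2 * w.1) * (w.2.1 * ψ (qt ε p w))) mu ∧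
    Integrable (fun w : ST => ε / √(2 * w.1) * (w.2.2 * ψ (qt ε p w))) mu := by
  have := ga_prob
  have := ex_prob
  obtain ⟨C, hC0, hC⟩ := test_bdd h
  have m1 : Measurable (fun w : ST => ε / √(2 * w.1)) := by fun_prop
  have m2 : Measurable (fun w : ST => ψ (qt ε p w)) :=
    (h.smooth.continuous.comp (cont_qt ε p)).measurable
  constructor
  · have i := (int_inv_sqrt.mul_prod (int_id.comp_fst ga)).norm.const_mul (ε * C)
    unfold mu
    refine Integrable.mono' i (m1.mul ((measurable_fst.comp measurable_snd).mul m2)).aestronglyMeasurable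
      (Eventually.of_forall fun w => ?_)
    simp only [norm_mul, Real.norm_eq_abs, Function.comp]
    rw [abs_div, abs_div, abs_of_pos hε, abs_one]
    calc ε / |√(2 * w.1)| * (|w.2.1| * |ψ (qt ε p w)|) ≤ ε / |√(2 * w.1)| * (|w.2.1| * C) := by
          gcongr; exact hC _
      _ = ε * C * (1 / |√(2 * w.1)| * |w.2.1|) := by ring
  · have i := (int_inv_sqrt.mul_prod (int_id.comp_snd ga)).norm.const_mul (ε * C)
    unfold mu
    refine Integrable.mono' i (m1.mul ((measurable_snd.comp measurable_snd).mul m2)).aestronglyMeasurable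
      (Eventually.of_forall fun w => ?_)
    simp only [norm_mul, Real.norm_eq_abs, Function.comp]
    rw [abs_div, abs_div, abs_of_pos hε, abs_one]
    calc ε / |√(2 * w.1)| * (|w.2.2| * |ψ (qt ε p w)|) ≤ ε / |√(2 * w.1)| * (|w.2.2| * C) := by
          gcongr; exact hC _
      _ = ε * C * (1 / |√(2 * w.1)| * |w.2.2|) := by ring

theorem ibpx {ψ : ST → ℝ} (h : Test ψ) (ε : ℝ) (hε : 0 < ε) (p : ST) :
    ∫ w : ST, ε / √(2 * w.1) * (w.2.1 * ψ (qt ε p w)) ∂mu =
      ∫ w : ST, -(ε ^ 2 * fderiv ℝ ψ (qt ε p w) (0, 1, 0)) ∂mu := by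
  have := ga_prob
  have := ex_prob
  obtain ⟨C, hC0, hC⟩ := test_bdd h
  obtain ⟨C', hC0', hC'⟩ := test_bdd (test_fderiv h (0, 1, 0))
  have i1 := (int_kx h ε hε p).1
  have i2 : Integrable (fun w : ST => -(ε ^ 2 * fderiv ℝ ψ (qt ε p w) (0, 1, 0))) mu :=
    ((int_test (test_fderiv h (0, 1, 0)) ε p).const_mul (ε ^ 2)).neg
  unfold mu at i1 i2 ⊢
  rw [integral_prod _ i1, integral_prod _ i2]
  refine integral_congr_ae ?_
  filter_upwards [ex_pos] with s hs
  have hs2 : 0 < √(2 * s) := Real.sqrt_pos.2 (by linarith)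
  rw [integral_const_mul]
  have key := steinx (fun z : ℝ × ℝ => ψ (qt ε p (s, z)))
    (fun z : ℝ × ℝ => -(ε * √(2 * s)) * fderiv ℝ ψ (qt ε p (s, z)) (0, 1, 0))
    (C + ε * √(2 * s) * C')
    ((h.smooth.continuous.comp ((cont_qt ε p).comp (by fun_prop))).measurable)
    ((((test_fderiv h (0, 1, 0)).smooth.continuous.comp
      ((cont_qt ε p).comp (by fun_prop : Continuous fun z : ℝ × ℝ => (s, z)))).measurable).const_mul _)
    (fun z => (hC _).trans (by have : 0 ≤ ε * √(2 * s) * C' := by positivity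
                               linarith))
    (fun z => by
      rw [abs_mul, abs_neg, abs_of_pos (by positivity : 0 < ε * √(2 * s))]
      have := mul_le_mul_of_nonneg_left (hC' (qt ε p (s, z))) (by positivity : 0 ≤ ε * √(2 * s))
      linarith)
    (fun x y => by
      have hγ : HasDerivAt (fun x : ℝ => qt ε p (s, (x, y))) (0, -(ε * √(2 * s)), 0) x := by
        simp only [qt]
        refine HasDerivAt.prodMk (hasDerivAt_const _ _) (HasDerivAt.prodMk ?_ (hasDerivAt_const _ _))
        have := ((hasDerivAt_id x).const_mul (ε * √(2 * s))).const_sub p.2.1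
        simpa using this
      have hψ := ((h.smooth.differentiable (by simp)) (qt ε p (s, (x, y)))).hasFDerivAt
      have := hψ.comp_hasDerivAt x hγ
      refine this.congr_deriv ?_
      have hv : ((0, -(ε * √(2 * s)), 0) : ST) = (-(ε * √(2 * s))) • ((0, 1, 0) : ST) := by
        simp
      rw [hv, map_smul, smul_eq_mul])
  rw [key, integral_const_mul, integral_neg, integral_const_mul]
  field_simp

theorem ibpy {ψ : ST → ℝ} (h : Test ψ) (ε : ℝ) (hε : 0 < ε) (p : ST) :
    ∫ w : ST, ε / √(2 * w.1) * (w.2.2 * ψ (qt ε p w)) ∂mu =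
      ∫ w : ST, -(ε ^ 2 * fderiv ℝ ψ (qt ε p w) (0, 0, 1)) ∂mu := by
  have := ga_prob
  have := ex_prob
  obtain ⟨C, hC0, hC⟩ := test_bdd h
  obtain ⟨C', hC0', hC'⟩ := test_bdd (test_fderiv h (0, 0, 1))
  have i1 := (int_kx h ε hε p).2
  have i2 : Integrable (fun w : ST => -(ε ^ 2 * fderiv ℝ ψ (qt ε p w) (0, 0, 1))) mu :=
    ((int_test (test_fderiv h (0, 0, 1)) ε p).const_mul (ε ^ 2)).neg
  unfold mu at i1 i2 ⊢
  rw [integral_prod _ i1, integral_prod _ i2]
  refine integral_congr_ae ?_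
  filter_upwards [ex_pos] with s hs
  have hs2 : 0 < √(2 * s) := Real.sqrt_pos.2 (by linarith)
  rw [integral_const_mul]
  have key := steiny (fun z : ℝ × ℝ => ψ (qt ε p (s, z)))
    (fun z : ℝ × ℝ => -(ε * √(2 * s)) * fderiv ℝ ψ (qt ε p (s, z)) (0, 0, 1))
    (C + ε * √(2 * s) * C')
    ((h.smooth.continuous.comp ((cont_qt ε p).comp (by fun_prop))).measurable)
    ((((test_fderiv h (0, 0, 1)).smooth.continuous.comp
      ((cont_qt ε p).comp (by fun_prop : Continuous fun z : ℝ × ℝ => (s, z)))).measurable).const_mul _)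
    (fun z => (hC _).trans (by have : 0 ≤ ε * √(2 * s) * C' := by positivity
                               linarith))
    (fun z => by
      rw [abs_mul, abs_neg, abs_of_pos (by positivity : 0 < ε * √(2 * s))]
      have := mul_le_mul_of_nonneg_left (hC' (qt ε p (s, z))) (by positivity : 0 ≤ ε * √(2 * s))
      linarith)
    (fun x y => by
      have hγ : HasDerivAt (fun y : ℝ => qt ε p (s, (x, y))) (0, 0, -(ε * √(2 * s))) y := by
        simp only [qt]
        refine HasDerivAt.prodMk (hasDerivAt_const _ _) (HasDerivAt.prodMk (hasDerivAt_const _ _) ?_)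
        have := ((hasDerivAt_id y).const_mul (ε * √(2 * s))).const_sub p.2.2
        simpa using this
      have hψ := ((h.smooth.differentiable (by simp)) (qt ε p (s, (x, y)))).hasFDerivAt
      have := hψ.comp_hasDerivAt y hγ
      refine this.congr_deriv ?_
      have hv : ((0, 0, -(ε * √(2 * s))) : ST) = (-(ε * √(2 * s))) • ((0, 0, 1) : ST) := by
        simp
      rw [hv, map_smul, smul_eq_mul])
  rw [key, integral_const_mul, integral_neg, integral_const_mul]
  field_simp

/-- integration in `σ` -/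
theorem timeint {φ : ST → ℝ} (h : Test φ) (ε : ℝ) (hε : 0 < ε) (p : ST) (z : ℝ × ℝ) :
    ∫ s, (φ (qt ε p (s, z)) - ε * fderiv ℝ φ (qt ε p (s, z)) (1, 0, 0)
      + ε / √(2 * s) * (z.1 * fderiv ℝ φ (qt ε p (s, z)) (0, 1, 0))
      + ε / √(2 * s) * (z.2 * fderiv ℝ φ (qt ε p (s, z)) (0, 0, 1))) ∂ex = φ p := by
  rw [ex_integral]
  obtain ⟨C0, h00, h0⟩ := test_bdd h
  obtain ⟨C1, h10, h1⟩ := test_bdd (test_fderiv h (1, 0, 0))
  obtain ⟨C2, h20, h2⟩ := test_bdd (test_fderiv h (0, 1, 0))
  obtain ⟨C3, h30, h3⟩ := test_bdd (test_fderiv h (0, 0, 1))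
  have cq : Continuous (fun s : ℝ => qt ε p (s, z)) := (cont_qt ε p).comp (by fun_prop)
  have c0 : Measurable (fun s : ℝ => φ (qt ε p (s, z))) := (h.smooth.continuous.comp cq).measurable
  have c1 : Measurable (fun s : ℝ => fderiv ℝ φ (qt ε p (s, z)) (1, 0, 0)) :=
    ((test_fderiv h (1, 0, 0)).smooth.continuous.comp cq).measurable
  have c2 : Measurable (fun s : ℝ => fderiv ℝ φ (qt ε p (s, z)) (0, 1, 0)) :=
    ((test_fderiv h (0, 1, 0)).smooth.continuous.comp cq).measurable
  have c3 : Measurable (fun s : ℝ => fderiv ℝ φ (qt ε p (s, z)) (0, 0, 1)) :=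
    ((test_fderiv h (0, 0, 1)).smooth.continuous.comp cq).measurable
  have hint := integral_Ioi_of_hasDerivAt_of_tendsto (a := 0) (m := 0)
    (f := fun s => -(Real.exp (-s) * φ (qt ε p (s, z))))
    (f' := fun s => Real.exp (-s) * (φ (qt ε p (s, z)) - ε * fderiv ℝ φ (qt ε p (s, z)) (1, 0, 0)
      + ε / √(2 * s) * (z.1 * fderiv ℝ φ (qt ε p (s, z)) (0, 1, 0))
      + ε / √(2 * s) * (z.2 * fderiv ℝ φ (qt ε p (s, z)) (0, 0, 1)))) ?_ ?_ ?_ ?_
  · rw [hint]
    simp [qt]
  · refine Continuous.continuousWithinAt ?_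
    have := h.smooth.continuous.comp cq
    have e : Continuous fun s : ℝ => Real.exp (-s) := by fun_prop
    exact (e.mul this).neg
  · intro s hs
    have hs' : (0 : ℝ) < s := hs
    have hsq : 0 < √(2 * s) := Real.sqrt_pos.2 (by linarith)
    have hr : HasDerivAt (fun s : ℝ => √(2 * s)) (1 / √(2 * s)) s := by
      have := ((hasDerivAt_id s).const_mul 2).sqrt (by simp; exact hs'.ne')
      refine this.congr_deriv ?_
      simp only [id]
      field_simp
    have hγ : HasDerivAt (fun s : ℝ => qt ε p (s, z))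
        (ε, -(ε / √(2 * s) * z.1), -(ε / √(2 * s) * z.2)) s := by
      simp only [qt]
      refine HasDerivAt.prodMk ?_ (HasDerivAt.prodMk ?_ ?_)
      · have := ((hasDerivAt_id s).const_mul ε).const_add p.1
        simpa using this
      · have := ((hr.const_mul ε).mul_const z.1).const_sub p.2.1
        refine this.congr_deriv ?_
        ring
      · have := ((hr.const_mul ε).mul_const z.2).const_sub p.2.2
        refine this.congr_deriv ?_
        ring
    have hφ := ((h.smooth.differentiable (by simp)) (qt ε p (s, z))).hasFDerivAt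
    have hc := hφ.comp_hasDerivAt s hγ
    have he : HasDerivAt (fun s : ℝ => Real.exp (-s)) (-Real.exp (-s)) s := by
      have := (hasDerivAt_neg s).exp
      refine this.congr_deriv ?_
      ring
    have hm := (he.mul hc).neg
    refine hm.congr_deriv ?_
    have hv : ((ε, -(ε / √(2 * s) * z.1), -(ε / √(2 * s) * z.2)) : ST) =
        ε • ((1, 0, 0) : ST) + (-(ε / √(2 * s) * z.1)) • ((0, 1, 0) : ST)
          + (-(ε / √(2 * s) * z.2)) • ((0, 0, 1) : ST) := by
      simp
    rw [hv, map_add, map_add, map_smul, map_smul, map_smul]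
    simp only [smul_eq_mul, Function.comp]
    ring
  · have hE : IntegrableOn (fun s : ℝ => Real.exp (-s) * 1) (Ioi 0) := by
      simpa using integrableOn_exp_neg_Ioi 0
    have hS := (ex_integrable _).1 int_inv_sqrt
    have hB := (hE.const_mul (C0 + ε * C1)).add (hS.const_mul (ε * (|z.1| * C2 + |z.2| * C3)))
    refine Integrable.mono' hB ?_ ((ae_restrict_mem measurableSet_Ioi).mono fun s hs => ?_)
    · have me : Measurable (fun s : ℝ => ε / √(2 * s)) := by fun_prop
      have mx : Measurable (fun s : ℝ => Real.exp (-s)) := by fun_prop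
      exact (mx.mul (((c0.sub (c1.const_mul ε)).add (me.mul (c2.const_mul z.1))).add
        (me.mul (c3.const_mul z.2)))).aestronglyMeasurable
    · have hs' : (0 : ℝ) < s := hs
      have hsq : 0 < √(2 * s) := Real.sqrt_pos.2 (by linarith)
      rw [norm_mul, Real.norm_eq_abs, Real.norm_eq_abs, abs_of_pos (Real.exp_pos _)]
      have b0 := h0 (qt ε p (s, z))
      have b1 := h1 (qt ε p (s, z))
      have b2 := h2 (qt ε p (s, z))
      have b3 := h3 (qt ε p (s, z))
      have t1 : |ε * fderiv ℝ φ (qt ε p (s, z)) (1, 0, 0)| ≤ ε * C1 := by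
        rw [abs_mul, abs_of_pos hε]; gcongr
      have t2 : |ε / √(2 * s) * (z.1 * fderiv ℝ φ (qt ε p (s, z)) (0, 1, 0))| ≤
          ε / √(2 * s) * (|z.1| * C2) := by
        rw [abs_mul, abs_mul, abs_of_pos (by positivity : 0 < ε / √(2 * s))]; gcongr
      have t3 : |ε / √(2 * s) * (z.2 * fderiv ℝ φ (qt ε p (s, z)) (0, 0, 1))| ≤
          ε / √(2 * s) * (|z.2| * C3) := by
        rw [abs_mul, abs_mul, abs_of_pos (by positivity : 0 < ε / √(2 * s))]; gcongr
      have tot : |φ (qt ε p (s, z)) - ε * fderiv ℝ φ (qt ε p (s, z)) (1, 0, 0)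
          + ε / √(2 * s) * (z.1 * fderiv ℝ φ (qt ε p (s, z)) (0, 1, 0))
          + ε / √(2 * s) * (z.2 * fderiv ℝ φ (qt ε p (s, z)) (0, 0, 1))| ≤
          C0 + ε * C1 + ε / √(2 * s) * (|z.1| * C2) + ε / √(2 * s) * (|z.2| * C3) := by
        refine (abs_add_le _ _).trans (add_le_add ((abs_add_le _ _).trans (add_le_add
          ((abs_sub _ _).trans (add_le_add b0 t1)) t2)) t3)
      calc _ ≤ Real.exp (-s) * (C0 + ε * C1 + ε / √(2 * s) * (|z.1| * C2)
            + ε / √(2 * s) * (|z.2| * C3)) := by gcongr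
        _ = _ := by
          simp only [Pi.add_apply]
          ring
  · have hz : Tendsto (fun s : ℝ => C0 * Real.exp (-s)) atTop (𝓝 0) := by
      have := (Real.tendsto_exp_neg_atTop_nhds_zero).const_mul C0
      simpa using this
    refine squeeze_zero_norm (fun s => ?_) hz
    rw [norm_neg, norm_mul, Real.norm_eq_abs, Real.norm_eq_abs, abs_of_pos (Real.exp_pos _),
      mul_comm]
    gcongr
    exact h0 _

end Adj

open Adj in
theorem adj : S_ADJ := by
  intro ε hε φ hφ p
  have := ga_prob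
  have := ex_prob
  have hx := test_fderiv hφ (0, 1, 0)
  have hy := test_fderiv hφ (0, 0, 1)
  have ht := test_fderiv hφ (1, 0, 0)
  have i0 := int_test hφ ε p
  have it := (int_test ht ε p).const_mul ε
  have ix := (int_kx hx ε hε p).1
  have iy := (int_kx hy ε hε p).2
  have ixx : Integrable (fun w : ST => -(ε ^ 2 *
      fderiv ℝ (fun q => fderiv ℝ φ q (0, 1, 0)) (qt ε p w) (0, 1, 0))) mu :=
    ((int_test (test_fderiv hx (0, 1, 0)) ε p).const_mul (ε ^ 2)).neg
  have iyy : Integrable (fun w : ST => -(ε ^ 2 *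
      fderiv ℝ (fun q => fderiv ℝ φ q (0, 0, 1)) (qt ε p w) (0, 0, 1))) mu :=
    ((int_test (test_fderiv hy (0, 0, 1)) ε p).const_mul (ε ^ 2)).neg
  have hL : ∫ w, (φ (p.1 + ε * w.1, p.2.1 - ε * √(2 * w.1) * w.2.1,
        p.2.2 - ε * √(2 * w.1) * w.2.2)
      - ε * dt φ (p.1 + ε * w.1, p.2.1 - ε * √(2 * w.1) * w.2.1, p.2.2 - ε * √(2 * w.1) * w.2.2)
      - ε ^ 2 * lap φ (p.1 + ε * w.1, p.2.1 - ε * √(2 * w.1) * w.2.1,
        p.2.2 - ε * √(2 * w.1) * w.2.2)) ∂mu =
      ∫ w, (φ (qt ε p w) - ε * fderiv ℝ φ (qt ε p w) (1, 0, 0)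
        + -(ε ^ 2 * fderiv ℝ (fun q => fderiv ℝ φ q (0, 1, 0)) (qt ε p w) (0, 1, 0))
        + -(ε ^ 2 * fderiv ℝ (fun q => fderiv ℝ φ q (0, 0, 1)) (qt ε p w) (0, 0, 1))) ∂mu := by
    congr 1; ext w
    simp only [dt, lap, qt]
    ring
  have i0t : Integrable (fun w : ST => φ (qt ε p w) - ε * fderiv ℝ φ (qt ε p w) (1, 0, 0)) mu :=
    i0.sub it
  have i0xx : Integrable (fun w : ST => φ (qt ε p w) - ε * fderiv ℝ φ (qt ε p w) (1, 0, 0)
      + -(ε ^ 2 * fderiv ℝ (fun q => fderiv ℝ φ q (0, 1, 0)) (qt ε p w) (0, 1, 0))) mu :=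
    i0t.add ixx
  have i0x : Integrable (fun w : ST => φ (qt ε p w) - ε * fderiv ℝ φ (qt ε p w) (1, 0, 0)
      + ε / √(2 * w.1) * (w.2.1 * fderiv ℝ φ (qt ε p w) (0, 1, 0))) mu := i0t.add ix
  rw [hL, integral_add i0xx iyy, integral_add i0t ixx,
    ← ibpx hx ε hε p, ← ibpy hy ε hε p, ← integral_add i0t ix,
    ← integral_add i0x iy]
  have hK := i0x.add iy
  unfold mu at hK ⊢
  have := integral_prod_symm _ hK
  simp only [Pi.add_apply, Pi.sub_apply] at this
  rw [this]
  have h2 : ∀ z : ℝ × ℝ, ∫ s, (φ (qt ε p (s, z)) - ε * fderiv ℝ φ (qt ε p (s, z)) (1, 0, 0)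
      + ε / √(2 * s) * (z.1 * fderiv ℝ φ (qt ε p (s, z)) (0, 1, 0))
      + ε / √(2 * s) * (z.2 * fderiv ℝ φ (qt ε p (s, z)) (0, 0, 1))) ∂ex = φ p :=
    timeint hφ ε hε p
  simp only [h2]
  simp

end Pool.Agent.W5h10.SI
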