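import Pool.Agent.W5h10.SI.Defs

/-!
# Sharp interface limit: the area of the bad points
-/

set_option autoImplicit false

open MeasureTheory Set Filter Topology ProbabilityTheory
open scoped ENNReal ContDiff

namespace Pool.Agent.W5h10.SI

/-- the rotation to the coordinates `(ca, cb)` -/
noncomputable def arRot (N j : ℕ) : ℝ × ℝ →ₗ[ℝ] ℝ × ℝ :=
  Matrix.toLin (Module.Basis.finTwoProd ℝ) (Module.Basis.finTwoProd ℝ)
    !![Real.cos (2 * Real.pi * j / N), Real.sin (2 * Real.pi * j / N);
       -Real.sin (2 * Real.pi * j / N), Real.cos (2 * Real.pi * j / N)]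

theorem arRot_apply (N j : ℕ) (z : ℝ × ℝ) :
    arRot N j z = (ca N j z.1 z.2, cb N j z.1 z.2) := by
  unfold arRot ca cb
  rw [Matrix.toLin_finTwoProd_apply]
  refine Prod.ext ?_ ?_
  · simp only
    ring
  · simp only
    ring

theorem arRot_det (N j : ℕ) : LinearMap.det (arRot N j) = 1 := by
  unfold arRot
  rw [LinearMap.det_toLin, Matrix.det_fin_two_of]
  nlinarith [Real.sin_sq_add_cos_sq (2 * Real.pi * j / N)]

theorem arRot_vol (N j : ℕ) (E : Set (ℝ × ℝ)) : volume (arRot N j ⁻¹' E) = volume E := by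
  have h := Measure.addHaar_preimage_linearMap (volume : Measure (ℝ × ℝ)) (f := arRot N j)
    (by rw [arRot_det]; exact one_ne_zero) E
  rw [h, arRot_det]
  simp

/-- the strip along the sides of the wedge -/
def arE1 (ε R B : ℝ) : Set (ℝ × ℝ) :=
  {w | |w.2| ≤ B ∧ 0 < 5 * (w.1 - R) - 12 * |w.2| ∧ 5 * (w.1 - R) - 12 * |w.2| < 13 * ε / 30}

/-- the neighbourhood of the tip -/
def arE2 (ε R : ℝ) : Set (ℝ × ℝ) := Ioo R (R + 52 * ε) ×ˢ Ioo (-(22 * ε)) (22 * ε)

theorem arE2_vol {ε R : ℝ} (hε : 0 < ε) :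
    volume (arE2 ε R) = ENNReal.ofReal (2288 * ε ^ 2) := by
  unfold arE2
  rw [Measure.volume_eq_prod, Measure.prod_prod, Real.volume_Ioo, Real.volume_Ioo,
    ← ENNReal.ofReal_mul (by linarith)]
  congr 1
  ring

theorem arE1_vol {ε R B : ℝ} (hε : 0 < ε) :
    volume (arE1 ε R B) ≤ ENNReal.ofReal (2 * B * (13 * ε / 150)) := by
  have hm : MeasurableSet (arE1 ε R B) := by
    have h1 : MeasurableSet {w : ℝ × ℝ | |w.2| ≤ B} := measurableSet_le (by fun_prop) (by fun_prop)
    have h2 : MeasurableSet {w : ℝ × ℝ | 0 < 5 * (w.1 - R) - 12 * |w.2|} :=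
      measurableSet_lt (by fun_prop) (by fun_prop)
    have h3 : MeasurableSet {w : ℝ × ℝ | 5 * (w.1 - R) - 12 * |w.2| < 13 * ε / 30} :=
      measurableSet_lt (by fun_prop) (by fun_prop)
    exact h1.inter (h2.inter h3)
  rw [Measure.volume_eq_prod, Measure.prod_apply_symm hm]
  calc ∫⁻ y, volume ((fun x => (x, y)) ⁻¹' arE1 ε R B) ∂volume
      ≤ ∫⁻ y, (Icc (-B) B).indicator (fun _ => ENNReal.ofReal (13 * ε / 150)) y ∂volume := by
        refine lintegral_mono fun y => ?_
        by_cases hy : y ∈ Icc (-B) B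
        · rw [indicator_of_mem hy]
          calc volume ((fun x => (x, y)) ⁻¹' arE1 ε R B)
              ≤ volume (Ioo (R + 12 / 5 * |y|) (R + 12 / 5 * |y| + 13 * ε / 150)) := by
                refine measure_mono fun x hx => ?_
                obtain ⟨-, h1, h2⟩ := hx
                simp only at h1 h2
                constructor <;> linarith
            _ = ENNReal.ofReal (13 * ε / 150) := by
                rw [Real.volume_Ioo]
                congr 1
                ring
        · have : (fun x => (x, y)) ⁻¹' arE1 ε R B = ∅ := by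
            rw [eq_empty_iff_forall_notMem]
            intro x hx
            exact hy (abs_le.mp hx.1)
          rw [this, measure_empty]
          exact bot_le
    _ = ENNReal.ofReal (13 * ε / 150) * volume (Icc (-B) B) := by
        rw [lintegral_indicator measurableSet_Icc, setLIntegral_const]
    _ = ENNReal.ofReal (2 * B * (13 * ε / 150)) := by
        rw [Real.volume_Icc, ← ENNReal.ofReal_mul (by positivity)]
        congr 1
        ring

theorem ar_exp {ε m M : ℝ} (hε : 0 < ε)
    (h : 79 / 100 < 4 / 5 * (Real.exp (-(m / (2 * ε))) + Real.exp (-(M / (2 * ε))))) :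
    m < ε / 30 ∨ M < 20 * ε := by
  by_contra hcon
  push Not at hcon
  obtain ⟨h1, h2⟩ := hcon
  have e1 : Real.exp (-(m / (2 * ε))) ≤ 60 / 61 := by
    have k1 : (1 : ℝ) / 60 ≤ m / (2 * ε) := by
      rw [le_div_iff₀ (by positivity)]
      linarith
    have k2 : Real.exp (-(m / (2 * ε))) ≤ Real.exp (-(1 / 60)) := Real.exp_le_exp.mpr (by linarith)
    have k3 := Real.add_one_le_exp (1 / 60 : ℝ)
    refine k2.trans ?_
    rw [Real.exp_neg]
    refine inv_le_of_inv_le₀ (by norm_num) ?_
    norm_num at k3 ⊢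
    linarith
  have e2 : Real.exp (-(M / (2 * ε))) ≤ 1 / 1024 := by
    have k1 : (10 : ℝ) ≤ M / (2 * ε) := by
      rw [le_div_iff₀ (by positivity)]
      linarith
    have k2 : Real.exp (-(M / (2 * ε))) ≤ Real.exp (-10) := Real.exp_le_exp.mpr (by linarith)
    have k3 : (1024 : ℝ) ≤ Real.exp 10 := by
      have k4 : (2 : ℝ) ≤ Real.exp 1 := by
        have := Real.add_one_le_exp (1 : ℝ)
        linarith
      have k5 : Real.exp 10 = Real.exp 1 ^ 10 := by
        rw [← Real.exp_nat_mul]
        norm_num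
      rw [k5]
      calc (1024 : ℝ) = 2 ^ 10 := by norm_num
        _ ≤ Real.exp 1 ^ 10 := pow_le_pow_left₀ (by norm_num) k4 10
    refine k2.trans ?_
    rw [Real.exp_neg]
    refine inv_le_of_inv_le₀ (by norm_num) ?_
    norm_num at k3 ⊢
    linarith
  linarith

/-- the inner product with a rotated direction -/
theorem ar_add (x y θ φ : ℝ) : x * Real.cos (θ + φ) + y * Real.sin (θ + φ) =
    (x * Real.cos θ + y * Real.sin θ) * Real.cos φ +
      (-x * Real.sin θ + y * Real.cos θ) * Real.sin φ := by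
  rw [Real.cos_add, Real.sin_add]
  ring

/-- all multiples of the angle -/
theorem ar_all {N : ℕ} (hN : 0 < N) {x y a : ℝ} (h : ∀ k < N, ca N k x y ≤ a) (k : ℤ) :
    x * Real.cos (2 * Real.pi * k / N) + y * Real.sin (2 * Real.pi * k / N) ≤ a := by
  have hN' : (0 : ℤ) < N := by exact_mod_cast hN
  have h0 : 0 ≤ k % N := Int.emod_nonneg _ hN'.ne'
  have h1 : k % N < N := Int.emod_lt_of_pos _ hN'
  obtain ⟨q, hq⟩ := Int.eq_ofNat_of_zero_le h0
  have h2 : q < N := by
    rw [hq] at h1
    exact_mod_cast h1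
  have h3 : (k : ℝ) = q + N * ((k / (N : ℤ) : ℤ) : ℝ) := by
    have h4 := Int.emod_add_mul_ediv k N
    rw [hq] at h4
    exact_mod_cast h4.symm
  have h5 : 2 * Real.pi * k / N = 2 * Real.pi * q / N +
      ((k / (N : ℤ) : ℤ) : ℝ) * (2 * Real.pi) := by
    have hN0 : (N : ℝ) ≠ 0 := by exact_mod_cast hN.ne'
    rw [h3]
    field_simp
  rw [h5, Real.cos_add_int_mul_two_pi, Real.sin_add_int_mul_two_pi]
  exact h q h2

theorem ar_sub {N : ℕ} (hN : 400 ≤ N) {ε R : ℝ} (hε : 0 < ε) (hR : 0 < R) :
    Bad N ε R ⊆ ⋃ j ∈ Finset.range N, arRot N j ⁻¹'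
      (arE1 ε R (21 / 20 * (Real.pi * (R + ε) / N)) ∪ arE2 ε R) := by
  rintro ⟨x, y⟩ ⟨hD, hbad⟩
  simp only at hbad
  have hN0 : 0 < N := by omega
  have hNr : (400 : ℝ) ≤ N := by exact_mod_cast hN
  have hNp : (0 : ℝ) < N := by linarith
  have hD' : ∃ j' < N, 0 < d1 N j' R x y ∧ 0 < d2 N j' R x y := by
    by_contra hcon
    push Not at hcon
    apply hD
    intro j hj
    by_cases h1 : 0 < d1 N j R x y
    · exact Or.inr (hcon j hj h1)
    · exact Or.inl (not_lt.mp h1)
  obtain ⟨j', hj', h1', h2'⟩ := hD'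
  obtain ⟨j, hj, hmax⟩ := Finset.exists_max_image (Finset.range N) (fun j => ca N j x y)
    ⟨j', Finset.mem_range.mpr hj'⟩
  have hjN := Finset.mem_range.mp hj
  have hmax' : ∀ k < N, ca N k x y ≤ ca N j x y := fun k hk => hmax k (Finset.mem_range.mpr hk)
  have hall := ar_all hN0 hmax'
  -- the angle
  set X : ℝ := Real.pi / N with hX
  have hX0 : 0 < X := by positivity
  have hX1 : X ≤ 1 / 100 := by
    rw [hX, div_le_iff₀ hNp]
    linarith [Real.pi_lt_d2]
  have hsin : 0 < Real.sin X := Real.sin_pos_of_pos_of_lt_pi hX0 (by linarith [Real.pi_gt_three])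
  have hp : ca N j x y * Real.cos (2 * X) + cb N j x y * Real.sin (2 * X) ≤ ca N j x y := by
    have := hall (j + 1)
    have e : 2 * Real.pi * ((j + 1 : ℤ) : ℝ) / N = 2 * Real.pi * j / N + 2 * X := by
      rw [hX]
      push_cast
      ring
    rw [e, ar_add] at this
    exact this
  have hn : ca N j x y * Real.cos (2 * X) - cb N j x y * Real.sin (2 * X) ≤ ca N j x y := by
    have := hall (j - 1)
    have e : 2 * Real.pi * ((j - 1 : ℤ) : ℝ) / N = 2 * Real.pi * j / N + (-(2 * X)) := by
      rw [hX]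
      push_cast
      ring
    rw [e, ar_add, Real.cos_neg, Real.sin_neg, mul_neg] at this
    exact this
  -- coordinates
  have hr : ∀ k, ca N k x y ^ 2 + cb N k x y ^ 2 = x ^ 2 + y ^ 2 := by
    intro k
    unfold ca cb
    have := Real.sin_sq_add_cos_sq (2 * Real.pi * k / N)
    linear_combination (x ^ 2 + y ^ 2) * this
  have hrj := hr j
  have hrj' := hr j'
  have hjj' := hmax' j' hj'
  unfold d1 at h1'
  unfold d2 at h2'
  have hbadj := hbad j hjN
  unfold d1 d2 at hbadj
  refine mem_iUnion₂.mpr ⟨j, hj, ?_⟩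
  rw [mem_preimage, arRot_apply]
  simp only
  clear hall hmax hmax' hbad hr hD
  generalize ca N j x y = a at *
  generalize cb N j x y = b at *
  generalize ca N j' x y = a' at *
  generalize cb N j' x y = b' at *
  have hb' : |b'| < 5 / 12 * (a' - R) := abs_lt.mpr ⟨by linarith, by linarith⟩
  have ha' : R < a' := by linarith [abs_nonneg b']
  have hbb : |b| ≤ |b'| := by
    rw [← sq_le_sq]
    nlinarith
  have hb : |b| < 5 / 12 * (a - R) := by linarith
  obtain ⟨hb1, hb2⟩ := abs_lt.mp hb
  have hcase : (5 * (a - R) - 12 * |b|) / 13 < ε / 30 ∨ (5 * (a - R) + 12 * |b|) / 13 < 20 * ε := by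
    have h3 := hbadj (by linarith) (by linarith)
    rcases le_total 0 b with hs | hs
    · rw [abs_of_nonneg hs]
      exact ar_exp hε h3
    · rw [abs_of_nonpos hs]
      rw [add_comm (Real.exp _)] at h3
      have h4 := ar_exp hε h3
      rw [show 5 * (a - R) - 12 * -b = 5 * (a - R) + 12 * b by ring,
        show 5 * (a - R) + 12 * -b = 5 * (a - R) - 12 * b by ring]
      exact h4
  rcases hcase with hc | hc
  · left
    refine ⟨?_, by show 0 < 5 * (a - R) - 12 * |b|; linarith,
      by show 5 * (a - R) - 12 * |b| < 13 * ε / 30; linarith⟩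
    show |b| ≤ 21 / 20 * (Real.pi * (R + ε) / N)
    have e0 : Real.pi * (R + ε) / N = X * (R + ε) := by
      rw [hX]
      ring
    rw [e0]
    have k1 : |b| * Real.cos X ≤ a * Real.sin X := by
      rw [Real.cos_two_mul, Real.sin_two_mul] at hp hn
      have q1 := Real.sin_sq_add_cos_sq X
      have q2 : Real.sin X * (|b| * Real.cos X) ≤ Real.sin X * (a * Real.sin X) := by
        rcases abs_cases b with ⟨hs, -⟩ | ⟨hs, -⟩
        · rw [hs]
          nlinarith
        · rw [hs]
          nlinarith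
      exact le_of_mul_le_mul_left q2 hsin
    have k2 := Real.one_sub_sq_div_two_le_cos (x := X)
    have k3 := Real.sin_le hX0.le
    have k4 : |b| * (1 - X ^ 2 / 2) ≤ a * X :=
      (mul_le_mul_of_nonneg_left k2 (abs_nonneg b)).trans
        (k1.trans (mul_le_mul_of_nonneg_left k3 (by linarith)))
    have k5 : a ≤ R + 12 / 5 * |b| + 13 * ε / 150 := by linarith
    have k6 : a * X ≤ (R + 12 / 5 * |b| + 13 * ε / 150) * X := mul_le_mul_of_nonneg_right k5 hX0.le
    have k7 : |b| * X ≤ |b| * (1 / 100) := mul_le_mul_of_nonneg_left hX1 (abs_nonneg b)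
    have k8 : |b| * X ^ 2 ≤ |b| * (1 / 100) := by
      have : X ^ 2 ≤ 1 / 100 := by nlinarith
      exact mul_le_mul_of_nonneg_left this (abs_nonneg b)
    have k9 : 0 ≤ ε * X := by positivity
    have k10 : 0 ≤ R * X := by positivity
    nlinarith
  · right
    refine ⟨⟨by linarith [abs_nonneg b], by linarith [abs_nonneg b]⟩, ?_⟩
    have h5 : |b| < 22 * ε := by linarith
    exact abs_lt.mp h5

theorem area : S_AREA := by
  refine ⟨400, fun N hN ε R hε hR => ?_⟩
  have hNr : (400 : ℝ) ≤ N := by exact_mod_cast hN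
  have hNp : (0 : ℝ) < N := by linarith
  refine (measure_mono (ar_sub hN hε hR)).trans ?_
  refine (measure_biUnion_finset_le _ _).trans ?_
  set B : ℝ := 21 / 20 * (Real.pi * (R + ε) / N) with hB
  have hB0 : 0 ≤ B := by positivity
  calc ∑ j ∈ Finset.range N, volume (arRot N j ⁻¹' (arE1 ε R B ∪ arE2 ε R))
      ≤ ∑ _j ∈ Finset.range N, ENNReal.ofReal (2 * B * (13 * ε / 150) + 2288 * ε ^ 2) := by
        refine Finset.sum_le_sum fun j _ => ?_
        rw [arRot_vol]
        refine (measure_union_le _ _).trans ?_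
        rw [ENNReal.ofReal_add (by positivity) (by positivity)]
        exact add_le_add (arE1_vol hε) (arE2_vol hε).le
    _ = ENNReal.ofReal (N * (2 * B * (13 * ε / 150) + 2288 * ε ^ 2)) := by
        rw [Finset.sum_const, Finset.card_range, nsmul_eq_mul, ENNReal.ofReal_mul (by positivity),
          ENNReal.ofReal_natCast]
    _ ≤ ENNReal.ofReal (2 * Real.pi * (R + ε) * (ε / 10) + 2400 * N * ε ^ 2) := by
        refine ENNReal.ofReal_le_ofReal ?_
        have e1 : (N : ℝ) * B = 21 / 20 * (Real.pi * (R + ε)) := by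
          rw [hB]
          field_simp
        have e2 : 0 ≤ Real.pi * (R + ε) * ε := by positivity
        have e3 : (N : ℝ) * (2 * B * (13 * ε / 150) + 2288 * ε ^ 2) =
            (N * B) * (13 * ε / 75) + 2288 * (N * ε ^ 2) := by ring
        have e4 : 0 ≤ N * ε ^ 2 := by positivity
        rw [e3, e1]
        nlinarith

end Pool.Agent.W5h10.SI
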