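import Pool.Agent.W5h10.SI.Defs2
import Pool.Agent.W5h10.SI.Area

/-!
# Sharp interface limit: the area of the bad points, narrower wedges
-/

set_option autoImplicit false

open MeasureTheory Set Filter Topology ProbabilityTheory
open scoped ENNReal ContDiff

namespace Pool.Agent.W5h10.SI

/-- the neighbourhood of the tip -/
def arE3 (ε R : ℝ) : Set (ℝ × ℝ) := Ioo R (R + 22 * ε) ×ˢ Ioo (-(16 / 5 * ε)) (16 / 5 * ε)

theorem arE3_vol {ε R : ℝ} (hε : 0 < ε) :
    volume (arE3 ε R) ≤ ENNReal.ofReal (200 * ε ^ 2) := by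
  unfold arE3
  rw [Measure.volume_eq_prod, Measure.prod_prod, Real.volume_Ioo, Real.volume_Ioo,
    ← ENNReal.ofReal_mul (by linarith)]
  refine ENNReal.ofReal_le_ofReal ?_
  nlinarith [sq_nonneg ε]

theorem ar_exp2 {ε m M : ℝ} (hε : 0 < ε) (hm : 0 < m)
    (h : 79 / 100 < 3 / 4 * (Real.exp (-(m / (2 * ε))) + Real.exp (-(M / (2 * ε))))) :
    M < 6 * ε := by
  by_contra hcon
  push Not at hcon
  have e1 : Real.exp (-(m / (2 * ε))) ≤ 1 := by
    rw [Real.exp_le_one_iff]
    have : 0 < m / (2 * ε) := by positivity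
    linarith
  have e2 : Real.exp (-(M / (2 * ε))) ≤ 4 / 75 := by
    have k1 : (3 : ℝ) ≤ M / (2 * ε) := by
      rw [le_div_iff₀ (by positivity)]
      linarith
    have k2 : Real.exp (-(M / (2 * ε))) ≤ Real.exp (-3) := Real.exp_le_exp.mpr (by linarith)
    have k3 : (75 / 4 : ℝ) ≤ Real.exp 3 := by
      have k4 : (27 / 10 : ℝ) ≤ Real.exp 1 := by
        have := Real.exp_one_gt_d9
        linarith
      have k5 : Real.exp 3 = Real.exp 1 ^ 3 := by
        rw [← Real.exp_nat_mul]
        norm_num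
      rw [k5]
      calc (75 / 4 : ℝ) ≤ (27 / 10) ^ 3 := by norm_num
        _ ≤ Real.exp 1 ^ 3 := pow_le_pow_left₀ (by norm_num) k4 3
    refine k2.trans ?_
    rw [Real.exp_neg]
    refine inv_le_of_inv_le₀ (by norm_num) ?_
    norm_num at k3 ⊢
    linarith
  linarith

theorem ar_sub2 {N : ℕ} {ε R : ℝ} (hε : 0 < ε) :
    Bad2 N ε R ⊆ ⋃ j ∈ Finset.range N, arRot N j ⁻¹' arE3 ε R := by
  rintro ⟨x, y⟩ ⟨hD, hbad⟩
  simp only at hbad
  have hD' : ∃ j < N, 0 < e1 N j R x y ∧ 0 < e2 N j R x y := by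
    by_contra hcon
    push Not at hcon
    apply hD
    intro j hj
    by_cases h1 : 0 < e1 N j R x y
    · exact Or.inr (hcon j hj h1)
    · exact Or.inl (not_lt.mp h1)
  obtain ⟨j, hj, h1, h2⟩ := hD'
  have hbadj := hbad j hj h1 h2
  unfold e1 at h1
  unfold e2 at h2
  unfold e1 e2 at hbadj
  refine mem_iUnion₂.mpr ⟨j, Finset.mem_range.mpr hj, ?_⟩
  rw [mem_preimage, arRot_apply]
  simp only
  clear hbad hD
  generalize ca N j x y = a at *
  generalize cb N j x y = b at *
  have hcase : (7 * (a - R) + 24 * |b|) / 25 < 6 * ε := by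
    rcases le_total 0 b with hs | hs
    · rw [abs_of_nonneg hs]
      exact ar_exp2 hε h1 hbadj
    · rw [abs_of_nonpos hs]
      rw [add_comm (Real.exp _)] at hbadj
      have h4 := ar_exp2 hε h2 hbadj
      rw [show 7 * (a - R) + 24 * -b = 7 * (a - R) - 24 * b by ring]
      exact h4
  have hb : |b| < 7 / 24 * (a - R) := abs_lt.mpr ⟨by linarith, by linarith⟩
  refine ⟨⟨by linarith [abs_nonneg b], by linarith [abs_nonneg b]⟩, ?_⟩
  have h5 : |b| < 16 / 5 * ε := by linarith
  exact abs_lt.mp h5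

/-- (I2) -/
theorem area2 : S_AREA2 := by
  intro N ε R hε _
  refine (measure_mono (ar_sub2 hε)).trans ?_
  refine (measure_biUnion_finset_le _ _).trans ?_
  calc ∑ j ∈ Finset.range N, volume (arRot N j ⁻¹' arE3 ε R)
      ≤ ∑ _j ∈ Finset.range N, ENNReal.ofReal (200 * ε ^ 2) := by
        refine Finset.sum_le_sum fun j _ => ?_
        rw [arRot_vol]
        exact arE3_vol hε
    _ = ENNReal.ofReal (200 * N * ε ^ 2) := by
        rw [Finset.sum_const, Finset.card_range, nsmul_eq_mul, ← ENNReal.ofReal_natCast,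
          ← ENNReal.ofReal_mul (by positivity)]
        congr 1
        ring

end Pool.Agent.W5h10.SI
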