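import Pool.Agent.W5h10.SI.Defs

/-! (F): the random point stays in the shrinking disc with probability at least `85/100`. -/

set_option autoImplicit false

open MeasureTheory Set Filter Topology ProbabilityTheory
open scoped ENNReal NNReal

namespace Pool.Agent.W5h10.SI

lemma bl_tight (hb : IsProbabilityMeasure mu) : ∃ K : ℝ, 0 < K ∧
    mu {w : ST | K ≤ w.2.1 ^ 2 + w.2.2 ^ 2} ≤ ENNReal.ofReal (1 / 20) := by
  have hH : Measurable fun w : ST => w.2.1 ^ 2 + w.2.2 ^ 2 := by fun_prop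
  have h := tendsto_measure_iInter_atTop (μ := mu)
    (s := fun n : ℕ => {w : ST | (n : ℝ) ≤ w.2.1 ^ 2 + w.2.2 ^ 2})
    (fun n => (measurableSet_le measurable_const hH).nullMeasurableSet)
    (fun a b hab w hw => by
      have h1 : (b : ℝ) ≤ w.2.1 ^ 2 + w.2.2 ^ 2 := hw
      have h2 : (a : ℝ) ≤ b := by exact_mod_cast hab
      exact h2.trans h1) ⟨0, measure_ne_top _ _⟩
  have he : (⋂ n : ℕ, {w : ST | (n : ℝ) ≤ w.2.1 ^ 2 + w.2.2 ^ 2}) = ∅ := by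
    rw [eq_empty_iff_forall_notMem]
    intro w hw
    obtain ⟨n, hn⟩ := exists_nat_gt (w.2.1 ^ 2 + w.2.2 ^ 2)
    have h1 : (n : ℝ) ≤ w.2.1 ^ 2 + w.2.2 ^ 2 := mem_iInter.1 hw n
    linarith
  rw [he, measure_empty] at h
  have hpos : (0 : ℝ≥0∞) < ENNReal.ofReal (1 / 20) := by
    rw [ENNReal.ofReal_pos]
    norm_num
  obtain ⟨n, hn1, hn2⟩ := (((tendsto_order.1 h).2 _ hpos).and (eventually_gt_atTop 0)).exists
  exact ⟨n, by exact_mod_cast hn2, hn1.le⟩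

lemma bl_pos : mu {w : ST | w.1 ≤ 0} = 0 := by
  have h1 : ex (Iic 0) = 0 := by
    rw [ex, withDensity_apply _ measurableSet_Iic, Measure.restrict_restrict measurableSet_Iic]
    have : (Iic 0 ∩ Ioi 0 : Set ℝ) = ∅ := by
      ext y
      simp
    rw [this]
    simp
  have h2 : {w : ST | w.1 ≤ 0} ⊆ (Iic 0 : Set ℝ) ×ˢ (univ : Set (ℝ × ℝ)) := by
    intro w hw
    exact ⟨hw, mem_univ _⟩
  have hg : IsProbabilityMeasure ga := by
    unfold ga
    infer_instance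
  refine measure_mono_null h2 ?_
  rw [mu, Measure.prod_prod, h1, zero_mul]

lemma bl_fac : fac (8 / 3) = 9 / 10 := by
  have h : √((8 / 3 : ℝ) ^ 2 + 4) = 10 / 3 := by
    rw [show ((8 / 3 : ℝ) ^ 2 + 4) = (10 / 3) ^ 2 by norm_num]
    exact Real.sqrt_sq (by norm_num)
  unfold fac
  rw [h]
  norm_num

lemma bl_dir {R x y : ℝ} (hR : 0 < R) (hxy : x ^ 2 + y ^ 2 ≤ R ^ 2) : ∃ c s r : ℝ,
    c ^ 2 + s ^ 2 = 1 ∧ 0 ≤ r ∧ r ≤ R ∧ x = -(r * c) ∧ y = -(r * s) := by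
  rcases eq_or_ne (x ^ 2 + y ^ 2) 0 with h | h
  · have hx : x = 0 := by nlinarith [sq_nonneg x, sq_nonneg y]
    have hy : y = 0 := by nlinarith [sq_nonneg x, sq_nonneg y]
    exact ⟨1, 0, 0, by norm_num, le_rfl, hR.le, by rw [hx]; ring, by rw [hy]; ring⟩
  · have h0 : 0 < x ^ 2 + y ^ 2 := lt_of_le_of_ne (by positivity) (Ne.symm h)
    have hr : 0 < √(x ^ 2 + y ^ 2) := Real.sqrt_pos.2 h0
    have hr2 : √(x ^ 2 + y ^ 2) ^ 2 = x ^ 2 + y ^ 2 := Real.sq_sqrt h0.le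
    refine ⟨-x / √(x ^ 2 + y ^ 2), -y / √(x ^ 2 + y ^ 2), √(x ^ 2 + y ^ 2), ?_, hr.le, ?_, ?_, ?_⟩
    · rw [div_pow, div_pow, hr2, ← add_div, neg_sq, neg_sq, div_self h]
    · rw [Real.sqrt_le_left hR.le]
      exact hxy
    · field_simp
    · field_simp

/-- (F) -/
theorem ball (h : S_HALF) (hb : S_BASIC) : S_BALL := by
  have hp : IsProbabilityMeasure mu := hb.1
  obtain ⟨K, hK, hKm⟩ := bl_tight hp
  refine ⟨4 * K, by linarith, fun ε R hε hεR x y hxy => ?_⟩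
  have hR : 0 < R := lt_of_lt_of_le (by positivity) hεR
  obtain ⟨c, s, r, hcs, hr0, hrR, hx, hy⟩ := bl_dir hR hxy
  have hE := h (8 / 3) 0 c s hcs le_rfl
  rw [mul_zero, neg_zero, Real.exp_zero, mul_one, bl_fac] at hE
  have hsub : {w : ST | 0 ≤ 8 / 3 * w.1 + √(2 * w.1) * (c * w.2.1 + s * w.2.2)} ⊆
      {w : ST | (x + ε * √(2 * w.1) * w.2.1) ^ 2 + (y + ε * √(2 * w.1) * w.2.2) ^ 2 <
        (R + 39 / 10 * ε * w.1) ^ 2} ∪ ({w : ST | K ≤ w.2.1 ^ 2 + w.2.2 ^ 2} ∪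
        {w : ST | w.1 ≤ 0}) := by
    intro w hw
    have hw1 : 0 ≤ 8 / 3 * w.1 + √(2 * w.1) * (c * w.2.1 + s * w.2.2) := hw
    by_cases h1 : w.1 ≤ 0
    · exact Or.inr (Or.inr h1)
    by_cases h2 : K ≤ w.2.1 ^ 2 + w.2.2 ^ 2
    · exact Or.inr (Or.inl h2)
    left
    push Not at h1 h2
    have hq : √(2 * w.1) ^ 2 = 2 * w.1 := Real.sq_sqrt (by linarith)
    show (x + ε * √(2 * w.1) * w.2.1) ^ 2 + (y + ε * √(2 * w.1) * w.2.2) ^ 2 <
      (R + 39 / 10 * ε * w.1) ^ 2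
    set q := √(2 * w.1) with hqd
    set σ := w.1 with hσ
    set a := w.2.1
    set b := w.2.2
    have e1 : (x + ε * q * a) ^ 2 + (y + ε * q * b) ^ 2 =
        r ^ 2 * (c ^ 2 + s ^ 2) - 2 * ε * r * (q * (c * a + s * b)) +
          ε ^ 2 * q ^ 2 * (a ^ 2 + b ^ 2) := by
      rw [hx, hy]
      ring
    rw [e1, hcs, hq]
    have e2 : -(2 * ε * r * (q * (c * a + s * b))) ≤ 2 * ε * r * (8 / 3 * σ) := by
      have : 0 ≤ 2 * ε * r := by positivity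
      nlinarith
    have e3 : ε ^ 2 * (2 * σ) * (a ^ 2 + b ^ 2) ≤ ε * σ * (R / 2) := by
      have h3 : ε * (a ^ 2 + b ^ 2) ≤ R / 4 := by
        have : ε * (a ^ 2 + b ^ 2) ≤ ε * K := by gcongr
        linarith
      have h4 : 0 ≤ 2 * (ε * σ) := by positivity
      nlinarith
    have e4 : r ^ 2 ≤ R ^ 2 := by gcongr
    have e5 : 2 * ε * r * (8 / 3 * σ) ≤ 2 * ε * R * (8 / 3 * σ) := by gcongr
    have e6 : 0 < ε * σ * R := by positivity
    have e7 : 0 ≤ (39 / 10 * ε * σ) ^ 2 := by positivity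
    nlinarith
  have hle := (measure_mono (μ := mu) hsub).trans ((measure_union_le (μ := mu) _ _).trans
    (add_le_add le_rfl (measure_union_le (μ := mu) _ _)))
  rw [bl_pos, add_zero, hE] at hle
  have h3 := hle.trans (add_le_add le_rfl hKm)
  have h4 : ENNReal.ofReal (85 / 100) = ENNReal.ofReal (9 / 10) - ENNReal.ofReal (1 / 20) := by
    rw [← ENNReal.ofReal_sub _ (by norm_num)]
    norm_num
  rw [h4]
  exact tsub_le_iff_right.2 h3

end Pool.Agent.W5h10.SI
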