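import Pool.Agent.W5h10.SI.Defs

/-! (BASIC): measurability, bounds and monotonicity of the average. -/

set_option autoImplicit false

open MeasureTheory Set Filter Topology ProbabilityTheory
open scoped ENNReal ContDiff

namespace Pool.Agent.W5h10.SI

theorem ba_ex : IsProbabilityMeasure ex := by
  constructor
  unfold ex
  rw [withDensity_apply _ MeasurableSet.univ, Measure.restrict_univ]
  have h1 : IntegrableOn (fun s : ℝ => Real.exp (-s)) (Ioi 0) := by
    simpa using integrableOn_exp_neg_Ioi 0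
  rw [← ofReal_integral_eq_lintegral_ofReal h1 (ae_of_all _ fun s => (Real.exp_pos _).le),
    integral_exp_neg_Ioi_zero]
  simp

theorem ba_mu : IsProbabilityMeasure mu := by
  have := ba_ex
  unfold mu ga
  infer_instance

theorem ba_pt (ε : ℝ) : Measurable fun z : ST × ST => pt ε z.1 z.2 := by
  unfold pt
  fun_prop

theorem ba_meas (ε : ℝ) (g : ST → ℝ) (hg : Measurable g) : Measurable (S ε g) := by
  have := ba_mu
  unfold S
  have h : Measurable (fun z : ST × ST => g (pt ε z.1 z.2)) := hg.comp (ba_pt ε)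
  exact (StronglyMeasurable.integral_prod_right' (ν := mu) h.stronglyMeasurable).measurable

theorem ba_bd (ε : ℝ) (g : ST → ℝ) (hg : ∀ p, 0 ≤ g p ∧ g p ≤ 1) (p : ST) :
    0 ≤ S ε g p ∧ S ε g p ≤ 1 := by
  have := ba_mu
  unfold S
  refine ⟨integral_nonneg fun w => (hg _).1, ?_⟩
  have h := integral_mono_of_nonneg (μ := mu) (f := fun w => g (pt ε p w)) (g := fun _ => (1 : ℝ))
    (ae_of_all _ fun w => (hg _).1) (integrable_const _) (ae_of_all _ fun w => (hg _).2)
  simpa using h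

theorem ba_int (ε : ℝ) (g : ST → ℝ) (hm : Measurable g) (hg : ∀ p, 0 ≤ g p ∧ g p ≤ 1) (p : ST) :
    Integrable (fun w => g (pt ε p w)) mu := by
  have := ba_mu
  refine Integrable.of_bound ((hm.comp ((ba_pt ε).comp
    (measurable_const.prodMk measurable_id))).aestronglyMeasurable) 1 (ae_of_all _ fun w => ?_)
  rw [Real.norm_eq_abs, abs_of_nonneg]
  · exact (hg _).2
  · exact (hg _).1

theorem ba_pos : ∀ᵐ w ∂mu, (0 : ℝ) < w.1 := by
  have := ba_ex
  have h1 : ∀ᵐ s ∂ex, (0 : ℝ) < s := by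
    have h2 : ∀ᵐ s ∂(volume.restrict (Ioi (0 : ℝ))), (0 : ℝ) < s := by
      filter_upwards [self_mem_ae_restrict measurableSet_Ioi] with s hs using hs
    exact (withDensity_absolutelyContinuous _ _).ae_le h2
  exact Measure.quasiMeasurePreserving_fst.ae h1

theorem ba_mono (ε : ℝ) (g g' : ST → ℝ) (hm' : Measurable g')
    (hg : ∀ p, 0 ≤ g p ∧ g p ≤ 1) (hg' : ∀ p, 0 ≤ g' p ∧ g' p ≤ 1) (p : ST)
    (h : ∀ q : ST, q.1 ≤ p.1 → g q ≤ g' q) (hε : 0 ≤ ε) : S ε g p ≤ S ε g' p := by
  unfold S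
  refine integral_mono_of_nonneg (ae_of_all _ fun w => (hg _).1) (ba_int ε g' hm' hg' p) ?_
  filter_upwards [ba_pos] with w hw
  apply h
  have : 0 ≤ ε * w.1 := mul_nonneg hε hw.le
  simp only [pt]
  linarith

theorem basic : S_BASIC :=
  ⟨ba_mu, ba_meas, ba_bd, fun ε g g' _ hm' hg hg' p h hε => ba_mono ε g g' hm' hg hg' p h hε⟩

end Pool.Agent.W5h10.SI
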