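import Pool.Agent.W5h10.SI.Defs

/-!
# (C) the average of a bounded measurable function is continuous
-/

set_option autoImplicit false

open MeasureTheory Set Filter Topology ProbabilityTheory
open scoped ENNReal ContDiff Convolution

namespace Pool.Agent.W5h10.SI

namespace CT

lemma ex_ac : ex ≪ volume :=
  (withDensity_absolutelyContinuous _ _).trans Measure.restrict_le_self.absolutelyContinuous

lemma ex_Ioi : ∀ᵐ s ∂ex, 0 < s := by
  have h : ∀ᵐ s ∂(volume.restrict (Ioi (0 : ℝ))), 0 < s := by
    filter_upwards [ae_restrict_mem measurableSet_Ioi] with s hs using hs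
  exact (withDensity_absolutelyContinuous _ _).ae_le h

instance : SFinite ex := by unfold ex; infer_instance

lemma ex_univ : ex univ = 1 := by
  unfold ex
  rw [withDensity_apply _ MeasurableSet.univ, Measure.restrict_univ]
  rw [← ofReal_integral_eq_lintegral_ofReal]
  · rw [integral_exp_neg_Ioi]; simp
  · exact (integrableOn_exp_neg_Ioi 0)
  · exact Eventually.of_forall fun s => (Real.exp_pos _).le

instance : IsProbabilityMeasure ex := ⟨ex_univ⟩

instance : IsProbabilityMeasure ga := by unfold ga; infer_instance

instance : IsProbabilityMeasure mu := by unfold mu; infer_instance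

lemma vol_prod : (volume : Measure ST) = (volume : Measure ℝ).prod (volume : Measure (ℝ × ℝ)) := rfl

instance volHaar : (volume : Measure ST).IsAddHaarMeasure := by
  rw [vol_prod]; infer_instance

instance volSF : SigmaFinite (volume : Measure ST) := by
  rw [vol_prod]; infer_instance

instance volLI : (volume : Measure ST).IsAddLeftInvariant := by
  rw [vol_prod]; infer_instance

instance volNeg : (volume : Measure ST).IsNegInvariant :=
  Measure.IsAddHaarMeasure.isNegInvariant_of_regular _

lemma ga_ac : ga ≪ volume := gaussianReal_absolutelyContinuous 0 (by norm_num)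

/-- the increment -/
noncomputable def inc (ε : ℝ) (w : ST) : ST :=
  (-(ε * w.1), ε * √(2 * w.1) * w.2.1, ε * √(2 * w.1) * w.2.2)

lemma pt_eq (ε : ℝ) (p w : ST) : pt ε p w = p + inc ε w := by
  simp only [pt, inc]
  refine Prod.ext ?_ (Prod.ext ?_ ?_)
  · simp [sub_eq_add_neg]
  · simp
  · simp

lemma inc_meas (ε : ℝ) : Measurable (inc ε) := by
  unfold inc
  fun_prop

/-- the law of the increment has a density -/
lemma law_ac {ε : ℝ} (hε : 0 < ε) : mu.map (inc ε) ≪ volume := by
  refine Measure.AbsolutelyContinuous.mk fun N hN h0 => ?_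
  rw [Measure.map_apply (inc_meas ε) hN]
  have hm : MeasurableSet (inc ε ⁻¹' N) := inc_meas ε hN
  -- slices of `N`
  have h1 : ∀ᵐ τ : ℝ, (volume : Measure (ℝ × ℝ)) (Prod.mk τ ⁻¹' N) = 0 := by
    have := (Measure.measure_prod_null (μ := (volume : Measure ℝ))
      (ν := (volume : Measure (ℝ × ℝ))) hN).1 h0
    exact this
  have q : Measure.QuasiMeasurePreserving (fun s : ℝ => -(ε * s)) volume volume := by
    have : Measure.QuasiMeasurePreserving (fun s : ℝ => (-ε) * s) volume volume := by
      refine ⟨by fun_prop, ?_⟩
      have := Real.map_volume_mul_left (a := -ε) (by linarith)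
      rw [this]
      exact Measure.smul_absolutelyContinuous
    have e : (fun s : ℝ => -(ε * s)) = fun s : ℝ => (-ε) * s := by funext s; ring
    rw [e]; exact this
  have h2 : ∀ᵐ s ∂ex, (volume : Measure (ℝ × ℝ)) (Prod.mk (-(ε * s)) ⁻¹' N) = 0 :=
    ex_ac.ae_le (q.ae h1)
  unfold mu at *
  rw [Measure.measure_prod_null hm]
  filter_upwards [h2, ex_Ioi] with s hs hs0
  have hc : ε * √(2 * s) ≠ 0 := by positivity
  set c := ε * √(2 * s) with hcdef
  have q2 : Measure.QuasiMeasurePreserving (fun z : ℝ × ℝ => (c * z.1, c * z.2))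
      (volume : Measure (ℝ × ℝ)) (volume : Measure (ℝ × ℝ)) := by
    have q1 : Measure.QuasiMeasurePreserving (fun z : ℝ => c * z) volume volume := by
      refine ⟨by fun_prop, ?_⟩
      rw [Real.map_volume_mul_left hc]
      exact Measure.smul_absolutelyContinuous
    exact MeasureTheory.QuasiMeasurePreserving.prodMap q1 q1
  have h3 : (volume : Measure (ℝ × ℝ)) ((fun z : ℝ × ℝ => (c * z.1, c * z.2)) ⁻¹'
      (Prod.mk (-(ε * s)) ⁻¹' N)) = 0 := q2.preimage_null hs
  have h4 : ga.prod ga ≪ (volume : Measure (ℝ × ℝ)) := ga_ac.prod ga_ac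
  exact h4 h3

end CT

theorem cont : S_CONT := by
  intro ε hε g hg hb
  set ν : Measure ST := mu.map (CT.inc ε) with hν
  have hac : ν ≪ volume := CT.law_ac hε
  have : IsProbabilityMeasure ν :=
    Measure.isProbabilityMeasure_map (CT.inc_meas ε).aemeasurable
  set k : ST → ℝ := fun v => (ν.rnDeriv volume v).toReal with hk
  have hki : Integrable k volume := Measure.integrable_toReal_rnDeriv
  have e1 : ∀ p, S ε g p = ∫ v, k v * g (p + v) := by
    intro p
    have : S ε g p = ∫ v, g (p + v) ∂ν := by
      rw [hν, integral_map (CT.inc_meas ε).aemeasurable]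
      · simp only [S, CT.pt_eq]
      · exact (hg.comp (measurable_const_add p)).aestronglyMeasurable
    rw [this, ← integral_rnDeriv_smul hac]
    simp [hk, smul_eq_mul]
  have hgb : ∀ p, |g p| ≤ 1 := fun p => by
    rw [abs_le]; constructor <;> linarith [(hb p).1, (hb p).2]
  have hgl : LocallyIntegrable g volume := by
    have : LocallyIntegrable (fun _ : ST => (1 : ℝ)) volume := locallyIntegrable_const 1
    refine this.mono hg.aestronglyMeasurable (Eventually.of_forall fun p => ?_)
    simpa using hgb p
  -- approximation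
  rw [continuous_iff_continuousAt]
  intro p0
  rw [Metric.continuousAt_iff']
  intro e he
  obtain ⟨k', hk'c, hk'e, hk'cont, hk'i⟩ :=
    hki.exists_hasCompactSupport_integral_sub_le (ε := e / 4) (by positivity)
  have hint : ∀ (f : ST → ℝ), Integrable f volume → ∀ p,
      Integrable (fun v => f v * g (p + v)) volume := by
    intro f hf p
    refine hf.mul_bdd (c := 1) ?_ ?_
    · exact (hg.comp (measurable_const_add p)).aestronglyMeasurable
    · exact Eventually.of_forall fun v => by simpa using hgb (p + v)
  have hclose : ∀ p, |S ε g p - ∫ v, k' v * g (p + v)| ≤ e / 4 := by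
    intro p
    rw [e1, ← integral_sub (hint k hki p) (hint k' hk'i p), ← Real.norm_eq_abs]
    refine (norm_integral_le_integral_norm _).trans (le_trans ?_ hk'e)
    refine integral_mono_of_nonneg (Eventually.of_forall fun v => norm_nonneg _)
      (hki.sub hk'i).norm (Eventually.of_forall fun v => ?_)
    simp only [Real.norm_eq_abs]
    rw [← sub_mul, abs_mul]
    calc |k v - k' v| * |g (p + v)| ≤ |k v - k' v| * 1 :=
          mul_le_mul_of_nonneg_left (hgb _) (abs_nonneg _)
      _ = _ := mul_one _
  have hcont : Continuous fun p => ∫ v, k' v * g (p + v) := by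
    have hc := (hk'c.comp_homeomorph (Homeomorph.neg ST)).continuous_convolution_left
      (L := ContinuousLinearMap.mul ℝ ℝ) (μ := (volume : Measure ST))
      (hk'cont.comp (Homeomorph.neg ST).continuous) hgl
    refine hc.congr fun p => ?_
    rw [convolution_def]
    rw [← integral_neg_eq_self]
    simp
  have h2 : ∀ᶠ p in 𝓝 p0, |(∫ v, k' v * g (p + v)) - ∫ v, k' v * g (p0 + v)| < e / 4 := by
    have := Metric.continuousAt_iff'.1 (hcont.continuousAt (x := p0)) (e / 4) (by positivity)
    simpa [Real.dist_eq] using this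
  filter_upwards [h2] with p hp
  rw [Real.dist_eq]
  have a1 := hclose p
  have a2 := hclose p0
  rw [abs_le] at a1 a2
  rw [abs_lt] at hp ⊢
  constructor <;> linarith [a1.1, a1.2, a2.1, a2.2, hp.1, hp.2]

end Pool.Agent.W5h10.SI
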