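import Mathlib
import Pool.Agent.W5h10.SI.Defs

/-! # The lower bound for the effort (task M) -/

set_option autoImplicit false

open MeasureTheory Set Filter Topology
open scoped ENNReal ContDiff

namespace Pool.Agent.W5h10.SI

namespace EffH

theorem exists_last {U : ℝ → ℝ} (hc : Continuous U) {a : ℝ} (hbot : Tendsto U atBot (𝓝 0))
    (htop : Tendsto U atTop (𝓝 1)) (ha : 0 < a) (ha1 : a < 1) :
    ∃ x₀, U x₀ = a ∧ ∀ x, x₀ ≤ x → a ≤ U x := by
  set T : Set ℝ := {x | U x ≤ a} with hT
  have hne : T.Nonempty := by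
    obtain ⟨x, hx⟩ := (hbot.eventually (gt_mem_nhds ha)).exists
    exact ⟨x, le_of_lt hx⟩
  have hbd : BddAbove T := by
    obtain ⟨M, hM⟩ := eventually_atTop.1 (htop.eventually (lt_mem_nhds ha1))
    refine ⟨M, fun x hx => ?_⟩
    by_contra h
    push Not at h
    exact absurd (hM x h.le) (not_lt.2 hx)
  have hcl : IsClosed T := isClosed_le hc continuous_const
  have hmem : sSup T ∈ T := hcl.csSup_mem hne hbd
  have hgt : ∀ x, sSup T < x → a < U x := fun x hx => by
    by_contra h
    push Not at h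
    exact absurd (le_csSup hbd h) (not_le.2 hx)
  have hge : a ≤ U (sSup T) := by
    have h1 : Tendsto U (𝓝[>] (sSup T)) (𝓝 (U (sSup T))) := hc.continuousWithinAt
    refine ge_of_tendsto h1 ?_
    filter_upwards [self_mem_nhdsWithin] with x hx using (hgt x hx).le
  refine ⟨sSup T, le_antisymm hmem hge, fun x hx => ?_⟩
  rcases hx.eq_or_lt with h | h
  · rw [← h]; exact hge
  · exact (hgt x h).le

theorem ac_le {F w : ℝ → ℝ} {x y : ℝ} (hxy : x ≤ y) (hF : AbsolutelyContinuousOnInterval F x y)
    (hw : IntervalIntegrable w volume x y)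
    (h : ∀ᵐ z, z ∈ Icc x y → ∃ d, HasDerivAt F d z ∧ d ≤ w z) :
    F y - F x ≤ ∫ s in x..y, w s := by
  rw [← hF.integral_deriv_eq_sub]
  refine intervalIntegral.integral_mono_ae_restrict hxy hF.intervalIntegrable_deriv hw ?_
  refine (ae_restrict_iff' measurableSet_Icc).2 ?_
  filter_upwards [h] with z hz hzI
  obtain ⟨d, hd, hdw⟩ := hz hzI
  rw [hd.deriv]
  exact hdw

/-- a sequence of points going to `±∞` along which the derivative tends to zero -/
theorem exists_seq_top {U : ℝ → ℝ} (hd : Differentiable ℝ U) {l : ℝ}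
    (h : Tendsto U atTop (𝓝 l)) :
    ∃ y : ℕ → ℝ, Tendsto y atTop atTop ∧ Tendsto (fun n => deriv U (y n)) atTop (𝓝 0) := by
  have h1 : ∀ n : ℕ, ∃ z, (n:ℝ) < z ∧ deriv U z = U (n + 1) - U n := by
    intro n
    obtain ⟨z, hz, hz'⟩ := exists_deriv_eq_slope U (show (n:ℝ) < n + 1 by linarith)
      hd.continuous.continuousOn hd.differentiableOn
    refine ⟨z, hz.1, ?_⟩
    rw [hz']
    ring
  choose y hy1 hy2 using h1
  refine ⟨y, tendsto_atTop_mono (fun n => (hy1 n).le) tendsto_natCast_atTop_atTop, ?_⟩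
  have h2 : Tendsto (fun n : ℕ => U ((n:ℝ) + 1)) atTop (𝓝 l) :=
    h.comp (tendsto_atTop_add_const_right _ _ tendsto_natCast_atTop_atTop)
  have h3 : Tendsto (fun n : ℕ => U (n:ℝ)) atTop (𝓝 l) := h.comp tendsto_natCast_atTop_atTop
  have h4 := h2.sub h3
  rw [sub_self] at h4
  exact h4.congr fun n => (hy2 n).symm

theorem exists_seq_bot {U : ℝ → ℝ} (hd : Differentiable ℝ U) {l : ℝ}
    (h : Tendsto U atBot (𝓝 l)) :
    ∃ y : ℕ → ℝ, Tendsto y atTop atBot ∧ Tendsto (fun n => deriv U (y n)) atTop (𝓝 0) := by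
  have hd' : Differentiable ℝ (fun x => U (-x)) := hd.comp differentiable_neg
  obtain ⟨y, hy, hy'⟩ := exists_seq_top (U := fun x => U (-x)) hd'
    (h.comp tendsto_neg_atTop_atBot)
  refine ⟨fun n => -y n, tendsto_neg_atTop_atBot.comp hy, ?_⟩
  have h1 : ∀ z, deriv (fun x => U (-x)) z = -deriv U (-z) := fun z => deriv_comp_neg U z
  have h2 := hy'.neg
  rw [neg_zero] at h2
  refine h2.congr fun n => ?_
  show -deriv (fun x => U (-x)) (y n) = deriv U (-y n)
  rw [h1, neg_neg]

section

variable {f : ℝ → ℝ} {a b : ℝ} {α U : ℝ → ℝ}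

theorem h_int (hf : Continuous f) (hW : Wave f b α U) (x y : ℝ) :
    IntervalIntegrable (fun s => α s * U s - b * deriv U s - f (U s)) volume x y :=
  ((hW.int x y).sub ((continuous_const.mul hW.cont).intervalIntegrable x y)).sub
    ((hf.comp hW.diff.continuous).intervalIntegrable x y)

theorem p_eq (hW : Wave f b α U) (x : ℝ) : deriv U = fun z => deriv U x +
    ∫ s in x..z, (α s * U s - b * deriv U s - f (U s)) := by
  funext z
  rw [← hW.eq x z]
  ring

theorem p_ac (hf : Continuous f) (hW : Wave f b α U) (x y : ℝ) :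
    AbsolutelyContinuousOnInterval (deriv U) x y := by
  rw [p_eq hW x]
  refine AbsolutelyContinuousOnInterval.fun_add ?_
    ((h_int hf hW x y).absolutelyContinuousOnInterval_intervalIntegral left_mem_uIcc)
  exact (contDiff_const.contDiffOn).absolutelyContinuousOnInterval

theorem p_deriv (hf : Continuous f) (hW : Wave f b α U) (x y : ℝ) :
    ∀ᵐ z, z ∈ uIcc x y → HasDerivAt (deriv U) (α z * U z - b * deriv U z - f (U z)) z := by
  filter_upwards [(h_int hf hW x y).ae_hasDerivAt_integral] with z hz hzI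
  have h1 := (hz hzI x left_mem_uIcc).const_add (deriv U x)
  have h2 := p_eq hW x
  rw [← h2] at h1
  exact h1

theorem U_c1 (hW : Wave f b α U) : ContDiff ℝ 1 U :=
  contDiff_one_iff_deriv.2 ⟨hW.diff, hW.cont⟩

/-- the estimate on the left -/
theorem left_est (hf : Continuous f) (hW : Wave f b α U) (ha : 0 < a) (hb : 0 < b)
    (h1 : ∀ u, 0 ≤ u → u ≤ a → -u ≤ f u) (h2 : ∀ u, a ≤ u → u ≤ 1 → 0 ≤ f u)
    (hα : Integrable α) {x y : ℝ} (hxy : x ≤ y) :
    deriv U y ≤ |deriv U x| + (∫ s in x..y, α s) + a / b := by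
  have hac : AbsolutelyContinuousOnInterval (fun z => deriv U z * Real.exp (b * z)) x y := by
    refine (p_ac hf hW x y).fun_mul ?_
    exact (ContDiff.contDiffOn (by fun_prop)).absolutelyContinuousOnInterval
  have hwi : IntervalIntegrable (fun z => α z * Real.exp (b * y) + a * Real.exp (b * z))
      volume x y := by
    refine (hα.intervalIntegrable.mul_const _).add ?_
    exact Continuous.intervalIntegrable (by fun_prop) x y
  have hmain := ac_le hxy hac hwi ?_
  · have e1 : ∫ z in x..y, (α z * Real.exp (b * y) + a * Real.exp (b * z)) =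
        (∫ s in x..y, α s) * Real.exp (b * y) + a / b * (Real.exp (b * y) - Real.exp (b * x)) := by
      rw [intervalIntegral.integral_add (hα.intervalIntegrable.mul_const _)
        (Continuous.intervalIntegrable (by fun_prop) x y),
        intervalIntegral.integral_mul_const, intervalIntegral.integral_const_mul]
      congr 1
      rw [intervalIntegral.integral_comp_mul_left (fun z => Real.exp z) hb.ne', integral_exp,
        smul_eq_mul]
      field_simp
    rw [e1] at hmain
    have hy := Real.exp_pos (b * y)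
    have hx := Real.exp_pos (b * x)
    have hxy' : Real.exp (b * x) ≤ Real.exp (b * y) :=
      Real.exp_le_exp.2 (mul_le_mul_of_nonneg_left hxy hb.le)
    have h3 : deriv U x * Real.exp (b * x) ≤ |deriv U x| * Real.exp (b * y) :=
      (mul_le_mul_of_nonneg_right (le_abs_self _) hx.le).trans
        (mul_le_mul_of_nonneg_left hxy' (abs_nonneg _))
    have h4 : 0 < a / b * Real.exp (b * x) := by positivity
    have h5 : deriv U y * Real.exp (b * y) ≤
        (|deriv U x| + (∫ s in x..y, α s) + a / b) * Real.exp (b * y) := by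
      nlinarith
    exact le_of_mul_le_mul_right h5 hy
  · filter_upwards [p_deriv hf hW x y] with z hz hzI
    rw [uIcc_of_le hxy] at hz
    have hd := hz hzI
    have he : HasDerivAt (fun z => Real.exp (b * z)) (Real.exp (b * z) * (b * 1)) z :=
      ((hasDerivAt_id z).const_mul b).exp
    refine ⟨_, hd.mul he, ?_⟩
    have hU := hW.range z
    have hfz : -f (U z) ≤ a := by
      rcases le_total (U z) a with h | h
      · have := h1 (U z) hU.1 h
        linarith
      · have := h2 (U z) h hU.2
        linarith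
    have hαU : α z * U z ≤ α z := mul_le_of_le_one_right (hW.nonneg z) hU.2
    have hez := Real.exp_pos (b * z)
    have hzy : Real.exp (b * z) ≤ Real.exp (b * y) :=
      Real.exp_le_exp.2 (mul_le_mul_of_nonneg_left hzI.2 hb.le)
    have h3 : α z * Real.exp (b * z) ≤ α z * Real.exp (b * y) :=
      mul_le_mul_of_nonneg_left hzy (hW.nonneg z)
    have h4 : (α z * U z - f (U z)) * Real.exp (b * z) ≤ (α z + a) * Real.exp (b * z) :=
      mul_le_mul_of_nonneg_right (by linarith) hez.le
    nlinarith

/-- the estimate on the right -/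
theorem right_est (hf : Continuous f) (hW : Wave f b α U) (ha : 0 < a)
    (h2 : ∀ u, a ≤ u → u ≤ 1 → 0 ≤ f u) (hα : Integrable α) {x y : ℝ} (hxy : x ≤ y)
    (hx : U x = a) (hxa : ∀ z, x ≤ z → a ≤ U z) :
    deriv U y / U y + b * Real.log (U y) - (deriv U x / a + b * Real.log a) ≤
      ∫ s in x..y, α s := by
  have hne : ∀ z ∈ uIcc x y, U z ≠ 0 := fun z hz => by
    rw [uIcc_of_le hxy] at hz
    exact (ha.trans_le (hxa z hz.1)).ne'
  have hac : AbsolutelyContinuousOnInterval
      (fun z => deriv U z * (U z)⁻¹ + b * Real.log (U z)) x y := by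
    refine AbsolutelyContinuousOnInterval.fun_add ((p_ac hf hW x y).fun_mul ?_) ?_
    · exact ((U_c1 hW).contDiffOn.inv hne).absolutelyContinuousOnInterval
    · exact (contDiffOn_const.mul
        ((U_c1 hW).contDiffOn.log hne)).absolutelyContinuousOnInterval
  have hmain := ac_le hxy hac hα.intervalIntegrable ?_
  · simp only [hx] at hmain
    rw [div_eq_mul_inv, div_eq_mul_inv]
    exact hmain
  · filter_upwards [p_deriv hf hW x y] with z hz hzI
    rw [uIcc_of_le hxy] at hz hne
    have hd := hz hzI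
    have hUz : 0 < U z := ha.trans_le (hxa z hzI.1)
    have hU : HasDerivAt U (deriv U z) z := (hW.diff z).hasDerivAt
    refine ⟨_, (hd.mul (hU.inv hUz.ne')).add ((hU.log hUz.ne').const_mul b), ?_⟩
    have hfz : 0 ≤ f (U z) := h2 _ (hxa z hzI.1) (hW.range z).2
    have e : (α z * U z - b * deriv U z - f (U z)) * (U z)⁻¹ + deriv U z * (-deriv U z / U z ^ 2) +
        b * (deriv U z / U z) = α z - f (U z) / U z - (deriv U z / U z) ^ 2 := by
      field_simp
      ring
    have h3 : 0 ≤ f (U z) / U z := div_nonneg hfz hUz.le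
    have h4 := sq_nonneg (deriv U z / U z)
    refine le_trans (le_of_eq e) ?_
    linarith

end

end EffH

open EffH in
theorem eff : S_EFF := by
  intro f a b hf ha ha1 hb h1 h2 α U hW
  by_cases htop : ∫⁻ x, ENNReal.ofReal (α x) = ⊤
  · rw [htop]
    exact le_top
  have hα : Integrable α := by
    refine ⟨hW.meas.aestronglyMeasurable, ?_⟩
    rw [hasFiniteIntegral_iff_ofReal (Eventually.of_forall hW.nonneg)]
    exact lt_top_iff_ne_top.2 htop
  rw [← ofReal_integral_eq_lintegral_ofReal hα (Eventually.of_forall hW.nonneg)]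
  refine ENNReal.ofReal_le_ofReal ?_
  obtain ⟨x₀, hx₀, hx₀a⟩ := exists_last hW.diff.continuous hW.bot hW.top ha ha1
  obtain ⟨xs, hxs, hxs'⟩ := exists_seq_bot hW.diff hW.bot
  obtain ⟨ys, hys, hys'⟩ := exists_seq_top hW.diff hW.top
  have hUy : Tendsto (fun n => U (ys n)) atTop (𝓝 1) := hW.top.comp hys
  have hlim : Tendsto (fun n => a * (deriv U (ys n) / U (ys n) + b * Real.log (U (ys n)) -
      b * Real.log a) - |deriv U (xs n)| - a / b) atTop
      (𝓝 (a * (0 / 1 + b * Real.log 1 - b * Real.log a) - |0| - a / b)) := by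
    refine Tendsto.sub (Tendsto.sub (Tendsto.const_mul a (Tendsto.sub_const (Tendsto.add
      (hys'.div hUy one_ne_zero) (Tendsto.const_mul b (hUy.log one_ne_zero))) _)) hxs'.abs)
      tendsto_const_nhds
  have e : a * (0 / 1 + b * Real.log 1 - b * Real.log a) - |0| - a / b =
      a * b * Real.log (1 / a) - a / b := by
    rw [Real.log_one, one_div, Real.log_inv, abs_zero]
    ring
  rw [e] at hlim
  refine le_of_tendsto hlim ?_
  filter_upwards [hxs.eventually (eventually_le_atBot x₀), hys.eventually (eventually_ge_atTop x₀)]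
    with n hn1 hn2
  have k1 := left_est hf hW ha hb h1 h2 hα hn1
  have k2 := right_est hf hW ha h2 hα hn2 hx₀ hx₀a
  have k3 : (∫ s in xs n..ys n, α s) ≤ ∫ s, α s := by
    rw [intervalIntegral.integral_of_le (hn1.trans hn2)]
    exact setIntegral_le_integral hα (Eventually.of_forall hW.nonneg)
  have k4 : (∫ s in xs n..x₀, α s) + (∫ s in x₀..ys n, α s) = ∫ s in xs n..ys n, α s :=
    intervalIntegral.integral_add_adjacent_intervals hα.intervalIntegrable hα.intervalIntegrable
  have k5 : 0 ≤ ∫ s in x₀..ys n, α s :=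
    intervalIntegral.integral_nonneg hn2 fun z _ => hW.nonneg z
  have k6 : a * (deriv U (ys n) / U (ys n) + b * Real.log (U (ys n)) - b * Real.log a) ≤
      a * (∫ s in x₀..ys n, α s) + deriv U x₀ := by
    have h3 : deriv U (ys n) / U (ys n) + b * Real.log (U (ys n)) - b * Real.log a ≤
        (∫ s in x₀..ys n, α s) + deriv U x₀ / a := by linarith
    have h4 := mul_le_mul_of_nonneg_left h3 ha.le
    have h5 : a * ((∫ s in x₀..ys n, α s) + deriv U x₀ / a) =
        a * (∫ s in x₀..ys n, α s) + deriv U x₀ := by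
      field_simp
    rwa [h5] at h4
  have k7 : a * (∫ s in x₀..ys n, α s) ≤ ∫ s in x₀..ys n, α s :=
    mul_le_of_le_one_left k5 ha1.le
  linarith

end Pool.Agent.W5h10.SI
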