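import Pool.Agent.W5h10.SI.Assem

/-!
# The effort is finite
-/

set_option autoImplicit false

open MeasureTheory Set Filter Topology ProbabilityTheory
open scoped ENNReal ContDiff

namespace Pool.Agent.W5h10.SI

namespace Fin

/-- the data of the explicit wave -/
structure Dat (b r l m : ℝ) : Prop where
  r0 : 0 < r
  l0 : 0 < l
  m0 : 0 < m
  lm : l * m = 1
  sub : m - l = b
  add : l + m = r

theorem dat : ∃ r l m : ℝ, Dat (39 / 10) r l m ∧ 85 / 100 * r ≤ m := by
  have h0 : (0 : ℝ) ≤ (39 / 10) ^ 2 + 4 := by norm_num
  set r := √((39 / 10 : ℝ) ^ 2 + 4) with hr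
  have h1 : r ^ 2 = (39 / 10) ^ 2 + 4 := Real.sq_sqrt h0
  have h2 : 43 / 10 < r := by
    rw [hr]; apply Real.lt_sqrt_of_sq_lt; norm_num
  have h3 : r < 44 / 10 := by
    rw [hr, Real.sqrt_lt' (by norm_num)]; norm_num
  refine ⟨r, (r - 39 / 10) / 2, (r + 39 / 10) / 2, ⟨by linarith, by linarith, by linarith, ?_, by ring,
    by ring⟩, by linarith⟩
  nlinarith

/-- the derivative of the profile -/
noncomputable def dU (r l m x : ℝ) : ℝ := if x ≤ 0 then 1 / r * Real.exp (l * x)
  else 1 / r * Real.exp (-(m * x))

/-- the profile -/
noncomputable def U (r l m x : ℝ) : ℝ := if x ≤ 0 then m / r * Real.exp (l * x)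
  else 1 - l / r * Real.exp (-(m * x))

variable {b r l m : ℝ}

theorem cont_dU : Continuous (dU r l m) := by
  unfold dU
  refine Continuous.if_le (by fun_prop) (by fun_prop) continuous_id continuous_const ?_
  intro x hx
  have : x = 0 := hx
  subst this
  simp

theorem hasDeriv (h : Dat b r l m) (x : ℝ) : HasDerivAt (U r l m) (dU r l m x) x := by
  have hr := h.r0.ne'
  have e1 : ∀ x, HasDerivAt (fun x : ℝ => m / r * Real.exp (l * x)) (1 / r * Real.exp (l * x)) x := by
    intro x
    have := (((hasDerivAt_id x).const_mul l).exp).const_mul (m / r)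
    refine this.congr_deriv ?_
    have h7 : m / r * l = 1 / r := by rw [div_mul_eq_mul_div, mul_comm m l, h.lm]
    simp only [id]
    linear_combination Real.exp (l * x) * h7
  have e2 : ∀ x, HasDerivAt (fun x : ℝ => 1 - l / r * Real.exp (-(m * x)))
      (1 / r * Real.exp (-(m * x))) x := by
    intro x
    have := ((((hasDerivAt_id x).const_mul m).neg.exp).const_mul (l / r)).const_sub 1
    refine this.congr_deriv ?_
    have := h.lm
    simp only [id]
    field_simp
    linear_combination Real.exp (-(m * x)) * this
  rcases lt_trichotomy x 0 with hx | hx | hx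
  · have e : U r l m =ᶠ[𝓝 x] fun x : ℝ => m / r * Real.exp (l * x) := by
      filter_upwards [Iio_mem_nhds hx] with y hy
      have : y ≤ 0 := (mem_Iio.1 hy).le
      simp [U, this]
    have : dU r l m x = 1 / r * Real.exp (l * x) := by simp [dU, hx.le]
    rw [this]
    exact (e1 x).congr_of_eventuallyEq e
  · subst hx
    have h0 : dU r l m 0 = 1 / r := by simp [dU]
    rw [h0]
    have a1 : HasDerivWithinAt (U r l m) (1 / r) (Iic 0) 0 := by
      have := (e1 0).hasDerivWithinAt (s := Iic 0)
      simp only [mul_zero, Real.exp_zero, mul_one] at this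
      refine this.congr ?_ (by simp [U])
      intro y hy
      have : y ≤ 0 := hy
      simp [U, this]
    have a2 : HasDerivWithinAt (U r l m) (1 / r) (Ici 0) 0 := by
      have := (e2 0).hasDerivWithinAt (s := Ici 0)
      simp only [mul_zero, neg_zero, Real.exp_zero, mul_one] at this
      have hz : U r l m 0 = 1 - l / r := by
        have := h.add
        simp only [U, le_refl, if_true, mul_zero, Real.exp_zero, mul_one]
        field_simp
        linarith
      refine this.congr ?_ (by simp [hz])
      intro y hy
      have hy' : (0 : ℝ) ≤ y := hy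
      rcases hy'.eq_or_lt with h5 | h5
      · rw [← h5, hz]; simp
      · simp [U, not_le.2 h5]
    have := a1.union a2
    rwa [Iic_union_Ici, hasDerivWithinAt_univ] at this
  · have e : U r l m =ᶠ[𝓝 x] fun x : ℝ => 1 - l / r * Real.exp (-(m * x)) := by
      filter_upwards [Ioi_mem_nhds hx] with y hy
      have : ¬ y ≤ 0 := not_le.2 (mem_Ioi.1 hy)
      simp [U, this]
    have : dU r l m x = 1 / r * Real.exp (-(m * x)) := by simp [dU, not_le.2 hx]
    rw [this]
    exact (e2 x).congr_of_eventuallyEq e

/-- the control of the wave -/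
noncomputable def al (r l m x : ℝ) : ℝ := if x ≤ 0 then hh (U r l m x) / U r l m x else 0

theorem wave (hF : S_FUN) (h : Dat b r l m) (h85 : 85 / 100 * r ≤ m) :
    Wave ff b (al r l m) (U r l m) := by
  have hr := h.r0
  have hl := h.l0
  have hm := h.m0
  have hdiff : Differentiable ℝ (U r l m) := fun x => (hasDeriv h x).differentiableAt
  have hder : deriv (U r l m) = dU r l m := funext fun x => (hasDeriv h x).deriv
  have hcU : Continuous (U r l m) := hdiff.continuous
  have hUpos : ∀ x, x ≤ 0 → 0 < U r l m x := by
    intro x hx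
    simp only [U, hx, if_true]
    positivity
  have hmr : m / r ≤ 1 := by
    rw [div_le_one hr]; linarith [h.add]
  have hlr : l / r ≤ 15 / 100 := by
    rw [div_le_iff₀ hr]; linarith [h.add]
  have hU85 : ∀ x, ¬ x ≤ 0 → 85 / 100 ≤ U r l m x := by
    intro x hx
    simp only [U, hx, if_false]
    have h1 : Real.exp (-(m * x)) ≤ 1 := by
      apply Real.exp_le_one_iff.2
      have : 0 < m * x := mul_pos hm (not_le.1 hx)
      linarith
    have h2 : 0 < l / r := by positivity
    have h3 := mul_le_mul hlr h1 (Real.exp_pos _).le (by norm_num)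
    linarith
  have hprod : ∀ x, al r l m x * U r l m x = if x ≤ 0 then hh (U r l m x) else 0 := by
    intro x
    by_cases hx : x ≤ 0
    · simp only [al, hx, if_true]
      exact div_mul_cancel₀ _ (hUpos x hx).ne'
    · simp [al, hx]
  have mhU : Measurable (fun x => hh (U r l m x)) := hF.1.measurable.comp hcU.measurable
  have hmeas : Measurable (al r l m) := by
    unfold al
    exact Measurable.ite measurableSet_Iic (mhU.div hcU.measurable) measurable_const
  refine ⟨hmeas, ?_, ?_, hdiff, by rw [hder]; exact cont_dU, ?_, ?_, ?_, ?_⟩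
  · intro x
    by_cases hx : x ≤ 0
    · simp only [al, hx, if_true]
      exact div_nonneg (hF.2.2.1 _).1 (hUpos x hx).le
    · simp [al, hx]
  · intro x
    by_cases hx : x ≤ 0
    · refine ⟨(hUpos x hx).le, ?_⟩
      simp only [U, hx, if_true]
      have h1 : Real.exp (l * x) ≤ 1 := Real.exp_le_one_iff.2 (mul_nonpos_of_nonneg_of_nonpos hl.le hx)
      exact mul_le_one₀ hmr (Real.exp_pos _).le h1
    · refine ⟨by linarith [hU85 x hx], ?_⟩
      simp only [U, hx, if_false]
      have : 0 < l / r * Real.exp (-(m * x)) := by positivity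
      linarith
  · intro x y
    have hb : ∀ s, ‖al r l m s * U r l m s‖ ≤ 1 := by
      intro s
      rw [hprod]
      split_ifs
      · rw [Real.norm_eq_abs, abs_of_nonneg (hF.2.2.1 _).1]; exact (hF.2.2.1 _).2
      · simp
    rw [intervalIntegrable_iff]
    exact Measure.integrableOn_of_bounded (M := 1) (by simp)
      (hmeas.mul hcU.measurable).aestronglyMeasurable (Eventually.of_forall hb)
  · intro x y
    rw [hder]
    have hf' : ∀ s, al r l m s * U r l m s - b * dU r l m s - ff (U r l m s) =
        if s ≤ 0 then l / r * Real.exp (l * s) else -(m / r * Real.exp (-(m * s))) := by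
      intro s
      rw [hprod]
      by_cases hs : s ≤ 0
      · simp only [hs, if_true, ff, dU, U]
        have := h.sub
        field_simp
        rw [← this]
        ring
      · have h1 : hh (U r l m s) = 1 := hF.2.2.2.2.1 _ (hU85 s hs)
        simp only [ff, h1]
        simp only [hs, if_false, dU, U]
        have := h.sub
        field_simp
        rw [← this]
        ring
    have key := integral_eq_of_hasDerivAt_off_countable (dU r l m)
      (fun s => al r l m s * U r l m s - b * dU r l m s - ff (U r l m s)) (a := x) (b := y)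
      (s := {0}) (countable_singleton 0) cont_dU.continuousOn ?_ ?_
    · exact key.symm
    · intro s hs
      have hs0 : s ≠ 0 := hs.2
      rw [hf']
      rcases lt_or_gt_of_ne hs0 with h5 | h5
      · have e : dU r l m =ᶠ[𝓝 s] fun x : ℝ => 1 / r * Real.exp (l * x) := by
          filter_upwards [Iio_mem_nhds h5] with y hy
          have : y ≤ 0 := (mem_Iio.1 hy).le
          simp [dU, this]
        rw [if_pos h5.le]
        refine HasDerivAt.congr_of_eventuallyEq ?_ e
        have := (((hasDerivAt_id s).const_mul l).exp).const_mul (1 / r)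
        refine this.congr_deriv ?_
        simp only [id]
        ring
      · have e : dU r l m =ᶠ[𝓝 s] fun x : ℝ => 1 / r * Real.exp (-(m * x)) := by
          filter_upwards [Ioi_mem_nhds h5] with y hy
          have : ¬ y ≤ 0 := not_le.2 (mem_Ioi.1 hy)
          simp [dU, this]
        rw [if_neg (not_le.2 h5)]
        refine HasDerivAt.congr_of_eventuallyEq ?_ e
        have := (((hasDerivAt_id s).const_mul m).neg.exp).const_mul (1 / r)
        refine this.congr_deriv ?_
        have h8 : (-fun y : ℝ => m * id y) s = -(m * s) := rfl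
        rw [h8]
        ring
    · have hcff : Continuous ff := hF.2.2.2.2.2.1.continuous
      have i1 : IntervalIntegrable (fun s => al r l m s * U r l m s) volume x y := by
        have hb : ∀ s, ‖al r l m s * U r l m s‖ ≤ 1 := by
          intro s
          rw [hprod]
          split_ifs
          · rw [Real.norm_eq_abs, abs_of_nonneg (hF.2.2.1 _).1]; exact (hF.2.2.1 _).2
          · simp
        rw [intervalIntegrable_iff]
        exact Measure.integrableOn_of_bounded (M := 1) (by simp)
          (hmeas.mul hcU.measurable).aestronglyMeasurable (Eventually.of_forall hb)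
      exact (i1.sub ((cont_dU.const_mul b).intervalIntegrable x y)).sub
        ((hcff.comp hcU).intervalIntegrable x y)
  · have e : U r l m =ᶠ[atBot] fun x : ℝ => m / r * Real.exp (l * x) := by
      filter_upwards [Iic_mem_atBot 0] with y hy
      have : y ≤ 0 := hy
      simp [U, this]
    have h1 : Tendsto (fun x : ℝ => l * x) atBot atBot := tendsto_id.const_mul_atBot hl
    have h2 := (Real.tendsto_exp_atBot.comp h1).const_mul (m / r)
    rw [mul_zero] at h2
    exact h2.congr' e.symm
  · have e : U r l m =ᶠ[atTop] fun x : ℝ => 1 - l / r * Real.exp (-(m * x)) := by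
      filter_upwards [Ioi_mem_atTop 0] with y hy
      have : ¬ y ≤ 0 := not_le.2 (mem_Ioi.1 hy)
      simp [U, this]
    have h1 : Tendsto (fun x : ℝ => m * x) atTop atTop := tendsto_id.const_mul_atTop hm
    have h2 := ((Real.tendsto_exp_neg_atTop_nhds_zero.comp h1).const_mul (l / r)).const_sub 1
    rw [mul_zero, sub_zero] at h2
    exact h2.congr' e.symm

end Fin

open Fin in
/-- the effort is finite -/
theorem effort_lt_top (hF : S_FUN) : effort ff (39 / 10) < ⊤ := by
  obtain ⟨r, l, m, h, h85⟩ := dat
  have hw := wave hF h h85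
  have hr := h.r0
  have hl := h.l0
  have hmr : m / r ≤ 1 := by
    rw [div_le_one hr]; linarith [h.add, h.l0]
  refine lt_of_le_of_lt (iInf_le_of_le (al r l m) (iInf_le_of_le (U r l m) (iInf_le _ hw))) ?_
  -- the control vanishes outside a compact interval and is bounded
  set M := -(Real.log (79 / 100) / l) with hM
  have hb : ∀ x, ENNReal.ofReal (al r l m x) ≤ (Icc (-M) 0).indicator (fun _ => (2 : ℝ≥0∞)) x := by
    intro x
    by_cases hx : x ≤ 0
    · by_cases hu : U r l m x ≤ 79 / 100
      · have : al r l m x = 0 := by
          simp [al, hh_zero hF hu]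
        rw [this]; simp
      · push Not at hu
        have hx2 : -M ≤ x := by
          have h1 : U r l m x = m / r * Real.exp (l * x) := by simp [U, hx]
          have h2 : m / r * Real.exp (l * x) ≤ 1 * Real.exp (l * x) :=
            mul_le_mul_of_nonneg_right hmr (Real.exp_pos _).le
          have h3 : 79 / 100 < Real.exp (l * x) := by linarith
          have h4 : Real.log (79 / 100) < l * x := by
            rw [← Real.log_exp (l * x)]
            exact Real.log_lt_log (by norm_num) h3
          rw [hM, neg_neg, div_le_iff₀ hl]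
          linarith
        rw [indicator_of_mem (show x ∈ Icc (-M) 0 from ⟨hx2, hx⟩)]
        have h5 : al r l m x ≤ 2 := by
          simp only [al, hx, if_true]
          rw [div_le_iff₀ (by linarith)]
          linarith [(hF.2.2.1 (U r l m x)).2]
        calc ENNReal.ofReal (al r l m x) ≤ ENNReal.ofReal 2 := ENNReal.ofReal_le_ofReal h5
          _ = 2 := by norm_num
    · have : al r l m x = 0 := by simp [al, hx]
      rw [this]; simp
  calc ∫⁻ x, ENNReal.ofReal (al r l m x) ≤ ∫⁻ x, (Icc (-M) 0).indicator (fun _ => (2 : ℝ≥0∞)) x :=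
        lintegral_mono hb
    _ = 2 * volume (Icc (-M) 0) := lintegral_indicator_const measurableSet_Icc _
    _ < ⊤ := by
      rw [Real.volume_Icc]
      exact ENNReal.mul_lt_top (by norm_num) ENNReal.ofReal_lt_top

end Pool.Agent.W5h10.SI
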