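import Pool.Agent.W5h10.SI.Defs

set_option autoImplicit false

open MeasureTheory Set Filter Topology
open scoped ContDiff

namespace Pool.Agent.W5h10.SI

namespace FunAux

/-- first derivative of the quintic step -/
noncomputable def st1 (y : ℝ) : ℝ :=
  if y ≤ 0 then 0 else if 1 ≤ y then 0 else 30 * y ^ 2 * (1 - y) ^ 2

/-- second derivative of the quintic step -/
noncomputable def st2 (y : ℝ) : ℝ :=
  if y ≤ 0 then 0 else if 1 ≤ y then 0 else 60 * y * (1 - y) * (1 - 2 * y)

/-- gluing of derivatives: a function given by three differentiable pieces -/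
theorem glue {g0 g1 g2 F : ℝ → ℝ} {d0 d1 d2 D : ℝ → ℝ}
    (h0 : ∀ y, HasDerivAt g0 (d0 y) y) (h1 : ∀ y, HasDerivAt g1 (d1 y) y)
    (h2 : ∀ y, HasDerivAt g2 (d2 y) y)
    (e0 : ∀ y, y ≤ 0 → F y = g0 y) (e1 : ∀ y, 0 ≤ y → y ≤ 1 → F y = g1 y)
    (e2 : ∀ y, 1 ≤ y → F y = g2 y)
    (D0 : ∀ y, y ≤ 0 → D y = d0 y) (D1 : ∀ y, 0 ≤ y → y ≤ 1 → D y = d1 y)
    (D2 : ∀ y, 1 ≤ y → D y = d2 y) (y : ℝ) : HasDerivAt F (D y) y := by
  have L : ∀ y, y ≤ 0 → HasDerivWithinAt F (D y) (Iic y) y := by
    intro y hy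
    rw [D0 y hy]
    exact (h0 y).hasDerivWithinAt.congr (fun z hz => e0 z (le_trans hz hy)) (e0 y hy)
  have R : ∀ y, 1 ≤ y → HasDerivWithinAt F (D y) (Ici y) y := by
    intro y hy
    rw [D2 y hy]
    exact (h2 y).hasDerivWithinAt.congr (fun z hz => e2 z (le_trans hy hz)) (e2 y hy)
  have M : ∀ y, 0 ≤ y → y ≤ 1 → HasDerivWithinAt F (D y) (Icc 0 1) y := by
    intro y hy hy'
    rw [D1 y hy hy']
    exact (h1 y).hasDerivWithinAt.congr (fun z hz => e1 z hz.1 hz.2) (e1 y hy hy')
  rcases lt_trichotomy y 0 with hy | hy | hy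
  · have : F =ᶠ[𝓝 y] g0 := by
      filter_upwards [Iio_mem_nhds hy] with z hz using e0 z (le_of_lt hz)
    rw [D0 y hy.le]
    exact (h0 y).congr_of_eventuallyEq this
  · subst hy
    have a := L 0 le_rfl
    have b := M 0 le_rfl zero_le_one
    have c := a.union b
    refine c.hasDerivAt ?_
    refine mem_of_superset (Iio_mem_nhds (show (0:ℝ) < 1 by norm_num)) fun z hz => ?_
    rcases le_total z 0 with h | h
    · exact Or.inl h
    · exact Or.inr ⟨h, le_of_lt hz⟩
  · rcases lt_trichotomy y 1 with hy' | hy' | hy'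
    · exact (M y hy.le hy'.le).hasDerivAt (Icc_mem_nhds hy hy')
    · subst hy'
      have a := R 1 le_rfl
      have b := M 1 zero_le_one le_rfl
      refine (a.union b).hasDerivAt ?_
      refine mem_of_superset (Ioi_mem_nhds (show (0:ℝ) < 1 by norm_num)) fun z hz => ?_
      rcases le_total z 1 with h | h
      · exact Or.inr ⟨le_of_lt hz, h⟩
      · exact Or.inl h
    · have : F =ᶠ[𝓝 y] g2 := by
        filter_upwards [Ioi_mem_nhds hy'] with z hz using e2 z (le_of_lt hz)
      rw [D2 y hy'.le]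
      exact (h2 y).congr_of_eventuallyEq this

theorem hd1 (y : ℝ) : HasDerivAt step (st1 y) y := by
  refine glue (g0 := fun _ => 0) (g1 := fun y => y ^ 3 * (10 - 15 * y + 6 * y ^ 2))
    (g2 := fun _ => 1) (d0 := fun _ => 0) (d1 := fun y => 30 * y ^ 2 * (1 - y) ^ 2)
    (d2 := fun _ => 0) (fun y => hasDerivAt_const y _) (fun y => ?_) (fun y => hasDerivAt_const y _)
    ?_ ?_ ?_ ?_ ?_ ?_ y
  · have h1 : HasDerivAt (fun y : ℝ => y ^ 3) (3 * y ^ 2) y := by
      simpa using hasDerivAt_pow 3 y
    have h2 : HasDerivAt (fun y : ℝ => 10 - 15 * y + 6 * y ^ 2) (-15 + 6 * (2 * y)) y := by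
      have a := ((hasDerivAt_id y).const_mul (15 : ℝ)).const_sub 10
      have b := (hasDerivAt_pow 2 y).const_mul (6 : ℝ)
      exact (a.fun_add b).congr_deriv (by simp)
    exact (h1.fun_mul h2).congr_deriv (by ring)
  · intro y hy; simp [step, hy]
  · intro y hy hy'
    rcases hy.eq_or_lt with rfl | h
    · simp [step]
    rcases hy'.eq_or_lt with rfl | h'
    · simp [step]; norm_num
    · simp [step, not_le.2 h, not_le.2 h']
  · intro y hy; simp [step, not_le.2 (lt_of_lt_of_le one_pos hy), hy]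
  · intro y hy; simp [st1, hy]
  · intro y hy hy'
    rcases hy.eq_or_lt with rfl | h
    · simp [st1]
    rcases hy'.eq_or_lt with rfl | h'
    · simp [st1]
    · simp [st1, not_le.2 h, not_le.2 h']
  · intro y hy; simp [st1, hy]

theorem hd2 (y : ℝ) : HasDerivAt st1 (st2 y) y := by
  refine glue (g0 := fun _ => 0) (g1 := fun y => 30 * y ^ 2 * (1 - y) ^ 2)
    (g2 := fun _ => 0) (d0 := fun _ => 0) (d1 := fun y => 60 * y * (1 - y) * (1 - 2 * y))
    (d2 := fun _ => 0) (fun y => hasDerivAt_const y _) (fun y => ?_) (fun y => hasDerivAt_const y _)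
    ?_ ?_ ?_ ?_ ?_ ?_ y
  · have h1 : HasDerivAt (fun y : ℝ => 30 * y ^ 2) (30 * (2 * y)) y := by
      simpa using (hasDerivAt_pow 2 y).const_mul (30 : ℝ)
    have h2 : HasDerivAt (fun y : ℝ => (1 - y) ^ 2) (2 * (1 - y) * (-1)) y := by
      have a := ((hasDerivAt_id y).const_sub 1).fun_pow 2
      exact a.congr_deriv (by simp)
    exact (h1.fun_mul h2).congr_deriv (by ring)
  · intro y hy; simp [st1, hy]
  · intro y hy hy'
    rcases hy.eq_or_lt with rfl | h
    · simp [st1]
    rcases hy'.eq_or_lt with rfl | h'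
    · simp [st1]
    · simp [st1, not_le.2 h, not_le.2 h']
  · intro y hy; simp [st1, hy]
  · intro y hy; simp [st2, hy]
  · intro y hy hy'
    rcases hy.eq_or_lt with rfl | h
    · simp [st2]
    rcases hy'.eq_or_lt with rfl | h'
    · simp [st2]
    · simp [st2, not_le.2 h, not_le.2 h']
  · intro y hy; simp [st2, hy]

theorem st2_cont : Continuous st2 := by
  have : st2 = fun y => 60 * (max 0 (min y 1)) * (1 - (max 0 (min y 1))) *
      (1 - 2 * (max 0 (min y 1))) := by
    funext y
    unfold st2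
    rcases le_or_gt y 0 with h | h
    · have h1 : min y 1 = y := min_eq_left (h.trans zero_le_one)
      simp [h, h1]
    · rcases le_or_gt 1 y with h' | h'
      · simp [not_le.2 h, h']
      · have h1 : min y 1 = y := min_eq_left h'.le
        have h2 : max 0 y = y := max_eq_right h.le
        simp [not_le.2 h, not_le.2 h', h1, h2]
  rw [this]; fun_prop

theorem step_c2 : ContDiff ℝ 2 step := by
  have e1 : deriv step = st1 := funext fun y => (hd1 y).deriv
  have e2 : deriv st1 = st2 := funext fun y => (hd2 y).deriv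
  rw [show (2 : WithTop ℕ∞) = 1 + 1 by norm_num, contDiff_succ_iff_deriv]
  refine ⟨fun y => (hd1 y).differentiableAt, by simp, ?_⟩
  rw [e1, contDiff_one_iff_deriv]
  exact ⟨fun y => (hd2 y).differentiableAt, by rw [e2]; exact st2_cont⟩

theorem st1_nonneg (y : ℝ) : 0 ≤ st1 y := by
  unfold st1
  split_ifs
  · exact le_rfl
  · exact le_rfl
  · positivity

theorem step_mono : Monotone step :=
  monotone_of_deriv_nonneg (fun y => (hd1 y).differentiableAt)
    fun y => by rw [(hd1 y).deriv]; exact st1_nonneg y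

theorem step0 {y : ℝ} (h : y ≤ 0) : step y = 0 := by simp [step, h]

theorem step1 {y : ℝ} (h : 1 ≤ y) : step y = 1 := by
  simp [step, not_le.2 (lt_of_lt_of_le one_pos h), h]

theorem hasDeriv_hh (u : ℝ) : HasDerivAt hh (50 / 3 * st1 ((u - 79 / 100) * (50 / 3))) u := by
  have h1 : HasDerivAt (fun u : ℝ => (u - 79 / 100) * (50 / 3)) (50 / 3) u := by
    simpa using ((hasDerivAt_id u).sub_const (79 / 100 : ℝ)).mul_const (50 / 3 : ℝ)
  have := (hd1 ((u - 79 / 100) * (50 / 3))).comp u h1
  exact this.congr_deriv (by ring)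

theorem hasDeriv_ff (u : ℝ) :
    HasDerivAt ff (-1 + 50 / 3 * st1 ((u - 79 / 100) * (50 / 3))) u :=
  (hasDerivAt_id u).neg.add (hasDeriv_hh u)

end FunAux

open FunAux

/-- (L) -/
theorem fn : S_FUN := by
  have hmono : Monotone hh := by
    intro x y hxy
    apply step_mono
    have : (x - 79 / 100) ≤ (y - 79 / 100) := by linarith
    linarith
  have hcont : Continuous hh := by
    have := step_c2.continuous
    exact this.comp (by fun_prop)
  have hffc : ContDiff ℝ 2 ff := by
    have : ContDiff ℝ 2 hh := step_c2.comp (by fun_prop)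
    exact contDiff_id.neg.add this
  have hrange : ∀ x, 0 ≤ hh x ∧ hh x ≤ 1 := by
    intro x
    constructor
    · rcases le_total ((x - 79 / 100) * (50 / 3)) 0 with h | h
      · rw [hh, step0 h]
      · rw [hh, ← step0 (le_refl (0:ℝ))]; exact step_mono h
    · rcases le_total 1 ((x - 79 / 100) * (50 / 3)) with h | h
      · rw [hh, step1 h]
      · rw [hh, ← step1 (le_refl (1:ℝ))]; exact step_mono h
  have hlow : ∀ x : ℝ, x ≤ 79 / 100 → hh x = 0 := fun x hx => step0 (by linarith)
  have hhigh : ∀ x : ℝ, 85 / 100 ≤ x → hh x = 1 := fun x hx => step1 (by linarith)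
  -- the middle: with y = (u - 79/100) 50/3, u = 79/100 + 3 y / 50
  have hneg : ∀ u : ℝ, 0 < u → (u - 79 / 100) * (50 / 3) ≤ 1 / 20 → ff u < 0 := by
    intro u hu h
    have h1 : hh u ≤ step (1 / 20) := step_mono h
    have h2 : step (1 / 20) < 1 / 10 := by
      simp only [step]; norm_num
    rcases le_or_gt u (79 / 100) with h3 | h3
    · have := hlow u h3
      simp only [ff]; linarith
    · simp only [ff]; linarith
  have hpos : ∀ u : ℝ, u < 1 → 19 / 20 ≤ (u - 79 / 100) * (50 / 3) → 0 < ff u := by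
    intro u hu h
    have h1 : step (19 / 20) ≤ hh u := step_mono h
    have h2 : 9 / 10 < step (19 / 20) := by
      simp only [step]; norm_num
    rcases le_or_gt (85 / 100) u with h3 | h3
    · have := hhigh u h3
      simp only [ff]; linarith
    · simp only [ff]; linarith
  have hder : ∀ u : ℝ, 1 / 20 ≤ (u - 79 / 100) * (50 / 3) → (u - 79 / 100) * (50 / 3) ≤ 19 / 20 →
      0 < deriv ff u := by
    intro u h1 h2
    rw [(hasDeriv_ff u).deriv]
    set y := (u - 79 / 100) * (50 / 3)
    have h3 : st1 y = 30 * (y * (1 - y)) ^ 2 := by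
      simp only [st1]
      rw [if_neg (by linarith), if_neg (by linarith)]; ring
    have h4 : 19 / 400 ≤ y * (1 - y) := by nlinarith
    have h5 : (19 / 400 : ℝ) ^ 2 ≤ (y * (1 - y)) ^ 2 := by
      apply pow_le_pow_left₀ (by norm_num) h4
    rw [h3]
    nlinarith
  refine ⟨hcont, hmono, hrange, hlow, hhigh, hffc, ?_, ?_, ?_, ?_, ?_⟩
  · simp [ff, hlow 0 (by norm_num)]
  · simp [ff, hhigh 1 (by norm_num)]
  · rw [(hasDeriv_ff 0).deriv]
    have : st1 ((0 - 79 / 100) * (50 / 3)) = 0 := by simp only [st1]; norm_num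
    rw [this]; norm_num
  · rw [(hasDeriv_ff 1).deriv]
    have : st1 ((1 - 79 / 100) * (50 / 3)) = 0 := by simp only [st1]; norm_num
    rw [this]; norm_num
  · -- existence of the zero
    have hfc : Continuous ff := hffc.continuous
    set p : ℝ := 79 / 100 + 3 / 50 * (1 / 20) with hp
    set q : ℝ := 79 / 100 + 3 / 50 * (19 / 20) with hq
    have hpq : p ≤ q := by rw [hp, hq]; norm_num
    have hfp : ff p < 0 := hneg p (by rw [hp]; norm_num) (by rw [hp]; norm_num)
    have hfq : 0 < ff q := hpos q (by rw [hq]; norm_num) (by rw [hq]; norm_num)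
    have hmid : StrictMonoOn ff (Icc p q) := by
      apply strictMonoOn_of_deriv_pos (convex_Icc p q) hfc.continuousOn
      intro x hx
      rw [interior_Icc] at hx
      apply hder x
      · have := hx.1; rw [hp] at this; linarith
      · have := hx.2; rw [hq] at this; linarith
    obtain ⟨a, ha, ha0⟩ := intermediate_value_Icc hpq hfc.continuousOn ⟨hfp.le, hfq.le⟩
    have hap : p < a := by
      rcases ha.1.eq_or_lt with h | h
      · rw [← h] at ha0; linarith
      · exact h
    have haq : a < q := by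
      rcases ha.2.eq_or_lt with h | h
      · rw [h] at ha0; linarith
      · exact h
    refine ⟨a, ?_, ?_, ha0, ?_, ?_, ?_⟩
    · rw [hp] at hap; linarith
    · rw [hq] at haq; linarith
    · apply hder a
      · rw [hp] at hap; linarith
      · rw [hq] at haq; linarith
    · intro u hu hua
      rcases le_or_gt u p with h | h
      · apply hneg u hu
        rw [hp] at h; linarith
      · rw [← ha0]
        exact hmid ⟨h.le, (hua.trans haq).le⟩ ha hua
    · intro u hua hu
      rcases le_or_gt q u with h | h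
      · apply hpos u hu
        rw [hq] at h; linarith
      · rw [← ha0]
        exact hmid ha ⟨(hap.trans hua).le, h.le⟩ hua

end Pool.Agent.W5h10.SI
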