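import Pool.Agent.W5h10.SI.Defs

/-! (E'): the tail in the plane, by the rotation invariance of the Gaussian. -/

set_option autoImplicit false

open MeasureTheory Set Filter Topology ProbabilityTheory
open scoped ENNReal NNReal

namespace Pool.Agent.W5h10.SI

lemma hf_rot {c s : ℝ} (hcs : c ^ 2 + s ^ 2 = 1) :
    MeasurePreserving (fun z : ℝ × ℝ => c * z.1 + s * z.2) (ga.prod ga) ga := by
  have hg : IsProbabilityMeasure ga := by
    unfold ga
    infer_instance
  have hm : Measurable fun z : ℝ × ℝ => c * z.1 + s * z.2 := by fun_prop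
  refine ⟨hm, ?_⟩
  have h0 : IsProbabilityMeasure ((ga.prod ga).map fun z : ℝ × ℝ => c * z.1 + s * z.2) :=
    Measure.isProbabilityMeasure_map hm.aemeasurable
  apply Measure.ext_of_charFun
  ext ξ
  rw [charFun_apply_real, integral_map hm.aemeasurable (by fun_prop)]
  have h : ∀ z : ℝ × ℝ, Complex.exp (ξ * ((c * z.1 + s * z.2 : ℝ) : ℂ) * Complex.I) =
      Complex.exp (((ξ * c : ℝ) : ℂ) * z.1 * Complex.I) *
        Complex.exp (((ξ * s : ℝ) : ℂ) * z.2 * Complex.I) := by
    intro z
    rw [← Complex.exp_add]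
    push_cast
    ring_nf
  simp only [h]
  rw [integral_prod_mul (fun z : ℝ => Complex.exp (((ξ * c : ℝ) : ℂ) * z * Complex.I))
    (fun z : ℝ => Complex.exp (((ξ * s : ℝ) : ℂ) * z * Complex.I)), ← charFun_apply_real,
    ← charFun_apply_real, ga, charFun_gaussianReal, charFun_gaussianReal, charFun_gaussianReal,
    ← Complex.exp_add]
  congr 1
  have hc : (c : ℂ) ^ 2 + (s : ℂ) ^ 2 = 1 := by exact_mod_cast hcs
  push_cast
  linear_combination (-(ξ : ℂ) ^ 2 / 2) * hc

/-- (E') -/
theorem half (h : S_PROF) : S_HALF := by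
  intro b x c s hcs hx
  have hg : IsProbabilityMeasure ga := by
    unfold ga
    infer_instance
  have hex : SFinite ex := by
    unfold ex
    infer_instance
  have hmp : MeasurePreserving (Prod.map (id : ℝ → ℝ) fun z : ℝ × ℝ => c * z.1 + s * z.2)
      (ex.prod (ga.prod ga)) (ex.prod ga) :=
    (MeasurePreserving.id ex).prod (hf_rot hcs)
  rw [← h b x hx, ← hmp.measure_preimage]
  · rfl
  · apply MeasurableSet.nullMeasurableSet
    exact measurableSet_le measurable_const (by fun_prop)

end Pool.Agent.W5h10.SI
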