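import Pool.Agent.W5h10.SI.Basic

/-! (D): monotone iteration. -/

set_option autoImplicit false

open MeasureTheory Set Filter Topology ProbabilityTheory
open scoped ENNReal ContDiff

namespace Pool.Agent.W5h10.SI

/-- the iteration -/
noncomputable def itg (ε : ℝ) (h : ℝ → ℝ) (g₀ : ST → ℝ) : ℕ → ST → ℝ
  | 0 => g₀
  | n + 1 => fun p => min (g₀ p) (h (S ε (itg ε h g₀ n) p))

theorem it_le (ε : ℝ) (g g' : ST → ℝ) (hm' : Measurable g')
    (hg : ∀ p, 0 ≤ g p ∧ g p ≤ 1) (hg' : ∀ p, 0 ≤ g' p ∧ g' p ≤ 1)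
    (h : ∀ q : ST, g q ≤ g' q) (p : ST) : S ε g p ≤ S ε g' p := by
  unfold S
  exact integral_mono_of_nonneg (ae_of_all _ fun w => (hg _).1) (ba_int ε g' hm' hg' p)
    (ae_of_all _ fun w => h _)

theorem iter0 : S_ITER := by
  intro ε _ h hc hmo hb g₀ hm hg
  have := ba_mu
  have hM : ∀ n, Measurable (itg ε h g₀ n) := by
    intro n
    induction n with
    | zero => exact hm
    | succ n ih =>
      simp only [itg]
      exact hm.min (hc.measurable.comp (ba_meas ε _ ih))
  have hB : ∀ n p, 0 ≤ itg ε h g₀ n p ∧ itg ε h g₀ n p ≤ 1 := by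
    intro n
    cases n with
    | zero => exact hg
    | succ n =>
      intro p
      simp only [itg]
      exact ⟨le_min (hg p).1 (hb _).1, (min_le_left _ _).trans (hg p).2⟩
  have hD : ∀ n p, itg ε h g₀ (n + 1) p ≤ itg ε h g₀ n p := by
    intro n
    induction n with
    | zero => intro p; exact min_le_left _ _
    | succ n ih =>
      intro p
      change min (g₀ p) (h (S ε (itg ε h g₀ (n + 1)) p)) ≤ min (g₀ p) (h (S ε (itg ε h g₀ n) p))
      exact min_le_min le_rfl (hmo (it_le ε _ _ (hM n) (hB (n + 1)) (hB n) ih p))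
  have hA : ∀ p, Antitone fun n => itg ε h g₀ n p := fun p =>
    antitone_nat_of_succ_le fun n => hD n p
  have hL : ∀ p, Tendsto (fun n => itg ε h g₀ n p) atTop (𝓝 (⨅ n, itg ε h g₀ n p)) := fun p =>
    tendsto_atTop_ciInf (hA p) ⟨0, by rintro _ ⟨n, rfl⟩; exact (hB n p).1⟩
  set g : ST → ℝ := fun p => ⨅ n, itg ε h g₀ n p with hgd
  have hgm : Measurable g := measurable_of_tendsto_metrizable hM (tendsto_pi_nhds.2 hL)
  have hgb : ∀ p, 0 ≤ g p ∧ g p ≤ 1 := fun p =>
    ⟨ge_of_tendsto' (hL p) fun n => (hB n p).1, le_of_tendsto' (hL p) fun n => (hB n p).2⟩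
  refine ⟨g, hgm, hgb, fun p => ?_, fun g' hm' h0 h1 h2 p => ?_⟩
  · have hS : Tendsto (fun n => S ε (itg ε h g₀ n) p) atTop (𝓝 (S ε g p)) := by
      unfold S
      refine tendsto_integral_of_dominated_convergence (fun _ => (1 : ℝ))
        (fun n => (ba_int ε _ (hM n) (hB n) p).aestronglyMeasurable) (integrable_const _)
        (fun n => ae_of_all _ fun w => ?_) (ae_of_all _ fun w => hL _)
      rw [Real.norm_eq_abs, abs_of_nonneg (hB n _).1]
      exact (hB n _).2
    have hT : Tendsto (fun n => itg ε h g₀ (n + 1) p) atTop (𝓝 (min (g₀ p) (h (S ε g p)))) := by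
      simp only [itg]
      exact tendsto_const_nhds.min ((hc.tendsto _).comp hS)
    exact tendsto_nhds_unique ((tendsto_add_atTop_iff_nat 1).2 (hL p)) hT
  · have hb' : ∀ q, 0 ≤ g' q ∧ g' q ≤ 1 := fun q => ⟨h0 q, (h1 q).trans (hg q).2⟩
    have hn : ∀ n q, g' q ≤ itg ε h g₀ n q := by
      intro n
      induction n with
      | zero => exact h1
      | succ n ih =>
        intro q
        simp only [itg]
        exact le_min (h1 q) ((h2 q).trans (hmo (it_le ε _ _ (hM n) hb' (hB n) ih q)))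
    exact ge_of_tendsto' (hL p) fun n => hn n p

theorem iter (_ : S_BASIC) : S_ITER := iter0

end Pool.Agent.W5h10.SI
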