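import Pool.Agent.W5h10.SI.Defs

/-! (K) convergence in `L¹`. -/

set_option autoImplicit false

open MeasureTheory Set Filter Topology ProbabilityTheory
open scoped ENNReal

namespace Pool.Agent.W5h10.SI

namespace LOne

/-- the point as a complex number -/
noncomputable def cc (z : ℝ × ℝ) : ℂ := ⟨z.1, z.2⟩

theorem cc_sq (z : ℝ × ℝ) : ‖cc z‖ ^ 2 = z.1 ^ 2 + z.2 ^ 2 := by
  unfold cc
  rw [Complex.sq_norm, Complex.normSq_mk]
  ring

theorem cc_meas : Measurable cc := Complex.measurableEquivRealProd.symm.measurable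

theorem vol_ann {a b : ℝ} (ha : 0 ≤ a) (hab : a ≤ b) :
    volume {z : ℝ × ℝ | a ≤ ‖cc z‖ ∧ ‖cc z‖ ≤ b} = ENNReal.ofReal (Real.pi * (b ^ 2 - a ^ 2)) := by
  have hb : 0 ≤ b := ha.trans hab
  have h1 : {z : ℝ × ℝ | a ≤ ‖cc z‖ ∧ ‖cc z‖ ≤ b} = Complex.measurableEquivRealProd.symm ⁻¹'
      (Metric.closedBall (0 : ℂ) b \ Metric.ball (0 : ℂ) a) := by
    ext z
    rw [mem_preimage, Complex.measurableEquivRealProd_symm_apply, Set.mem_sdiff,
      Metric.mem_closedBall, Metric.mem_ball, dist_zero_right, not_lt]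
    constructor
    · rintro ⟨h1, h2⟩
      exact ⟨h2, h1⟩
    · rintro ⟨h1, h2⟩
      exact ⟨h2, h1⟩
  have hpi : ((NNReal.pi : NNReal) : ℝ≥0∞) = ENNReal.ofReal Real.pi := by
    rw [← ENNReal.ofReal_coe_nnreal, NNReal.coe_real_pi]
  rw [h1, Complex.volume_preserving_equiv_real_prod.symm.measure_preimage
    (Metric.isClosed_closedBall.measurableSet.diff Metric.isOpen_ball.measurableSet).nullMeasurableSet,
    measure_sdiff (Metric.ball_subset_closedBall.trans (Metric.closedBall_subset_closedBall hab))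
      Metric.isOpen_ball.measurableSet.nullMeasurableSet (by
        rw [Complex.volume_ball, hpi]
        exact ENNReal.mul_ne_top (ENNReal.pow_ne_top ENNReal.ofReal_ne_top) ENNReal.ofReal_ne_top),
    Complex.volume_closedBall, Complex.volume_ball, hpi, ← ENNReal.ofReal_pow ha,
    ← ENNReal.ofReal_pow hb, ← ENNReal.ofReal_mul (by positivity),
    ← ENNReal.ofReal_mul (by positivity), ← ENNReal.ofReal_sub _ (by positivity)]
  congr 1
  ring

/-- the length of `√(2σ) Z` -/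
noncomputable def nw (w : ST) : ℝ := √(2 * w.1) * √(w.2.1 ^ 2 + w.2.2 ^ 2)

theorem nw_nonneg (w : ST) : 0 ≤ nw w := by unfold nw; positivity

theorem nw_meas : Measurable nw := by unfold nw; fun_prop

/-- the displacement -/
noncomputable def pw (ε : ℝ) (w : ST) : ℝ × ℝ := (ε * √(2 * w.1) * w.2.1, ε * √(2 * w.1) * w.2.2)

theorem pw_norm {ε : ℝ} (hε : 0 ≤ ε) (w : ST) : ‖cc (pw ε w)‖ = ε * nw w := by
  have h1 : ‖cc (pw ε w)‖ ^ 2 = (ε * nw w) ^ 2 := by
    rw [cc_sq]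
    unfold pw nw
    have hs := Real.sq_sqrt (show 0 ≤ w.2.1 ^ 2 + w.2.2 ^ 2 by positivity)
    linear_combination (-(ε ^ 2 * √(2 * w.1) ^ 2)) * hs
  exact (pow_left_inj₀ (norm_nonneg _) (mul_nonneg hε (nw_nonneg w)) two_ne_zero).1 h1

theorem shift_sq (ε x y : ℝ) (w : ST) : (x + ε * √(2 * w.1) * w.2.1) ^ 2 +
    (y + ε * √(2 * w.1) * w.2.2) ^ 2 = ‖cc (x, y) + cc (pw ε w)‖ ^ 2 := by
  have h1 : cc (x, y) + cc (pw ε w) = cc (x + ε * √(2 * w.1) * w.2.1,
      y + ε * √(2 * w.1) * w.2.2) := by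
    unfold cc pw
    rfl
  rw [h1, cc_sq]

/-- the ring -/
def EE (ε δ R : ℝ) (w : ST) : Set (ℝ × ℝ) :=
  {z | R - ε * nw w ≤ ‖cc z‖ ∧ ‖cc z‖ ≤ (1 + δ) * (R + 39 / 10 * (ε * w.1)) + ε * nw w}

/-- the random factor -/
noncomputable def mm (w : ST) : ℝ := 39 / 5 * w.1 + nw w

theorem EE_vol {ε δ R : ℝ} (hε : 0 < ε) (hε1 : ε < 1) (hδ : 0 < δ) (hδ1 : δ < 1) (hR : 0 ≤ R)
    (hR1 : R ≤ 1) {w : ST} (hw : 0 ≤ w.1) :
    volume (EE ε δ R w) ≤
      ENNReal.ofReal ((δ + ε) * (Real.pi * ((1 + mm w) * (5 + mm w)))) := by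
  obtain ⟨n, hn⟩ : ∃ n, n = nw w := ⟨_, rfl⟩
  have hn0 : 0 ≤ n := by rw [hn]; exact nw_nonneg w
  obtain ⟨s, hs⟩ : ∃ s, s = w.1 := ⟨_, rfl⟩
  have hs0 : 0 ≤ s := by rw [hs]; exact hw
  obtain ⟨m, hm⟩ : ∃ m, m = mm w := ⟨_, rfl⟩
  have hm1 : m = 39 / 5 * s + n := by rw [hm, hs, hn]; rfl
  have hm0 : 0 ≤ m := by rw [hm1]; positivity
  obtain ⟨b, hb⟩ : ∃ b, b = (1 + δ) * (R + 39 / 10 * (ε * s)) + ε * n := ⟨_, rfl⟩
  obtain ⟨a, ha⟩ : ∃ a, a = max 0 (R - ε * n) := ⟨_, rfl⟩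
  have hεs : 0 ≤ ε * s := mul_nonneg hε.le hs0
  have hεn : 0 ≤ ε * n := mul_nonneg hε.le hn0
  have hb0 : R + ε * n ≤ b := by
    rw [hb]
    nlinarith [mul_nonneg hδ.le hR, mul_nonneg hδ.le hεs]
  have ha0 : 0 ≤ a := by rw [ha]; exact le_max_left _ _
  have hab : a ≤ b := by
    rw [ha]
    refine max_le ?_ ?_
    · linarith
    · linarith
  have hsub : EE ε δ R w ⊆ {z : ℝ × ℝ | a ≤ ‖cc z‖ ∧ ‖cc z‖ ≤ b} := by
    rintro z ⟨h1, h2⟩
    refine ⟨?_, ?_⟩
    · rw [ha, hn]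
      exact max_le (norm_nonneg _) h1
    · rw [hb, hs, hn]
      exact h2
  refine (measure_mono hsub).trans ?_
  rw [vol_ann ha0 hab]
  refine ENNReal.ofReal_le_ofReal ?_
  rw [← hm]
  have hq : b ≤ R + (δ + ε * m) := by
    rw [hb, hm1]
    nlinarith [mul_nonneg hδ.le hεs, mul_nonneg (sub_nonneg.2 hδ1.le) hεs,
      mul_nonneg hδ.le (sub_nonneg.2 hR1)]
  have ha2 : R ^ 2 - 2 * R * (ε * n) ≤ a ^ 2 := by
    rw [ha]
    rcases le_total (ε * n) R with h | h
    · rw [max_eq_right (by linarith)]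
      nlinarith [sq_nonneg (ε * n)]
    · have : (0 : ℝ) ≤ max 0 (R - ε * n) ^ 2 := by positivity
      nlinarith
  have hq0 : 0 ≤ δ + ε * m := by positivity
  have hεn2 : ε * n ≤ δ + ε * m := by
    rw [hm1]
    nlinarith
  have h3 : b ^ 2 - a ^ 2 ≤ (δ + ε * m) * (4 + (δ + ε * m)) := by
    have h4 : b ^ 2 ≤ (R + (δ + ε * m)) ^ 2 := pow_le_pow_left₀ (ha0.trans hab) hq 2
    have h5 : 2 * R * (ε * n) ≤ 2 * (δ + ε * m) := by
      have : R * (ε * n) ≤ 1 * (δ + ε * m) := mul_le_mul hR1 hεn2 hεn zero_le_one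
      linarith
    have h6 : 2 * R * (δ + ε * m) ≤ 2 * (δ + ε * m) := by
      have : R * (δ + ε * m) ≤ 1 * (δ + ε * m) := mul_le_mul_of_nonneg_right hR1 hq0
      linarith
    nlinarith
  have h4 : (δ + ε * m) ≤ (δ + ε) * (1 + m) := by
    nlinarith [mul_nonneg hδ.le hm0]
  have h5 : 4 + (δ + ε * m) ≤ 5 + m := by
    nlinarith [mul_nonneg (sub_nonneg.2 hε1.le) hm0]
  have h6 : b ^ 2 - a ^ 2 ≤ (δ + ε) * (1 + m) * (5 + m) :=
    h3.trans (mul_le_mul h4 h5 (by positivity) (by positivity))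
  calc Real.pi * (b ^ 2 - a ^ 2) ≤ Real.pi * ((δ + ε) * (1 + m) * (5 + m)) :=
        mul_le_mul_of_nonneg_left h6 Real.pi_pos.le
    _ = (δ + ε) * (Real.pi * ((1 + m) * (5 + m))) := by ring

instance ex_prob : IsProbabilityMeasure ex := by
  refine ⟨?_⟩
  unfold ex
  rw [withDensity_apply _ MeasurableSet.univ, Measure.restrict_univ,
    ← ofReal_integral_eq_lintegral_ofReal, integral_exp_neg_Ioi_zero, ENNReal.ofReal_one]
  · have h1 := exp_neg_integrableOn_Ioi 0 (b := 1) one_pos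
    have h2 : IntegrableOn (fun x : ℝ => Real.exp (-x)) (Ioi 0) := by simpa using h1
    exact h2
  · exact Eventually.of_forall fun x => (Real.exp_pos _).le

instance ga_prob : IsProbabilityMeasure ga := by unfold ga; infer_instance

instance mu_prob : IsProbabilityMeasure mu := by unfold mu; infer_instance

theorem mu_pos : ∀ᵐ w ∂mu, 0 < w.1 := by
  have h1 : ∀ᵐ s ∂ex, 0 < s := by
    unfold ex
    refine (withDensity_absolutelyContinuous _ _).ae_le ?_
    exact ae_restrict_mem measurableSet_Ioi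
  unfold mu
  exact Measure.quasiMeasurePreserving_fst.ae h1

theorem ex_int (k : ℕ) : Integrable (fun s => s ^ k) ex := by
  unfold ex
  rw [integrable_withDensity_iff_integrable_smul' (by fun_prop)
    (Eventually.of_forall fun _ => ENNReal.ofReal_lt_top)]
  have h1 := Real.GammaIntegral_convergent (s := k + 1) (by positivity)
  refine IntegrableOn.congr_fun h1 (fun x hx => ?_) measurableSet_Ioi
  rw [ENNReal.toReal_ofReal (Real.exp_pos _).le, add_sub_cancel_right, Real.rpow_natCast,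
    smul_eq_mul]

theorem ga_int : Integrable (fun s => s ^ 2) ga := by
  have h1 : MemLp id 2 ga := by
    unfold ga
    exact memLp_id_gaussianReal 2
  exact h1.integrable_sq

theorem mm_int : ∫⁻ w, ENNReal.ofReal (Real.pi * ((1 + mm w) * (5 + mm w))) ∂mu < ⊤ := by
  have i1 : Integrable (fun w : ST => w.1 ^ 2) mu := (ex_int 2).comp_fst _
  have g1 : Integrable (fun z : ℝ × ℝ => z.1 ^ 2 + z.2 ^ 2) (ga.prod ga) :=
    (ga_int.comp_fst ga).add (ga_int.comp_snd ga)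
  have i2 : Integrable (fun w : ST => |w.1| * (w.2.1 ^ 2 + w.2.2 ^ 2)) mu := by
    have h1 : Integrable (fun s => |s|) ex := by
      have := (ex_int 1).abs
      simpa using this
    exact h1.mul_prod g1
  have i3 : Integrable (fun w : ST => Real.pi * (10 * (1 + 2 * (61 * w.1 ^ 2 +
      2 * (|w.1| * (w.2.1 ^ 2 + w.2.2 ^ 2)))))) mu :=
    (((integrable_const (1 : ℝ)).add
      (((i1.const_mul 61).add (i2.const_mul 2)).const_mul 2)).const_mul 10).const_mul _
  refine lt_of_le_of_lt (lintegral_mono fun w => ENNReal.ofReal_le_ofReal ?_) i3.lintegral_lt_top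
  refine mul_le_mul_of_nonneg_left ?_ Real.pi_pos.le
  have h1 : nw w ^ 2 ≤ 2 * (|w.1| * (w.2.1 ^ 2 + w.2.2 ^ 2)) := by
    unfold nw
    rw [mul_pow, Real.sq_sqrt (show 0 ≤ w.2.1 ^ 2 + w.2.2 ^ 2 by positivity), Real.sq_sqrt']
    have h2 : max (2 * w.1) 0 ≤ 2 * |w.1| := max_le (by linarith [le_abs_self w.1]) (by positivity)
    calc max (2 * w.1) 0 * (w.2.1 ^ 2 + w.2.2 ^ 2) ≤ 2 * |w.1| * (w.2.1 ^ 2 + w.2.2 ^ 2) :=
          mul_le_mul_of_nonneg_right h2 (by positivity)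
      _ = 2 * (|w.1| * (w.2.1 ^ 2 + w.2.2 ^ 2)) := by ring
  unfold mm
  nlinarith [sq_nonneg (39 / 5 * w.1 + nw w - 1), sq_nonneg (39 / 5 * w.1 - nw w), sq_nonneg w.1]

theorem tonelli (ε δ R : ℝ) : ∫⁻ z, mu {w | z ∈ EE ε δ R w} = ∫⁻ w, volume (EE ε δ R w) ∂mu := by
  have hT : MeasurableSet {p : (ℝ × ℝ) × ST | p.1 ∈ EE ε δ R p.2} := by
    have h1 : Measurable fun p : (ℝ × ℝ) × ST => ‖cc p.1‖ := (cc_meas.comp measurable_fst).norm
    have h2 : Measurable fun p : (ℝ × ℝ) × ST => nw p.2 := nw_meas.comp measurable_snd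
    exact (measurableSet_le ((h2.const_mul ε).const_sub R) h1).inter
      (measurableSet_le h1 (by fun_prop))
  have h1 := Measure.prod_apply (μ := (volume : Measure (ℝ × ℝ))) (ν := mu) hT
  have h2 := Measure.prod_apply_symm (μ := (volume : Measure (ℝ × ℝ))) (ν := mu) hT
  rw [h1] at h2
  exact h2

end LOne

open LOne in
theorem lone : S_LONE := by
  obtain ⟨M, hM⟩ : ∃ M, M = ∫⁻ w, ENNReal.ofReal (Real.pi * ((1 + mm w) * (5 + mm w))) ∂mu :=
    ⟨_, rfl⟩
  have hMt : M < ⊤ := by rw [hM]; exact mm_int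
  refine ⟨M.toReal + 1, by positivity, ?_⟩
  intro ε δ hε hε1 hδ hδ1 u hu hu1 hu0 t ht0 ht1 h1 h2
  obtain ⟨R, hR⟩ : ∃ R, R = rad t := ⟨_, rfl⟩
  have hR0 : 0 < R := by rw [hR]; unfold rad; linarith
  have hR1 : R ≤ 1 := by rw [hR]; unfold rad; linarith
  have hrad : ∀ s, rad (t - ε * s) = R + 39 / 10 * (ε * s) := fun s => by
    rw [hR]
    unfold rad
    ring
  have key : ∀ z : ℝ × ℝ, ENNReal.ofReal |u (t, z) -
      {z : ℝ × ℝ | z.1 ^ 2 + z.2 ^ 2 < rad t ^ 2}.indicator (fun _ => (1 : ℝ)) z| ≤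
      mu {w | z ∈ EE ε δ R w} := by
    rintro ⟨x, y⟩
    by_cases hz : x ^ 2 + y ^ 2 < R ^ 2
    · -- inside
      have hzR : ‖cc (x, y)‖ < R := by
        have h3 : ‖cc (x, y)‖ ^ 2 < R ^ 2 := by rw [cc_sq]; exact hz
        exact lt_of_pow_lt_pow_left₀ 2 hR0.le h3
      rw [indicator_of_mem (show (x, y) ∈ {z : ℝ × ℝ | z.1 ^ 2 + z.2 ^ 2 < rad t ^ 2} by
        rw [← hR]; exact hz), abs_sub_comm, abs_of_nonneg (sub_nonneg.2 (hu1 _))]
      obtain ⟨G, hG⟩ : ∃ G : Set ST, G = {w | t - ε * w.1 ≤ 1 / 10 ∧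
        (x + ε * √(2 * w.1) * w.2.1) ^ 2 + (y + ε * √(2 * w.1) * w.2.2) ^ 2 <
          rad (t - ε * w.1) ^ 2} := ⟨_, rfl⟩
      have hGm : MeasurableSet G := by
        have g1 : MeasurableSet {w : ST | t - ε * w.1 ≤ 1 / 10} :=
          measurableSet_le (by fun_prop) measurable_const
        have g2 : MeasurableSet {w : ST | (x + ε * √(2 * w.1) * w.2.1) ^ 2 +
            (y + ε * √(2 * w.1) * w.2.2) ^ 2 < rad (t - ε * w.1) ^ 2} :=
          measurableSet_lt (by fun_prop) (by unfold rad; fun_prop)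
        rw [hG]
        exact g1.inter g2
      have hS : S ε gB (t, x, y) = (mu G).toReal := by
        unfold S
        have h3 : ∀ w, gB (pt ε (t, x, y) w) = G.indicator (fun _ => (1 : ℝ)) w := by
          intro w
          unfold gB pt
          by_cases hw : w ∈ G
          · rw [indicator_of_mem hw, if_pos]
            rw [hG] at hw
            exact hw
          · rw [indicator_of_notMem hw, if_neg]
            intro h
            apply hw
            rw [hG]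
            exact h
        simp only [h3]
        rw [integral_indicator hGm, integral_const, smul_eq_mul, mul_one, measureReal_def,
          Measure.restrict_apply_univ]
      have h3 : 1 - u (t, x, y) ≤ (mu Gᶜ).toReal := by
        have h4 := h1 x y
        rw [hS] at h4
        have h5 : (mu Gᶜ).toReal = 1 - (mu G).toReal := by
          have := probReal_compl_eq_one_sub (μ := mu) hGm
          exact this
        rw [h5]
        linarith
      refine (ENNReal.ofReal_le_ofReal h3).trans ?_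
      rw [ENNReal.ofReal_toReal (measure_ne_top _ _)]
      refine measure_mono_ae ?_
      filter_upwards [mu_pos] with w hw hwG
      have hwG' : ¬ (t - ε * w.1 ≤ 1 / 10 ∧
        (x + ε * √(2 * w.1) * w.2.1) ^ 2 + (y + ε * √(2 * w.1) * w.2.2) ^ 2 <
          rad (t - ε * w.1) ^ 2) := by
        intro h
        apply hwG
        rw [hG]
        exact h
      have hεw : 0 < ε * w.1 := mul_pos hε hw
      have h4 : (R + 39 / 10 * (ε * w.1)) ^ 2 ≤ ‖cc (x, y) + cc (pw ε w)‖ ^ 2 := by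
        by_contra h5
        apply hwG'
        refine ⟨by linarith, ?_⟩
        rw [shift_sq, hrad]
        exact not_le.1 h5
      have h5 : R + 39 / 10 * (ε * w.1) ≤ ‖cc (x, y) + cc (pw ε w)‖ :=
        le_of_sq_le_sq h4 (norm_nonneg _)
      have h6 := norm_add_le (cc (x, y)) (cc (pw ε w))
      rw [pw_norm hε.le] at h6
      have h7 := nw_nonneg w
      refine ⟨by linarith, ?_⟩
      have h8 : 0 ≤ δ * (R + 39 / 10 * (ε * w.1)) := by positivity
      have h9 : 0 ≤ ε * nw w := by positivity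
      nlinarith
    · -- outside
      have hz' : R ^ 2 ≤ x ^ 2 + y ^ 2 := not_lt.1 hz
      have hzR : R ≤ ‖cc (x, y)‖ := by
        have h3 : R ^ 2 ≤ ‖cc (x, y)‖ ^ 2 := by rw [cc_sq]; exact hz'
        exact le_of_sq_le_sq h3 (norm_nonneg _)
      rw [indicator_of_notMem (show (x, y) ∉ {z : ℝ × ℝ | z.1 ^ 2 + z.2 ^ 2 < rad t ^ 2} by
        rw [← hR]; exact hz), sub_zero, abs_of_nonneg (hu0 _)]
      refine (h2 x y).trans ?_
      refine measure_mono_ae ?_
      filter_upwards [mu_pos] with w hw hwG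
      have hwG' : (x + ε * √(2 * w.1) * w.2.1) ^ 2 + (y + ε * √(2 * w.1) * w.2.2) ^ 2 ≤
          ((1 + δ) * rad (t - ε * w.1)) ^ 2 := hwG
      rw [shift_sq, hrad] at hwG'
      have hεw : 0 < ε * w.1 := mul_pos hε hw
      have h5 : ‖cc (x, y) + cc (pw ε w)‖ ≤ (1 + δ) * (R + 39 / 10 * (ε * w.1)) :=
        le_of_sq_le_sq hwG' (by positivity)
      have h6 : ‖cc (x, y)‖ ≤ ‖cc (x, y) + cc (pw ε w)‖ + ‖cc (pw ε w)‖ := by
        have := norm_sub_le (cc (x, y) + cc (pw ε w)) (cc (pw ε w))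
        rwa [add_sub_cancel_right] at this
      rw [pw_norm hε.le] at h6
      have h9 : 0 ≤ ε * nw w := mul_nonneg hε.le (nw_nonneg w)
      exact ⟨by linarith, by linarith⟩
  calc _ ≤ ∫⁻ z : ℝ × ℝ, mu {w | z ∈ EE ε δ R w} := lintegral_mono key
    _ = ∫⁻ w, volume (EE ε δ R w) ∂mu := tonelli ε δ R
    _ ≤ ∫⁻ w, ENNReal.ofReal ((δ + ε) * (Real.pi * ((1 + mm w) * (5 + mm w)))) ∂mu := by
        refine lintegral_mono_ae ?_
        filter_upwards [mu_pos] with w hw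
        exact EE_vol hε hε1 hδ hδ1 hR0.le hR1 hw.le
    _ = ENNReal.ofReal (δ + ε) * M := by
        rw [hM, ← lintegral_const_mul']
        · refine lintegral_congr fun w => ?_
          rw [ENNReal.ofReal_mul (by positivity)]
        · exact ENNReal.ofReal_ne_top
    _ ≤ ENNReal.ofReal ((M.toReal + 1) * (ε + δ)) := by
        rw [mul_comm (M.toReal + 1), ENNReal.ofReal_mul (by positivity), add_comm δ ε]
        refine mul_le_mul' le_rfl ?_
        rw [ENNReal.ofReal_add ENNReal.toReal_nonneg zero_le_one, ENNReal.ofReal_toReal hMt.ne]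
        exact le_self_add

end Pool.Agent.W5h10.SI
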