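import Pool.Agent.W5h10.SI.Defs

/-!
# Narrower wedges: the cost tends to zero

Same as the wedges of `Defs.lean`, with `sin ω = 7/25`, `cos ω = 24/25`. The speed normal to the sides
is `39/10 * 7/25 = 273/250`, and `fac (273/250) ≤ 3/4 < 79/100`, so no control is needed along the
sides.
-/

set_option autoImplicit false

open MeasureTheory Set Filter Topology ProbabilityTheory
open scoped ENNReal ContDiff

namespace Pool.Agent.W5h10.SI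

/-- the distances to the two sides of the wedge with the tip `R e_j`, with half opening angle
`ω`, `sin ω = 7/25`, `cos ω = 24/25` -/
noncomputable def e1 (N j : ℕ) (R x y : ℝ) : ℝ := (7 * (ca N j x y - R) - 24 * cb N j x y) / 25

/-- see `e1` -/
noncomputable def e2 (N j : ℕ) (R x y : ℝ) : ℝ := (7 * (ca N j x y - R) + 24 * cb N j x y) / 25

/-- the complement of the `N` open wedges -/
def D2 (N : ℕ) (R : ℝ) : Set (ℝ × ℝ) := {z | ∀ j < N, e1 N j R z.1 z.2 ≤ 0 ∨ e2 N j R z.1 z.2 ≤ 0}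

/-- (G2) -/
def S_IN2 : Prop := ∀ (N : ℕ) (R : ℝ), 0 < R → ∀ x y : ℝ, x ^ 2 + y ^ 2 < R ^ 2 → (x, y) ∈ D2 N R

/-- (H2) -/
def S_OUT2 : Prop := ∀ δ : ℝ, 0 < δ → ∃ N₀ : ℕ, ∀ N : ℕ, N₀ ≤ N → ∀ R : ℝ, 0 < R → ∀ x y : ℝ,
  (x, y) ∈ D2 N R → x ^ 2 + y ^ 2 ≤ ((1 + δ) * R) ^ 2

/-- the points outside `D2 N R` for which the bound of the average is more than `79/100` -/
def Bad2 (N : ℕ) (ε R : ℝ) : Set (ℝ × ℝ) :=
  {z | z ∉ D2 N R ∧ ∀ j < N, 0 < e1 N j R z.1 z.2 → 0 < e2 N j R z.1 z.2 →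
    79 / 100 < 3 / 4 * (Real.exp (-(e1 N j R z.1 z.2 / (2 * ε))) +
      Real.exp (-(e2 N j R z.1 z.2 / (2 * ε))))}

/-- (I2) the area of `Bad2`. A point of `Bad2` is in some wedge `j` (no nearest direction needed), and
there `79/75 < 1 + e^{-M/(2ε)}`, `M = max e1 e2`, so `M < 6 ε`: `0 < a - R < 22 ε`, `|b| < 16/5 ε` with
`a = ca`, `b = cb`; so `Bad2` is contained in a union of `N` rectangles of area at most
`22 ε * 32/5 ε < 200 ε²`. -/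
def S_AREA2 : Prop := ∀ N : ℕ, ∀ ε R : ℝ, 0 < ε → 0 < R →
  volume (Bad2 N ε R) ≤ ENNReal.ofReal (200 * N * ε ^ 2)

/-- the source bound: the indicator of `D2 N (rad t)`, for `t ≤ 1/10` -/
noncomputable def g2 (N : ℕ) (p : ST) : ℝ := by
  classical
  exact if p.1 ≤ 1 / 10 ∧ p.2 ∈ D2 N (rad p.1) then 1 else 0

/-- (J2) if `t ≤ 1/10` and `(x, y)` is in the wedge `j` then
`S ε g2 ≤ (3/4) (e^{-e1/(2ε)} + e^{-e2/(2ε)})`: along the random point `e1` becomes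
`e1 - (273/250) ε σ + ε √(2σ) ⟨n, Z⟩` with a unit vector `n`; (E') with `b = 273/250`,
`fac b ≤ 3/4` (as `b² ≤ 4/3`), `lam b ≥ 1/2` (as `b ≤ 3/2`). -/
def S_UP2 : Prop := ∀ (N j : ℕ) (ε : ℝ) (p : ST), j < N → 0 < ε → p.1 ≤ 1 / 10 →
  0 < e1 N j (rad p.1) p.2.1 p.2.2 → 0 < e2 N j (rad p.1) p.2.1 p.2.2 →
  S ε (g2 N) p ≤ 3 / 4 * (Real.exp (-(e1 N j (rad p.1) p.2.1 p.2.2 / (2 * ε))) +
    Real.exp (-(e2 N j (rad p.1) p.2.1 p.2.2 / (2 * ε))))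

end Pool.Agent.W5h10.SI
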