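import Mathlib
import Pool.Agent.W5h10.SI.Defs

/-! # The disc and the complement of the wedges (parts G and H of the interface) -/

set_option autoImplicit false

open MeasureTheory Set Filter Topology

namespace Pool.Agent.W5h10.SI

namespace OutP

theorem inn_aux (N : ℕ) (R : ℝ) (hR : 0 < R) (x y : ℝ) (h : x ^ 2 + y ^ 2 < R ^ 2) (j : ℕ) :
    ca N j x y < R := by
  have h1 : ca N j x y ^ 2 ≤ x ^ 2 + y ^ 2 := by
    unfold ca
    set c := Real.cos (2 * Real.pi * j / N)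
    set s := Real.sin (2 * Real.pi * j / N)
    have hcs : c ^ 2 + s ^ 2 = 1 := by
      rw [add_comm]; exact Real.sin_sq_add_cos_sq _
    nlinarith [sq_nonneg (x * s - y * c)]
  have h2 : ca N j x y ^ 2 < R ^ 2 := lt_of_le_of_lt h1 h
  exact (abs_lt.1 (abs_lt_of_sq_lt_sq h2 hR.le)).2

/-- the squares of the two components add up -/
theorem sq_sum (N j : ℕ) (x y : ℝ) : ca N j x y ^ 2 + cb N j x y ^ 2 = x ^ 2 + y ^ 2 := by
  unfold ca cb
  set c := Real.cos (2 * Real.pi * j / N)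
  set s := Real.sin (2 * Real.pi * j / N)
  have hcs : c ^ 2 + s ^ 2 = 1 := by
    rw [add_comm]; exact Real.sin_sq_add_cos_sq _
  have : (x * c + y * s) ^ 2 + (-x * s + y * c) ^ 2 = (x ^ 2 + y ^ 2) * (c ^ 2 + s ^ 2) := by ring
  rw [this, hcs, mul_one]

theorem ca_succ (N j : ℕ) (x y : ℝ) : ca N (j + 1) x y =
    ca N j x y * Real.cos (2 * Real.pi / N) + cb N j x y * Real.sin (2 * Real.pi / N) := by
  have h : 2 * Real.pi * ((j + 1 : ℕ) : ℝ) / N = 2 * Real.pi * j / N + 2 * Real.pi / N := by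
    push_cast; ring
  unfold ca cb
  rw [h, Real.cos_add, Real.sin_add]
  ring

theorem ca_pred (N j : ℕ) (x y : ℝ) : ca N j x y =
    ca N (j + 1) x y * Real.cos (2 * Real.pi / N) - cb N (j + 1) x y * Real.sin (2 * Real.pi / N) := by
  have h : 2 * Real.pi * (j : ℝ) / N = 2 * Real.pi * ((j + 1 : ℕ) : ℝ) / N - 2 * Real.pi / N := by
    push_cast; ring
  conv_lhs => unfold ca
  unfold ca cb
  rw [h, Real.cos_sub, Real.sin_sub]
  ring

theorem ca_per (N : ℕ) (hN : 0 < N) (x y : ℝ) : ca N N x y = ca N 0 x y ∧ cb N N x y = cb N 0 x y := by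
  have h : 2 * Real.pi * (N : ℝ) / N = 2 * Real.pi := by
    have : (N : ℝ) ≠ 0 := by positivity
    field_simp
  unfold ca cb
  rw [h]
  simp

/-- The direction `j < N` with the largest component `a = ca` satisfies `|b| ≤ a tan (π / N)`. -/
theorem nearest (N : ℕ) (hN : 3 ≤ N) (x y : ℝ) : ∃ j < N, (∀ i < N, ca N i x y ≤ ca N j x y) ∧
    |cb N j x y| * Real.cos (Real.pi / N) ≤ ca N j x y * Real.sin (Real.pi / N) := by
  obtain ⟨j, hj, hmax⟩ := Finset.exists_max_image (Finset.range N) (fun i => ca N i x y)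
    ⟨0, Finset.mem_range.2 (by omega)⟩
  rw [Finset.mem_range] at hj
  have hmax' : ∀ i < N, ca N i x y ≤ ca N j x y := fun i hi => hmax i (Finset.mem_range.2 hi)
  refine ⟨j, hj, hmax', ?_⟩
  have hN0 : (0 : ℝ) < N := by positivity
  have hN3 : (3 : ℝ) ≤ N := by exact_mod_cast hN
  set ψ := Real.pi / N with hψ
  have h2 : 2 * Real.pi / N = 2 * ψ := by rw [hψ]; ring
  have hψ0 : 0 < ψ := div_pos Real.pi_pos hN0
  have hψ1 : ψ ≤ Real.pi / 3 := div_le_div_of_nonneg_left Real.pi_pos.le (by norm_num) hN3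
  have hs : 0 < Real.sin ψ := Real.sin_pos_of_pos_of_lt_pi hψ0 (by linarith [Real.pi_pos])
  -- next direction
  have hnext : ca N j x y * Real.cos (2 * ψ) + cb N j x y * Real.sin (2 * ψ) ≤ ca N j x y := by
    rw [← h2, ← ca_succ]
    rcases Nat.lt_or_ge (j + 1) N with h | h
    · exact hmax' _ h
    · have : j + 1 = N := by omega
      rw [this, (ca_per N (by omega) x y).1]
      exact hmax' 0 (by omega)
  have hprev : ca N j x y * Real.cos (2 * ψ) - cb N j x y * Real.sin (2 * ψ) ≤ ca N j x y := by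
    rw [← h2]
    rcases Nat.eq_zero_or_pos j with h | h
    · subst h
      have h3 := ca_pred N (N - 1) x y
      have h4 : N - 1 + 1 = N := by omega
      rw [h4, (ca_per N (by omega) x y).1, (ca_per N (by omega) x y).2] at h3
      rw [← h3]
      exact hmax' _ (by omega)
    · have h3 := ca_pred N (j - 1) x y
      have h4 : j - 1 + 1 = j := by omega
      rw [h4] at h3
      rw [← h3]
      exact hmax' _ (by omega)
  have hc2 : Real.cos (2 * ψ) = 1 - 2 * Real.sin ψ ^ 2 := by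
    rw [Real.cos_two_mul, Real.cos_sq']; ring
  have hs2 : Real.sin (2 * ψ) = 2 * Real.sin ψ * Real.cos ψ := Real.sin_two_mul ψ
  rw [hc2, hs2] at hnext hprev
  have k1 : cb N j x y * Real.cos ψ ≤ ca N j x y * Real.sin ψ := by
    have : 2 * Real.sin ψ * (cb N j x y * Real.cos ψ) ≤ 2 * Real.sin ψ * (ca N j x y * Real.sin ψ) := by
      nlinarith
    exact le_of_mul_le_mul_left this (by positivity)
  have k2 : -cb N j x y * Real.cos ψ ≤ ca N j x y * Real.sin ψ := by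
    have : 2 * Real.sin ψ * (-cb N j x y * Real.cos ψ) ≤
        2 * Real.sin ψ * (ca N j x y * Real.sin ψ) := by
      nlinarith
    exact le_of_mul_le_mul_left this (by positivity)
  rcases abs_choice (cb N j x y) with h | h <;> rw [h]
  · exact k1
  · exact k2

/-- small angles -/
theorem small_angle (ψ : ℝ) (h0 : 0 < ψ) (h1 : ψ ≤ 1 / 10) :
    0 < Real.cos ψ ∧ Real.sin ψ ≤ 2 * ψ * Real.cos ψ := by
  have hs : Real.sin ψ ≤ ψ := Real.sin_le h0.le
  have hc : 1 - ψ ^ 2 / 2 ≤ Real.cos ψ := Real.one_sub_sq_div_two_le_cos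
  constructor
  · nlinarith
  · nlinarith

end OutP

open OutP

theorem inn : S_IN := by
  intro N R hR x y h j hj
  have h1 := inn_aux N R hR x y h j
  by_contra h2
  push Not at h2
  obtain ⟨h3, h4⟩ := h2
  unfold d1 at h3
  unfold d2 at h4
  linarith

theorem out : S_OUT := by
  intro δ hδ
  -- choose `τ` small: `(1 + τ²) ≤ (1 + δ)² (1 - 12/5 τ)²`
  obtain ⟨τ, hτ0, hτ1, hτ⟩ : ∃ τ : ℝ, 0 < τ ∧ τ ≤ 1 / 10 ∧
      1 + τ ^ 2 ≤ ((1 + δ) * (1 - 12 / 5 * τ)) ^ 2 := by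
    have hc : Tendsto (fun τ : ℝ => ((1 + δ) * (1 - 12 / 5 * τ)) ^ 2 - (1 + τ ^ 2)) (𝓝[>] 0)
        (𝓝 (((1 + δ) * (1 - 12 / 5 * 0)) ^ 2 - (1 + 0 ^ 2))) := by
      apply tendsto_nhdsWithin_of_tendsto_nhds
      exact (by fun_prop : Continuous fun τ : ℝ =>
        ((1 + δ) * (1 - 12 / 5 * τ)) ^ 2 - (1 + τ ^ 2)).tendsto 0
    have hp : (0 : ℝ) < ((1 + δ) * (1 - 12 / 5 * 0)) ^ 2 - (1 + 0 ^ 2) := by nlinarith
    have h1 := hc.eventually (lt_mem_nhds hp)
    have h2 : ∀ᶠ τ : ℝ in 𝓝[>] 0, 0 < τ := eventually_mem_nhdsWithin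
    have h3 : ∀ᶠ τ : ℝ in 𝓝[>] 0, τ ≤ 1 / 10 :=
      eventually_nhdsWithin_of_eventually_nhds (ge_mem_nhds (by norm_num))
    obtain ⟨τ, a, b, c⟩ := (h1.and (h2.and h3)).exists
    exact ⟨τ, b, c, by linarith⟩
  obtain ⟨M, hM⟩ := exists_nat_gt (2 * Real.pi / τ)
  refine ⟨max M 100, fun N hN R hR x y hD => ?_⟩
  have hN1 : M ≤ N := le_trans (le_max_left _ _) hN
  have hN2 : 100 ≤ N := le_trans (le_max_right _ _) hN
  have hN0 : (0 : ℝ) < N := by positivity
  have hN100 : (100 : ℝ) ≤ N := by exact_mod_cast hN2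
  set ψ := Real.pi / N with hψ
  have hψ0 : 0 < ψ := div_pos Real.pi_pos hN0
  have hψ1 : ψ ≤ 1 / 10 := by
    rw [hψ, div_le_iff₀ hN0]
    have := Real.pi_lt_four
    linarith
  have hψτ : 2 * ψ ≤ τ := by
    have h1 : 2 * Real.pi / τ < N := lt_of_lt_of_le hM (by exact_mod_cast hN1)
    rw [div_lt_iff₀ hτ0] at h1
    rw [hψ, show 2 * (Real.pi / N) = 2 * Real.pi / N by ring, div_le_iff₀ hN0]
    linarith
  obtain ⟨hc, hs⟩ := small_angle ψ hψ0 hψ1
  obtain ⟨j, hj, hmax, hb⟩ := nearest N (by omega) x y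
  set a := ca N j x y with ha
  set b := cb N j x y with hbdef
  have hsq : a ^ 2 + b ^ 2 = x ^ 2 + y ^ 2 := sq_sum N j x y
  -- `|b| ≤ a τ`
  have ha0 : 0 ≤ a := by
    have h1 : 0 ≤ a * Real.sin ψ := le_trans (by positivity) hb
    have h2 : 0 < Real.sin ψ := Real.sin_pos_of_pos_of_lt_pi hψ0 (by linarith [Real.pi_gt_three])
    exact nonneg_of_mul_nonneg_left h1 h2
  have hbτ : |b| ≤ a * τ := by
    have h1 : |b| * Real.cos ψ ≤ (a * τ) * Real.cos ψ := by
      refine le_trans hb ?_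
      have h2 : a * Real.sin ψ ≤ a * (2 * ψ * Real.cos ψ) := mul_le_mul_of_nonneg_left hs ha0
      have h3 : a * (2 * ψ * Real.cos ψ) ≤ a * (τ * Real.cos ψ) :=
        mul_le_mul_of_nonneg_left (mul_le_mul_of_nonneg_right hψτ hc.le) ha0
      calc a * Real.sin ψ ≤ a * (τ * Real.cos ψ) := le_trans h2 h3
        _ = (a * τ) * Real.cos ψ := by ring
    exact le_of_mul_le_mul_right h1 hc
  -- the point is not in the wedge `j`
  have hw : 5 * (a - R) ≤ 12 * |b| := by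
    rcases hD j hj with h | h
    · unfold d1 at h
      have h5 : 5 * (a - R) - 12 * b ≤ 0 := by
        have := h
        change (5 * (a - R) - 12 * b) / 13 ≤ 0 at this
        linarith
      linarith [le_abs_self b]
    · unfold d2 at h
      have h5 : 5 * (a - R) + 12 * b ≤ 0 := by
        have := h
        change (5 * (a - R) + 12 * b) / 13 ≤ 0 at this
        linarith
      linarith [neg_abs_le b]
  have haR : a * (1 - 12 / 5 * τ) ≤ R := by linarith
  have h12 : 0 < 1 - 12 / 5 * τ := by linarith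
  have hb2 : b ^ 2 ≤ a ^ 2 * τ ^ 2 := by
    rw [← sq_abs b, ← mul_pow]
    exact pow_le_pow_left₀ (abs_nonneg b) hbτ 2
  rw [← hsq]
  have h1 : a ^ 2 + b ^ 2 ≤ a ^ 2 * (1 + τ ^ 2) := by linarith
  have h2 : a ^ 2 * (1 + τ ^ 2) ≤ a ^ 2 * ((1 + δ) * (1 - 12 / 5 * τ)) ^ 2 :=
    mul_le_mul_of_nonneg_left hτ (sq_nonneg a)
  have h3 : a ^ 2 * ((1 + δ) * (1 - 12 / 5 * τ)) ^ 2 = ((1 + δ) * (a * (1 - 12 / 5 * τ))) ^ 2 := by
    ring
  have h4 : ((1 + δ) * (a * (1 - 12 / 5 * τ))) ^ 2 ≤ ((1 + δ) * R) ^ 2 := by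
    apply pow_le_pow_left₀
    · exact mul_nonneg (by linarith) (mul_nonneg ha0 h12.le)
    · exact mul_le_mul_of_nonneg_left haR (by linarith)
  linarith

end Pool.Agent.W5h10.SI
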