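import Mathlib
import Pool.Agent.W5h10.SI.Defs2
import Pool.Agent.W5h10.SI.Out

/-! # The disc and the complement of the narrow wedges (parts G2 and H2) -/

set_option autoImplicit false

open MeasureTheory Set Filter Topology

namespace Pool.Agent.W5h10.SI

open OutP

theorem inn2 : S_IN2 := by
  intro N R hR x y h j hj
  have h1 := inn_aux N R hR x y h j
  by_contra h2
  push Not at h2
  obtain ⟨h3, h4⟩ := h2
  unfold e1 at h3
  unfold e2 at h4
  linarith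

theorem out2 : S_OUT2 := by
  intro δ hδ
  -- choose `τ` small: `(1 + τ²) ≤ (1 + δ)² (1 - 12/5 τ)²`
  obtain ⟨τ, hτ0, hτ1, hτ⟩ : ∃ τ : ℝ, 0 < τ ∧ τ ≤ 1 / 10 ∧
      1 + τ ^ 2 ≤ ((1 + δ) * (1 - 24 / 7 * τ)) ^ 2 := by
    have hc : Tendsto (fun τ : ℝ => ((1 + δ) * (1 - 24 / 7 * τ)) ^ 2 - (1 + τ ^ 2)) (𝓝[>] 0)
        (𝓝 (((1 + δ) * (1 - 24 / 7 * 0)) ^ 2 - (1 + 0 ^ 2))) := by
      apply tendsto_nhdsWithin_of_tendsto_nhds
      exact (by fun_prop : Continuous fun τ : ℝ =>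
        ((1 + δ) * (1 - 24 / 7 * τ)) ^ 2 - (1 + τ ^ 2)).tendsto 0
    have hp : (0 : ℝ) < ((1 + δ) * (1 - 24 / 7 * 0)) ^ 2 - (1 + 0 ^ 2) := by nlinarith
    have h1 := hc.eventually (lt_mem_nhds hp)
    have h2 : ∀ᶠ τ : ℝ in 𝓝[>] 0, 0 < τ := eventually_mem_nhdsWithin
    have h3 : ∀ᶠ τ : ℝ in 𝓝[>] 0, τ ≤ 1 / 10 :=
      eventually_nhdsWithin_of_eventually_nhds (ge_mem_nhds (by norm_num))
    obtain ⟨τ, a, b, c⟩ := (h1.and (h2.and h3)).exists
    exact ⟨τ, b, c, by linarith⟩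
  obtain ⟨M, hM⟩ := exists_nat_gt (2 * Real.pi / τ)
  refine ⟨max M 100, fun N hN R hR x y hD => ?_⟩
  have hN1 : M ≤ N := le_trans (le_max_left _ _) hN
  have hN2 : 100 ≤ N := le_trans (le_max_right _ _) hN
  have hN0 : (0 : ℝ) < N := by positivity
  have hN100 : (100 : ℝ) ≤ N := by exact_mod_cast hN2
  set ψ := Real.pi / N with hψ
  have hψ0 : 0 < ψ := div_pos Real.pi_pos hN0
  have hψ1 : ψ ≤ 1 / 10 := by
    rw [hψ, div_le_iff₀ hN0]
    have := Real.pi_lt_four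
    linarith
  have hψτ : 2 * ψ ≤ τ := by
    have h1 : 2 * Real.pi / τ < N := lt_of_lt_of_le hM (by exact_mod_cast hN1)
    rw [div_lt_iff₀ hτ0] at h1
    rw [hψ, show 2 * (Real.pi / N) = 2 * Real.pi / N by ring, div_le_iff₀ hN0]
    linarith
  obtain ⟨hc, hs⟩ := small_angle ψ hψ0 hψ1
  obtain ⟨j, hj, hmax, hb⟩ := nearest N (by omega) x y
  set a := ca N j x y with ha
  set b := cb N j x y with hbdef
  have hsq : a ^ 2 + b ^ 2 = x ^ 2 + y ^ 2 := sq_sum N j x y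
  -- `|b| ≤ a τ`
  have ha0 : 0 ≤ a := by
    have h1 : 0 ≤ a * Real.sin ψ := le_trans (by positivity) hb
    have h2 : 0 < Real.sin ψ := Real.sin_pos_of_pos_of_lt_pi hψ0 (by linarith [Real.pi_gt_three])
    exact nonneg_of_mul_nonneg_left h1 h2
  have hbτ : |b| ≤ a * τ := by
    have h1 : |b| * Real.cos ψ ≤ (a * τ) * Real.cos ψ := by
      refine le_trans hb ?_
      have h2 : a * Real.sin ψ ≤ a * (2 * ψ * Real.cos ψ) := mul_le_mul_of_nonneg_left hs ha0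
      have h3 : a * (2 * ψ * Real.cos ψ) ≤ a * (τ * Real.cos ψ) :=
        mul_le_mul_of_nonneg_left (mul_le_mul_of_nonneg_right hψτ hc.le) ha0
      calc a * Real.sin ψ ≤ a * (τ * Real.cos ψ) := le_trans h2 h3
        _ = (a * τ) * Real.cos ψ := by ring
    exact le_of_mul_le_mul_right h1 hc
  -- the point is not in the wedge `j`
  have hw : 7 * (a - R) ≤ 24 * |b| := by
    rcases hD j hj with h | h
    · unfold e1 at h
      have h5 : 7 * (a - R) - 24 * b ≤ 0 := by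
        have := h
        change (7 * (a - R) - 24 * b) / 25 ≤ 0 at this
        linarith
      linarith [le_abs_self b]
    · unfold e2 at h
      have h5 : 7 * (a - R) + 24 * b ≤ 0 := by
        have := h
        change (7 * (a - R) + 24 * b) / 25 ≤ 0 at this
        linarith
      linarith [neg_abs_le b]
  have haR : a * (1 - 24 / 7 * τ) ≤ R := by linarith
  have h12 : 0 < 1 - 24 / 7 * τ := by linarith
  have hb2 : b ^ 2 ≤ a ^ 2 * τ ^ 2 := by
    rw [← sq_abs b, ← mul_pow]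
    exact pow_le_pow_left₀ (abs_nonneg b) hbτ 2
  rw [← hsq]
  have h1 : a ^ 2 + b ^ 2 ≤ a ^ 2 * (1 + τ ^ 2) := by linarith
  have h2 : a ^ 2 * (1 + τ ^ 2) ≤ a ^ 2 * ((1 + δ) * (1 - 24 / 7 * τ)) ^ 2 :=
    mul_le_mul_of_nonneg_left hτ (sq_nonneg a)
  have h3 : a ^ 2 * ((1 + δ) * (1 - 24 / 7 * τ)) ^ 2 = ((1 + δ) * (a * (1 - 24 / 7 * τ))) ^ 2 := by
    ring
  have h4 : ((1 + δ) * (a * (1 - 24 / 7 * τ))) ^ 2 ≤ ((1 + δ) * R) ^ 2 := by
    apply pow_le_pow_left₀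
    · exact mul_nonneg (by linarith) (mul_nonneg ha0 h12.le)
    · exact mul_le_mul_of_nonneg_left haR (by linarith)
  linarith

end Pool.Agent.W5h10.SI
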