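import Pool.Agent.W5h10.SI.Defs

/-! (E): the law of `b σ + √(2σ) Z` is an asymmetric Laplace law. -/

set_option autoImplicit false

open MeasureTheory Set Filter Topology ProbabilityTheory
open scoped ENNReal NNReal

namespace Pool.Agent.W5h10.SI

/-- exponential density on the positive half-line -/
noncomputable def prP (A l : ℝ) : Measure ℝ :=
  (volume.restrict (Ioi 0)).withDensity fun x => ENNReal.ofReal (A * Real.exp (-l * x))

/-- exponential density on the negative half-line -/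
noncomputable def prM (A l : ℝ) : Measure ℝ :=
  (volume.restrict (Iic 0)).withDensity fun x => ENNReal.ofReal (A * Real.exp (l * x))

lemma prP_fin {A l : ℝ} (hl : 0 < l) : IsFiniteMeasure (prP A l) :=
  isFiniteMeasure_withDensity_ofReal
    ((integrableOn_exp_mul_Ioi (a := -l) (by linarith) 0).const_mul A).2

lemma prM_fin {A l : ℝ} (hl : 0 < l) : IsFiniteMeasure (prM A l) :=
  isFiniteMeasure_withDensity_ofReal
    ((integrableOn_exp_mul_Iic (a := l) hl 0).const_mul A).2

lemma int_prP {A l : ℝ} (hA : 0 ≤ A) (f : ℝ → ℂ) :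
    ∫ x, f x ∂(prP A l) = ∫ x in Ioi (0 : ℝ), (A * Real.exp (-l * x) : ℝ) * f x := by
  rw [prP, integral_withDensity_eq_integral_toReal_smul (by fun_prop)
    (Eventually.of_forall fun _ => ENNReal.ofReal_lt_top)]
  refine integral_congr_ae (Eventually.of_forall fun x => ?_)
  simp only
  rw [ENNReal.toReal_ofReal (by positivity), Complex.real_smul]

lemma int_prM {A l : ℝ} (hA : 0 ≤ A) (f : ℝ → ℂ) :
    ∫ x, f x ∂(prM A l) = ∫ x in Iic (0 : ℝ), (A * Real.exp (l * x) : ℝ) * f x := by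
  rw [prM, integral_withDensity_eq_integral_toReal_smul (by fun_prop)
    (Eventually.of_forall fun _ => ENNReal.ofReal_lt_top)]
  refine integral_congr_ae (Eventually.of_forall fun x => ?_)
  simp only
  rw [ENNReal.toReal_ofReal (by positivity), Complex.real_smul]

lemma char_prP {A l : ℝ} (hA : 0 ≤ A) (hl : 0 < l) (z : ℂ) (hz : z.re ≤ 0) :
    ∫ x : ℝ, Complex.exp (z * x) ∂(prP A l) = A / (l - z) := by
  rw [int_prP hA]
  have h : ∀ x : ℝ, ((A * Real.exp (-l * x) : ℝ) : ℂ) * Complex.exp (z * x) =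
      A * Complex.exp ((-l + z) * x) := by
    intro x
    push_cast
    rw [mul_assoc, ← Complex.exp_add]
    ring_nf
  simp only [h]
  rw [integral_const_mul, integral_exp_mul_complex_Ioi (by simp; linarith) 0]
  rw [Complex.ofReal_zero, mul_zero, Complex.exp_zero]
  have h2 : (-(l : ℂ) + z) = -(l - z) := by ring
  rw [h2, neg_div_neg_eq, mul_one_div]

lemma char_prM {A l : ℝ} (hA : 0 ≤ A) (hl : 0 < l) (z : ℂ) (hz : 0 ≤ z.re) :
    ∫ x : ℝ, Complex.exp (z * x) ∂(prM A l) = A / (l + z) := by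
  rw [int_prM hA]
  have h : ∀ x : ℝ, ((A * Real.exp (l * x) : ℝ) : ℂ) * Complex.exp (z * x) =
      A * Complex.exp ((l + z) * x) := by
    intro x
    push_cast
    rw [mul_assoc, ← Complex.exp_add]
    ring_nf
  simp only [h]
  rw [integral_const_mul, integral_exp_mul_complex_Iic (by simp; linarith) 0]
  rw [Complex.ofReal_zero, mul_zero, Complex.exp_zero, mul_one_div]

lemma pf_ex_eq : ex = prP 1 1 := by
  unfold ex prP
  congr 1
  ext s
  simp

lemma pf_ex_prob : IsProbabilityMeasure ex := by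
  have hf : IsFiniteMeasure ex := by
    rw [pf_ex_eq]
    exact prP_fin one_pos
  have h := char_prP (A := 1) (l := 1) zero_le_one one_pos 0 (by simp)
  rw [← pf_ex_eq] at h
  simp only [zero_mul, Complex.exp_zero, integral_const, sub_zero] at h
  constructor
  have h2 : ex.real univ = 1 := by
    have h3 : ((ex.real univ : ℝ) : ℂ) = 1 := by simpa using h
    exact_mod_cast h3
  rw [measureReal_def] at h2
  exact (ENNReal.toReal_eq_one_iff _).1 h2

lemma pf_char_inner (b ξ s : ℝ) (hs : 0 < s) :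
    ∫ z : ℝ, Complex.exp (ξ * ((b * s + √(2 * s) * z : ℝ) : ℂ) * Complex.I) ∂ga =
      Complex.exp ((ξ * b * Complex.I - ξ ^ 2) * s) := by
  have h : ∀ z : ℝ, Complex.exp (ξ * ((b * s + √(2 * s) * z : ℝ) : ℂ) * Complex.I) =
      Complex.exp (ξ * b * s * Complex.I) *
        Complex.exp (((ξ * √(2 * s) : ℝ) : ℂ) * z * Complex.I) := by
    intro z
    rw [← Complex.exp_add]
    push_cast
    ring_nf
  simp only [h]
  rw [integral_const_mul, ← charFun_apply_real, ga, charFun_gaussianReal, ← Complex.exp_add]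
  congr 1
  have h2 : ((ξ * √(2 * s) : ℝ) : ℂ) ^ 2 = 2 * ξ ^ 2 * s := by
    rw [← Complex.ofReal_pow, mul_pow, Real.sq_sqrt (by linarith)]
    push_cast
    ring
  rw [h2]
  push_cast
  ring

lemma pf_meas_X (b : ℝ) : Measurable fun w : ℝ × ℝ => b * w.1 + √(2 * w.1) * w.2 := by
  fun_prop

lemma pf_char_X (b ξ : ℝ) :
    charFun ((ex.prod ga).map fun w : ℝ × ℝ => b * w.1 + √(2 * w.1) * w.2) ξ =
      1 / (1 + ξ ^ 2 - ξ * b * Complex.I) := by
  have hp : IsProbabilityMeasure ex := pf_ex_prob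
  have hg : IsProbabilityMeasure ga := by
    unfold ga
    infer_instance
  rw [charFun_apply_real, integral_map (pf_meas_X b).aemeasurable (by fun_prop)]
  rw [integral_prod]
  · have hex : ∫ s : ℝ, (∫ z : ℝ, Complex.exp (ξ * ((b * s + √(2 * s) * z : ℝ) : ℂ) * Complex.I) ∂ga)
        ∂ex = ∫ s : ℝ, Complex.exp ((ξ * b * Complex.I - ξ ^ 2) * s) ∂ex := by
      rw [pf_ex_eq, int_prP zero_le_one, int_prP zero_le_one]
      refine setIntegral_congr_fun measurableSet_Ioi fun s hs => ?_
      rw [pf_char_inner b ξ s hs]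
    rw [hex, pf_ex_eq, char_prP zero_le_one one_pos]
    · congr 1
      push_cast
      ring
    · simp only [Complex.sub_re, Complex.mul_re, Complex.ofReal_re, Complex.I_re, mul_zero,
        Complex.mul_im, Complex.ofReal_im, Complex.I_im]
      have : ((ξ : ℂ) ^ 2).re = ξ ^ 2 := by
        rw [← Complex.ofReal_pow, Complex.ofReal_re]
      rw [this]
      nlinarith [sq_nonneg ξ]
  · refine (integrable_const (1 : ℝ)).mono' ?_ (Eventually.of_forall fun w => ?_)
    · apply Measurable.aestronglyMeasurable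
      fun_prop
    · rw [show (ξ : ℂ) * ((b * w.1 + √(2 * w.1) * w.2 : ℝ) : ℂ) * Complex.I =
        ((ξ * (b * w.1 + √(2 * w.1) * w.2) : ℝ) : ℂ) * Complex.I by push_cast; ring,
        Complex.norm_exp_ofReal_mul_I]

lemma pf_lam_pos (b : ℝ) : 0 < lam b := by
  unfold lam
  have h : |b| < √(b ^ 2 + 4) := by
    rw [← Real.sqrt_sq_eq_abs]
    exact Real.sqrt_lt_sqrt (sq_nonneg b) (by linarith)
  have := le_abs_self b
  linarith

lemma pf_lam_mul (b : ℝ) : lam b * lam (-b) = 1 := by
  unfold lam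
  have h : √(b ^ 2 + 4) ^ 2 = b ^ 2 + 4 := Real.sq_sqrt (by positivity)
  rw [neg_sq]
  nlinarith

/-- the law of `b σ + √(2σ) Z` -/
lemma pf_law_X (b : ℝ) : ((ex.prod ga).map fun w : ℝ × ℝ => b * w.1 + √(2 * w.1) * w.2) =
    prP (1 / √(b ^ 2 + 4)) (lam b) + prM (1 / √(b ^ 2 + 4)) (lam (-b)) := by
  have hp : IsProbabilityMeasure ex := pf_ex_prob
  have hg : IsProbabilityMeasure ga := by
    unfold ga
    infer_instance
  have h1 : IsFiniteMeasure (prP (1 / √(b ^ 2 + 4)) (lam b)) := prP_fin (pf_lam_pos b)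
  have h2 : IsFiniteMeasure (prM (1 / √(b ^ 2 + 4)) (lam (-b))) := prM_fin (pf_lam_pos (-b))
  have h0 : IsProbabilityMeasure ((ex.prod ga).map fun w : ℝ × ℝ => b * w.1 + √(2 * w.1) * w.2) :=
    Measure.isProbabilityMeasure_map (pf_meas_X b).aemeasurable
  have hA : 0 ≤ 1 / √(b ^ 2 + 4) := by positivity
  have hsq : 0 < √(b ^ 2 + 4) := Real.sqrt_pos.2 (by positivity)
  have hint : ∀ (μ : Measure ℝ) [IsFiniteMeasure μ] (ξ : ℝ),
      Integrable (fun x : ℝ => Complex.exp (ξ * x * Complex.I)) μ := by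
    intro μ _ ξ
    refine (integrable_const (1 : ℝ)).mono' ?_ (Eventually.of_forall fun x => ?_)
    · apply Measurable.aestronglyMeasurable
      fun_prop
    · rw [← Complex.ofReal_mul, Complex.norm_exp_ofReal_mul_I]
  apply Measure.ext_of_charFun
  ext ξ
  rw [pf_char_X, charFun_apply_real, integral_add_measure (hint _ ξ) (hint _ ξ)]
  have hz : ∀ x : ℝ, Complex.exp (ξ * x * Complex.I) = Complex.exp ((ξ * Complex.I) * x) := by
    intro x
    ring_nf
  simp only [hz]
  rw [char_prP hA (pf_lam_pos b) _ (by simp), char_prM hA (pf_lam_pos (-b)) _ (by simp)]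
  have e1 : ((lam b : ℂ) - ξ * Complex.I) ≠ 0 := by
    intro h
    have := congrArg Complex.re h
    simp at this
    exact (pf_lam_pos b).ne' this
  have e2 : ((lam (-b) : ℂ) + ξ * Complex.I) ≠ 0 := by
    intro h
    have := congrArg Complex.re h
    simp at this
    exact (pf_lam_pos (-b)).ne' this
  have e3 : ((lam b : ℂ) - ξ * Complex.I) * ((lam (-b) : ℂ) + ξ * Complex.I) =
      1 + ξ ^ 2 - ξ * b * Complex.I := by
    have h3 : ((lam b : ℝ) : ℂ) * ((lam (-b) : ℝ) : ℂ) = 1 := by exact_mod_cast pf_lam_mul b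
    have h4 : ((lam b : ℝ) : ℂ) - ((lam (-b) : ℝ) : ℂ) = -b := by
      have : lam b - lam (-b) = -b := by
        unfold lam
        rw [neg_sq]
        ring
      exact_mod_cast this
    linear_combination h3 + ξ * Complex.I * h4 - ξ ^ 2 * Complex.I_sq
  have e4 : ((lam b : ℝ) : ℂ) + ((lam (-b) : ℝ) : ℂ) = (√(b ^ 2 + 4) : ℝ) := by
    have : lam b + lam (-b) = √(b ^ 2 + 4) := by
      unfold lam
      rw [neg_sq]
      ring
    exact_mod_cast this
  have e5 : ((√(b ^ 2 + 4) : ℝ) : ℂ) ≠ 0 := by exact_mod_cast hsq.ne'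
  rw [← e3, div_add_div _ _ e1 e2]
  congr 1
  push_cast
  have : (1 / ((√(b ^ 2 + 4) : ℝ) : ℂ)) * (((lam b : ℝ) : ℂ) + ((lam (-b) : ℝ) : ℂ)) = 1 := by
    rw [e4]
    field_simp
  linear_combination -this

/-- (E) -/
theorem prof : S_PROF := by
  intro b x hx
  have h1 : (ex.prod ga) {w | x ≤ b * w.1 + √(2 * w.1) * w.2} =
      ((ex.prod ga).map fun w : ℝ × ℝ => b * w.1 + √(2 * w.1) * w.2) (Ici x) := by
    rw [Measure.map_apply (pf_meas_X b) measurableSet_Ici]
    rfl
  have hsq : 0 < √(b ^ 2 + 4) := Real.sqrt_pos.2 (by positivity)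
  have hA : 0 ≤ 1 / √(b ^ 2 + 4) := by positivity
  rw [h1, pf_law_X, Measure.add_apply]
  have h2 : prM (1 / √(b ^ 2 + 4)) (lam (-b)) (Ici x) = 0 := by
    rw [prM, withDensity_apply _ measurableSet_Ici, Measure.restrict_restrict measurableSet_Ici]
    apply setLIntegral_measure_zero
    refine measure_mono_null (t := {0}) ?_ (by simp)
    intro y hy
    have := hy.1
    have := hy.2
    simp only [mem_Ici, mem_Iic] at *
    exact le_antisymm (by assumption) (by linarith)
  rw [h2, add_zero, prP, withDensity_apply _ measurableSet_Ici,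
    Measure.restrict_restrict measurableSet_Ici]
  have h3 : (Ici x ∩ Ioi 0 : Set ℝ) =ᵐ[volume] Ioi x := by
    have h4 : (Ici x ∩ Ioi 0 : Set ℝ) =ᵐ[volume] (Ioi x ∩ Ioi 0 : Set ℝ) :=
      (Ioi_ae_eq_Ici (a := x)).symm.inter (ae_eq_refl _)
    rwa [Ioi_inter_Ioi, sup_eq_left.2 hx] at h4
  rw [Measure.restrict_congr_set h3, ← ofReal_integral_eq_lintegral_ofReal
    ((integrableOn_exp_mul_Ioi (a := -lam b) (by linarith [pf_lam_pos b]) x).const_mul _)
    (Eventually.of_forall fun y => by positivity), integral_const_mul,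
    integral_exp_mul_Ioi (by linarith [pf_lam_pos b])]
  congr 1
  have h5 : 1 / √(b ^ 2 + 4) * (1 / lam b) = fac b := by
    have h6 : 1 / lam b = lam (-b) := by
      rw [div_eq_iff (pf_lam_pos b).ne', mul_comm]
      exact (pf_lam_mul b).symm
    rw [h6]
    unfold lam fac
    rw [neg_sq]
    field_simp
    ring
  rw [← h5]
  have := (pf_lam_pos b).ne'
  rw [neg_div_neg_eq]
  ring_nf

end Pool.Agent.W5h10.SI
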