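import Mathlib
import Pool.Agent.W5h10.SI.Defs2

/-! # (J2) the bound of the average in a narrow wedge -/

set_option autoImplicit false

open MeasureTheory Set Filter Topology ProbabilityTheory
open scoped ENNReal ContDiff

namespace Pool.Agent.W5h10.SI

namespace Up2P

/-- the half-plane event -/
def A (b x c s : ℝ) : Set ST := {w | x ≤ b * w.1 + √(2 * w.1) * (c * w.2.1 + s * w.2.2)}

theorem A_meas (b x c s : ℝ) : MeasurableSet (A b x c s) := by
  unfold A
  apply measurableSet_le measurable_const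
  fun_prop

theorem fac_le : fac (273 / 250) ≤ 3 / 4 := by
  have h3 : 273 / 125 ≤ √((273 / 250 : ℝ) ^ 2 + 4) := Real.le_sqrt_of_sq_le (by norm_num)
  have h1 : 0 < √((273 / 250 : ℝ) ^ 2 + 4) := by linarith
  unfold fac
  rw [div_le_div_iff₀ (by positivity) (by norm_num)]
  linarith

theorem lam_ge : 1 / 2 ≤ lam (273 / 250) := by
  have h3 : 273 / 125 ≤ √((273 / 250 : ℝ) ^ 2 + 4) := Real.le_sqrt_of_sq_le (by norm_num)
  unfold lam
  linarith

theorem A_real (h : S_HALF) (x c s : ℝ) (hcs : c ^ 2 + s ^ 2 = 1) (hx : 0 ≤ x) :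
    mu.real (A (273 / 250) x c s) ≤ 3 / 4 * Real.exp (-(1 / 2 * x)) := by
  have h1 := h (273 / 250) x c s hcs hx
  unfold Measure.real A
  have h2 : fac (273 / 250) * Real.exp (-(lam (273 / 250) * x)) ≤
      3 / 4 * Real.exp (-(1 / 2 * x)) := by
    refine mul_le_mul fac_le (Real.exp_le_exp.2 ?_) (Real.exp_pos _).le (by norm_num)
    have := mul_le_mul_of_nonneg_right lam_ge hx
    linarith
  rw [h1]
  exact ENNReal.toReal_le_of_le_ofReal (by positivity) (ENNReal.ofReal_le_ofReal h2)

end Up2P

open Up2P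

theorem up2 (h : S_HALF) (hb : S_BASIC) : S_UP2 := by
  intro N j ε p hj hε hp h1 h2
  have hmu : IsProbabilityMeasure mu := hb.1
  set c := Real.cos (2 * Real.pi * j / N) with hc
  set s := Real.sin (2 * Real.pi * j / N) with hs
  have hcs : c ^ 2 + s ^ 2 = 1 := by
    rw [add_comm]; exact Real.sin_sq_add_cos_sq _
  set D1 := e1 N j (rad p.1) p.2.1 p.2.2 with hD1
  set D2 := e2 N j (rad p.1) p.2.1 p.2.2 with hD2
  -- the two events
  set A1 := A (273 / 250) (D1 / ε) (-((7 * c + 24 * s) / 25)) (-((7 * s - 24 * c) / 25)) with hA1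
  set A2 := A (273 / 250) (D2 / ε) (-((7 * c - 24 * s) / 25)) (-((7 * s + 24 * c) / 25)) with hA2
  have m1 : MeasurableSet A1 := A_meas _ _ _ _
  have m2 : MeasurableSet A2 := A_meas _ _ _ _
  have r1 : mu.real A1 ≤ 3 / 4 * Real.exp (-(1 / 2 * (D1 / ε))) :=
    A_real h _ _ _ (by nlinarith) (div_nonneg h1.le hε.le)
  have r2 : mu.real A2 ≤ 3 / 4 * Real.exp (-(1 / 2 * (D2 / ε))) :=
    A_real h _ _ _ (by nlinarith) (div_nonneg h2.le hε.le)
  have key : ∀ w : ST, g2 N (pt ε p w) ≤ A1.indicator (fun _ => (1 : ℝ)) w +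
      A2.indicator (fun _ => (1 : ℝ)) w := by
    intro w
    have n1 : 0 ≤ A1.indicator (fun _ => (1 : ℝ)) w := indicator_nonneg (fun _ _ => zero_le_one) w
    have n2 : 0 ≤ A2.indicator (fun _ => (1 : ℝ)) w := indicator_nonneg (fun _ _ => zero_le_one) w
    unfold g2
    split_ifs with hw
    · obtain ⟨_, hw2⟩ := hw
      have k1 : e1 N j (rad (pt ε p w).1) (pt ε p w).2.1 (pt ε p w).2.2 =
          D1 - ε * (273 / 250 * w.1 + √(2 * w.1) * (-((7 * c + 24 * s) / 25) * w.2.1 +
            -((7 * s - 24 * c) / 25) * w.2.2)) := by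
        rw [hD1]
        unfold Pool.Agent.W5h10.SI.e1 ca cb rad pt
        rw [← hc, ← hs]
        simp only
        ring
      have k2 : e2 N j (rad (pt ε p w).1) (pt ε p w).2.1 (pt ε p w).2.2 =
          D2 - ε * (273 / 250 * w.1 + √(2 * w.1) * (-((7 * c - 24 * s) / 25) * w.2.1 +
            -((7 * s + 24 * c) / 25) * w.2.2)) := by
        rw [hD2]
        unfold Pool.Agent.W5h10.SI.e2 ca cb rad pt
        rw [← hc, ← hs]
        simp only
        ring
      rcases hw2 j hj with h3 | h3
      · have : w ∈ A1 := by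
          change D1 / ε ≤ _
          rw [div_le_iff₀ hε]
          have h4 := h3
          rw [k1] at h4
          linarith
        rw [indicator_of_mem this]
        linarith
      · have : w ∈ A2 := by
          change D2 / ε ≤ _
          rw [div_le_iff₀ hε]
          have h4 := h3
          rw [k2] at h4
          linarith
        rw [indicator_of_mem this]
        linarith
    · linarith
  have g0n : ∀ q, 0 ≤ g2 N q := by
    intro q
    unfold g2
    split_ifs <;> norm_num
  have hle : S ε (g2 N) p ≤ ∫ w, (A1.indicator (fun _ => (1 : ℝ)) w +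
      A2.indicator (fun _ => (1 : ℝ)) w) ∂mu := by
    unfold S
    refine integral_mono_of_nonneg (ae_of_all _ fun w => g0n _) ?_ (ae_of_all _ key)
    exact ((integrable_const (1 : ℝ)).indicator m1).add ((integrable_const (1 : ℝ)).indicator m2)
  rw [integral_add ((integrable_const (1 : ℝ)).indicator m1)
    ((integrable_const (1 : ℝ)).indicator m2), integral_indicator_const _ m1,
    integral_indicator_const _ m2] at hle
  have x1 : D1 / (2 * ε) = 1 / 2 * (D1 / ε) := by field_simp
  have x2 : D2 / (2 * ε) = 1 / 2 * (D2 / ε) := by field_simp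
  rw [x1, x2]
  simp only [smul_eq_mul, mul_one] at hle
  linarith

end Pool.Agent.W5h10.SI
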