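import Pool.Agent.W5h10.SI.Basic

/-! (B): the average is a weak solution. -/

set_option autoImplicit false

open MeasureTheory Set Filter Topology ProbabilityTheory
open scoped ENNReal ContDiff

namespace Pool.Agent.W5h10.SI

/-- the displacement -/
noncomputable def vv (ε : ℝ) (w : ST) : ST :=
  (-(ε * w.1), ε * √(2 * w.1) * w.2.1, ε * √(2 * w.1) * w.2.2)

theorem we_pt (ε : ℝ) (p w : ST) : pt ε p w = p + vv ε w := by
  refine Prod.ext ?_ (Prod.ext rfl rfl)
  simp only [pt, vv, Prod.fst_add]
  ring

theorem we_sub (ε : ℝ) (p w : ST) : (p.1 + ε * w.1, p.2.1 - ε * √(2 * w.1) * w.2.1,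
    p.2.2 - ε * √(2 * w.1) * w.2.2) = p - vv ε w := by
  refine Prod.ext ?_ (Prod.ext rfl rfl)
  simp only [vv, Prod.fst_sub]
  ring

theorem we_vv (ε : ℝ) : Measurable (vv ε) := by
  unfold vv
  fun_prop

theorem we_d {φ : ST → ℝ} (hφ : ContDiff ℝ ∞ φ) (hs : HasCompactSupport φ) (v : ST) :
    ContDiff ℝ ∞ (fun q => fderiv ℝ φ q v) ∧ HasCompactSupport (fun q => fderiv ℝ φ q v) :=
  ⟨(hφ.fderiv_right (m := ∞) (by simp)).clm_apply contDiff_const, hs.fderiv_apply ℝ v⟩

theorem we_inv : (volume : Measure ST).IsAddRightInvariant := by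
  have : (volume : Measure ST).IsAddLeftInvariant := by
    have h2 : (volume : Measure (ℝ × ℝ)).IsAddLeftInvariant := inferInstance
    exact Measure.prod.instIsAddLeftInvariant (μ := (volume : Measure ℝ))
      (ν := (volume : Measure (ℝ × ℝ)))
  infer_instance

theorem weak (h : S_ADJ) (_ : S_BASIC) : S_WEAK := by
  intro ε hε g hg hb φ hφ
  have := ba_mu
  have := we_inv
  set ψ : ST → ℝ := fun p => ε * dt φ p + ε ^ 2 * lap φ p - φ p with hψ
  have h1 := we_d hφ.smooth hφ.compact (1, 0, 0)
  have h2 := we_d hφ.smooth hφ.compact (0, 1, 0)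
  have h3 := we_d hφ.smooth hφ.compact (0, 0, 1)
  have h4 := we_d h2.1 h2.2 (0, 1, 0)
  have h5 := we_d h3.1 h3.2 (0, 0, 1)
  have hdi : Integrable (dt φ) := h1.1.continuous.integrable_of_hasCompactSupport h1.2
  have hli : Integrable (lap φ) := (h4.1.continuous.integrable_of_hasCompactSupport h4.2).add
    (h5.1.continuous.integrable_of_hasCompactSupport h5.2)
  have hfi : Integrable φ :=
    hφ.smooth.continuous.integrable_of_hasCompactSupport hφ.compact
  have hψi : Integrable ψ := ((hdi.const_mul ε).add (hli.const_mul (ε ^ 2))).sub hfi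
  have hψc : Continuous ψ := by
    have a1 : Continuous (dt φ) := h1.1.continuous
    have a2 : Continuous (lap φ) := h4.1.continuous.add h5.1.continuous
    exact ((continuous_const.mul a1).add (continuous_const.mul a2)).sub hφ.smooth.continuous
  have hgn : ∀ p, ‖g p‖ ≤ 1 := fun p => by
    rw [Real.norm_eq_abs, abs_of_nonneg (hb p).1]
    exact (hb p).2
  have hF : Integrable (Function.uncurry fun (p w : ST) => g (p + vv ε w) * ψ p)
      ((volume : Measure ST).prod mu) := by
    have a1 : Integrable (fun z : ST × ST => ψ z.1) ((volume : Measure ST).prod mu) :=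
      hψi.comp_fst mu
    refine a1.mono ?_ (ae_of_all _ fun z => ?_)
    · exact ((hg.comp (measurable_fst.add ((we_vv ε).comp measurable_snd))).mul
        (hψc.measurable.comp measurable_fst)).aestronglyMeasurable
    · simp only [Function.uncurry, norm_mul]
      exact mul_le_of_le_one_left (norm_nonneg _) (hgn _)
  have hG : Integrable (Function.uncurry fun (q w : ST) => g q * ψ (q - vv ε w))
      ((volume : Measure ST).prod mu) := by
    have hm : Measurable (Function.uncurry fun (q w : ST) => g q * ψ (q - vv ε w)) :=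
      (hg.comp measurable_fst).mul (hψc.measurable.comp
        (measurable_fst.sub ((we_vv ε).comp measurable_snd)))
    rw [integrable_prod_iff' hm.aestronglyMeasurable]
    have hq : ∀ w, Integrable (fun q => ψ (q - vv ε w)) := fun w => hψi.comp_sub_right _
    have hq2 : ∀ w, Integrable (fun q => g q * ψ (q - vv ε w)) := by
      intro w
      refine (hq w).mono ?_ (ae_of_all _ fun q => ?_)
      · exact (hg.mul (hψc.measurable.comp (measurable_id.sub_const _))).aestronglyMeasurable
      · rw [norm_mul]
        exact mul_le_of_le_one_left (norm_nonneg _) (hgn _)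
    refine ⟨ae_of_all _ fun w => hq2 w, ?_⟩
    refine Integrable.of_bound (C := ∫ q, ‖ψ q‖) ?_ (ae_of_all _ fun w => ?_)
    · exact (hm.norm.stronglyMeasurable.integral_prod_left' (μ := (volume : Measure ST))
        ).aestronglyMeasurable
    · rw [Real.norm_eq_abs, abs_of_nonneg (integral_nonneg fun _ => norm_nonneg _),
        ← integral_sub_right_eq_self (fun q => ‖ψ q‖) (vv ε w)]
      refine integral_mono (hq2 w).norm (hq w).norm fun q => ?_
      simp only [Function.uncurry, norm_mul]
      exact mul_le_of_le_one_left (norm_nonneg _) (hgn _)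
  have key : ∫ p, S ε g p * ψ p = ∫ q, g q * (-φ q) := by
    calc ∫ p, S ε g p * ψ p = ∫ p, ∫ w, g (p + vv ε w) * ψ p ∂mu := by
          refine integral_congr_ae (ae_of_all _ fun p => ?_)
          simp only [S, we_pt]
          rw [integral_mul_const]
      _ = ∫ w, (∫ p, g (p + vv ε w) * ψ p) ∂mu := integral_integral_swap hF
      _ = ∫ w, (∫ q, g q * ψ (q - vv ε w)) ∂mu := by
          refine integral_congr_ae (ae_of_all _ fun w => ?_)
          simp only
          rw [← integral_add_right_eq_self (fun q => g q * ψ (q - vv ε w)) (vv ε w)]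
          simp
      _ = ∫ q, ∫ w, g q * ψ (q - vv ε w) ∂mu := (integral_integral_swap hG).symm
      _ = ∫ q, g q * (-φ q) := by
          refine integral_congr_ae (ae_of_all _ fun q => ?_)
          simp only
          rw [integral_const_mul]
          congr 1
          have h6 := h ε hε φ hφ q
          simp only [we_sub] at h6
          rw [← h6, ← integral_neg]
          refine integral_congr_ae (ae_of_all _ fun w => ?_)
          simp only [hψ]
          ring
  have hSi : Integrable (fun p => S ε g p * ψ p) := by
    refine hψi.mono ((ba_meas ε g hg).mul hψc.measurable).aestronglyMeasurable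
      (ae_of_all _ fun p => ?_)
    rw [norm_mul, Real.norm_eq_abs (S ε g p), abs_of_nonneg (ba_bd ε g hb p).1]
    exact mul_le_of_le_one_left (norm_nonneg _) (ba_bd ε g hb p).2
  have hgi : Integrable (fun p => g p * φ p) := by
    refine hfi.mono (hg.mul hφ.smooth.continuous.measurable).aestronglyMeasurable
      (ae_of_all _ fun p => ?_)
    rw [norm_mul]
    exact mul_le_of_le_one_left (norm_nonneg _) (hgn _)
  have e1 : (fun p => S ε g p * (ε * dt φ p + ε ^ 2 * lap φ p) + (g p - S ε g p) * φ p) =
      fun p => S ε g p * ψ p + g p * φ p := by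
    funext p
    simp only [hψ]
    ring
  rw [e1, integral_add hSi hgi, key]
  simp only [mul_neg]
  rw [integral_neg]
  ring

end Pool.Agent.W5h10.SI
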