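import Pool.Agent.W5h10.SI.Defs

/-!
# Assembly: the family of controls and solutions
-/

set_option autoImplicit false

open MeasureTheory Set Filter Topology ProbabilityTheory
open scoped ENNReal ContDiff

namespace Pool.Agent.W5h10.SI

theorem rad_ge {t : ℝ} (h : t ≤ 1 / 10) : 61 / 100 ≤ rad t := by
  unfold rad; linarith

theorem continuous_rad : Continuous rad := by unfold rad; fun_prop

theorem g0_le (N : ℕ) (p : ST) : 0 ≤ g0 N p ∧ g0 N p ≤ 1 := by
  unfold g0; split_ifs <;> norm_num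

theorem gB_le (p : ST) : 0 ≤ gB p ∧ gB p ≤ 1 := by
  unfold gB; split_ifs <;> norm_num

theorem closed_D (N : ℕ) : IsClosed {p : ST | p.1 ≤ 1 / 10 ∧ p.2 ∈ D N (rad p.1)} := by
  have : {p : ST | p.1 ≤ 1 / 10 ∧ p.2 ∈ D N (rad p.1)} =
      {p : ST | p.1 ≤ 1 / 10} ∩ ⋂ (j : ℕ) (_ : j < N),
        ({p : ST | d1 N j (rad p.1) p.2.1 p.2.2 ≤ 0} ∪
          {p : ST | d2 N j (rad p.1) p.2.1 p.2.2 ≤ 0}) := by
    ext p
    simp [D]
  rw [this]
  have hr := continuous_rad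
  refine (isClosed_le continuous_fst continuous_const).inter
    (isClosed_iInter fun j => isClosed_iInter fun _ => ?_)
  refine (isClosed_le ?_ continuous_const).union (isClosed_le ?_ continuous_const)
  · unfold d1 ca cb; fun_prop
  · unfold d2 ca cb; fun_prop

theorem meas_g0 (N : ℕ) : Measurable (g0 N) := by
  have : g0 N = {p : ST | p.1 ≤ 1 / 10 ∧ p.2 ∈ D N (rad p.1)}.indicator (fun _ => (1 : ℝ)) := by
    funext p
    classical
    by_cases h : p.1 ≤ 1 / 10 ∧ p.2 ∈ D N (rad p.1)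
    · rw [indicator_of_mem (by exact h)]; simp only [g0]; rw [if_pos h]
    · rw [indicator_of_notMem (by exact h)]; simp only [g0]; rw [if_neg h]
  rw [this]
  exact measurable_const.indicator (closed_D N).measurableSet

theorem meas_gB : Measurable gB := by
  have : gB = ({p : ST | p.1 ≤ 1 / 10} ∩ {p : ST | p.2.1 ^ 2 + p.2.2 ^ 2 < rad p.1 ^ 2}).indicator
      (fun _ => (1 : ℝ)) := by
    funext p
    classical
    by_cases h : p.1 ≤ 1 / 10 ∧ p.2.1 ^ 2 + p.2.2 ^ 2 < rad p.1 ^ 2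
    · rw [indicator_of_mem (by exact h)]; simp only [gB]; rw [if_pos h]
    · rw [indicator_of_notMem (by exact h)]; simp only [gB]; rw [if_neg h]
  rw [this]
  have hr := continuous_rad
  refine measurable_const.indicator (MeasurableSet.inter ?_ ?_)
  · exact (isClosed_le continuous_fst continuous_const).measurableSet
  · exact (isOpen_lt (by fun_prop) (by fun_prop)).measurableSet

/-- the clock is positive almost surely -/
theorem ae_pos (hb : S_BASIC) : ∀ᵐ w ∂mu, 0 < w.1 := by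
  have h1 : ∀ᵐ s ∂ex, 0 < s := by
    unfold ex
    have : ∀ᵐ s ∂(volume.restrict (Ioi (0 : ℝ))), 0 < s := ae_restrict_mem measurableSet_Ioi
    exact (withDensity_absolutelyContinuous _ _).ae_le this
  exact Measure.quasiMeasurePreserving_fst.ae h1

/-- the choice of the number of teeth -/
noncomputable def NN (ε : ℝ) : ℕ := ⌈1 / √ε⌉₊

theorem NN_mul_tendsto : Tendsto (fun ε : ℝ => (NN ε : ℝ) * ε) (𝓝[>] 0) (𝓝 0) := by
  have h1 : Tendsto (fun ε : ℝ => √ε + ε) (𝓝[>] 0) (𝓝 0) := by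
    have : Tendsto (fun ε : ℝ => √ε + ε) (𝓝 0) (𝓝 (√0 + 0)) :=
      (Real.continuous_sqrt.add continuous_id).tendsto 0
    simp only [Real.sqrt_zero, add_zero] at this
    exact this.mono_left nhdsWithin_le_nhds
  refine tendsto_of_tendsto_of_tendsto_of_le_of_le' tendsto_const_nhds h1 ?_ ?_
  · filter_upwards [self_mem_nhdsWithin] with ε hε
    have : (0 : ℝ) < ε := hε
    positivity
  · filter_upwards [self_mem_nhdsWithin] with ε hε
    have hε' : (0 : ℝ) < ε := hε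
    have h2 : (NN ε : ℝ) ≤ 1 / √ε + 1 := (Nat.ceil_lt_add_one (by positivity)).le
    calc (NN ε : ℝ) * ε ≤ (1 / √ε + 1) * ε := mul_le_mul_of_nonneg_right h2 hε'.le
      _ = √ε + ε := by
        have : √ε * √ε = ε := Real.mul_self_sqrt hε'.le
        have h3 : 0 < √ε := Real.sqrt_pos.2 hε'
        field_simp
        nlinarith

theorem NN_tendsto : Tendsto NN (𝓝[>] 0) atTop := by
  have h1 : Tendsto (fun ε : ℝ => 1 / √ε) (𝓝[>] 0) atTop := by
    have h2 : Tendsto (fun ε : ℝ => √ε) (𝓝[>] 0) (𝓝[>] 0) := by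
      refine tendsto_nhdsWithin_iff.2 ⟨?_, ?_⟩
      · have : Tendsto (fun ε : ℝ => √ε) (𝓝 0) (𝓝 (√0)) := Real.continuous_sqrt.tendsto 0
        rw [Real.sqrt_zero] at this
        exact this.mono_left nhdsWithin_le_nhds
      · filter_upwards [self_mem_nhdsWithin] with ε hε
        exact Real.sqrt_pos.2 hε
    simp only [one_div]
    exact tendsto_inv_nhdsGT_zero.comp h2
  exact tendsto_nat_ceil_atTop.comp h1

/-- what the construction gives for a single `ε` -/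
structure Sol (ε : ℝ) (N : ℕ) (g u : ST → ℝ) : Prop where
  meas_g : Measurable g
  range_g : ∀ p, 0 ≤ g p ∧ g p ≤ 1
  eq_u : ∀ p, u p = S ε g p
  eq_g : ∀ p, g p = min (g0 N p) (hh (u p))
  max : ∀ g' : ST → ℝ, Measurable g' → (∀ p, 0 ≤ g' p) → (∀ p, g' p ≤ g0 N p) →
      (∀ p, g' p ≤ hh (S ε g' p)) → ∀ p, g' p ≤ g p

theorem exists_sol (hF : S_FUN) (hI : S_ITER) (ε : ℝ) (hε : 0 < ε) (N : ℕ) :
    ∃ g u : ST → ℝ, Sol ε N g u := by
  obtain ⟨g, h1, h2, h3, h4⟩ := hI ε hε hh hF.1 hF.2.1 hF.2.2.1 (g0 N) (meas_g0 N) (g0_le N)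
  exact ⟨g, S ε g, h1, h2, fun _ => rfl, h3, h4⟩

/-- the control -/
noncomputable def ctl (ε : ℝ) (g u : ST → ℝ) (p : ST) : ℝ := (hh (u p) - g p) / (ε * u p)

section
variable {ε : ℝ} {N : ℕ} {g u : ST → ℝ}

theorem Sol.u_eq (h : Sol ε N g u) : u = S ε g := funext h.eq_u

theorem Sol.meas_u (hb : S_BASIC) (h : Sol ε N g u) : Measurable u := by
  rw [h.u_eq]; exact hb.2.1 ε g h.meas_g

theorem Sol.range_u (hb : S_BASIC) (h : Sol ε N g u) (p : ST) : 0 ≤ u p ∧ u p ≤ 1 := by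
  rw [h.u_eq]; exact hb.2.2.1 ε g h.range_g p

theorem Sol.le_g0 (h : Sol ε N g u) (p : ST) : g p ≤ g0 N p := by
  rw [h.eq_g p]; exact min_le_left _ _

theorem Sol.le_hh (h : Sol ε N g u) (p : ST) : g p ≤ hh (u p) := by
  rw [h.eq_g p]; exact min_le_right _ _

theorem Sol.u_le (hb : S_BASIC) (hε : 0 < ε) (h : Sol ε N g u) (p : ST) :
    u p ≤ S ε (g0 N) p := by
  rw [h.u_eq]
  exact hb.2.2.2 ε g (g0 N) h.meas_g (meas_g0 N) h.range_g (g0_le N) p
    (fun q _ => h.le_g0 q) hε.le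

theorem Sol.meas_ctl (hF : S_FUN) (hb : S_BASIC) (h : Sol ε N g u) : Measurable (ctl ε g u) := by
  unfold ctl
  exact ((hF.1.measurable.comp (h.meas_u hb)).sub h.meas_g).div
    ((h.meas_u hb).const_mul ε)

theorem Sol.ctl_nonneg (hb : S_BASIC) (hε : 0 < ε) (h : Sol ε N g u) (p : ST) :
    0 ≤ ctl ε g u p := by
  unfold ctl
  exact div_nonneg (sub_nonneg.2 (h.le_hh p)) (mul_nonneg hε.le (h.range_u hb p).1)

theorem hh_zero (hF : S_FUN) {x : ℝ} (hx : x ≤ 79 / 100) : hh x = 0 := hF.2.2.2.1 x hx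

theorem Sol.ctl_zero (hF : S_FUN) (h : Sol ε N g u) (p : ST) (hu : u p ≤ 79 / 100) :
    ctl ε g u p = 0 := by
  have h1 : hh (u p) = 0 := hh_zero hF hu
  have h2 : g p = 0 := le_antisymm (by rw [← h1]; exact h.le_hh p) (h.range_g p).1
  simp [ctl, h1, h2]

theorem Sol.ctl_zero' (hF : S_FUN) (h : Sol ε N g u) (p : ST) (hg : g0 N p = 1) :
    ctl ε g u p = 0 := by
  have h1 : g p = hh (u p) := by
    rw [h.eq_g p, hg]; exact min_eq_right (hF.2.2.1 _).2
  simp [ctl, h1]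

theorem Sol.ctl_le (hF : S_FUN) (hε : 0 < ε) (h : Sol ε N g u) (p : ST) :
    ctl ε g u p ≤ 100 / (79 * ε) := by
  by_cases hu : u p ≤ 79 / 100
  · rw [h.ctl_zero hF p hu]; positivity
  · push Not at hu
    unfold ctl
    have h1 : hh (u p) - g p ≤ 1 := by linarith [(hF.2.2.1 (u p)).2, (h.range_g p).1]
    rw [div_le_div_iff₀ (mul_pos hε (by linarith)) (by positivity)]
    have h2 : (hh (u p) - g p) * (79 * ε) ≤ 1 * (79 * ε) :=
      mul_le_mul_of_nonneg_right h1 (by positivity)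
    nlinarith

/-- the weak equation -/
theorem Sol.weak (hW : S_WEAK) (hF : S_FUN) (hε : 0 < ε) (h : Sol ε N g u) (φ : ST → ℝ)
    (hφ : Test φ) :
    ∫ p, (u p * (dt φ p + ε * lap φ p) + (ff (u p) / ε - ctl ε g u p * u p) * φ p) = 0 := by
  have h1 := hW ε hε g h.meas_g h.range_g φ hφ
  have h2 : (fun p => (u p * (dt φ p + ε * lap φ p) +
      (ff (u p) / ε - ctl ε g u p * u p) * φ p)) = fun p => ε⁻¹ *
      (S ε g p * (ε * dt φ p + ε ^ 2 * lap φ p) + (g p - S ε g p) * φ p) := by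
    funext p
    rw [← h.eq_u p]
    have h3 : ff (u p) / ε - ctl ε g u p * u p = ε⁻¹ * (g p - u p) := by
      by_cases hu : u p = 0
      · have h4 : hh (u p) = 0 := hh_zero hF (by rw [hu]; norm_num)
        have h5 : g p = 0 := le_antisymm (by rw [← h4]; exact h.le_hh p) (h.range_g p).1
        unfold ff
        rw [h4, h5, hu]; simp
      · unfold ff ctl
        field_simp
        ring
    rw [h3]
    field_simp
  rw [h2, integral_const_mul, h1, mul_zero]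

/-- the cost at one time -/
theorem Sol.cost (hF : S_FUN) (hb : S_BASIC) (hU : S_UP) (hε : 0 < ε) (h : Sol ε N g u)
    {t : ℝ} (ht : t ≤ 1 / 10) :
    ∫⁻ z : ℝ × ℝ, ENNReal.ofReal (ctl ε g u (t, z)) ≤
      ENNReal.ofReal (100 / (79 * ε)) * volume (Bad N ε (rad t)) := by
  have h1 : ∀ z : ℝ × ℝ, ENNReal.ofReal (ctl ε g u (t, z)) ≤
      (toMeasurable volume (Bad N ε (rad t))).indicator
        (fun _ => ENNReal.ofReal (100 / (79 * ε))) z := by
    intro z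
    by_cases hz : z ∈ Bad N ε (rad t)
    · rw [indicator_of_mem (subset_toMeasurable _ _ hz)]
      exact ENNReal.ofReal_le_ofReal (h.ctl_le hF hε _)
    · have h2 : ctl ε g u (t, z) = 0 := by
        by_contra hne
        apply hz
        have h3 : ¬ u (t, z) ≤ 79 / 100 := fun h4 => hne (h.ctl_zero hF _ h4)
        push Not at h3
        have h4 : z ∉ D N (rad t) := by
          intro h5
          apply hne
          apply h.ctl_zero' hF
          simp only [g0]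
          rw [if_pos ⟨ht, h5⟩]
        refine ⟨h4, fun j hj hd1 hd2 => ?_⟩
        have h5 := hU N j ε (t, z) hj hε ht hd1 hd2
        exact lt_of_lt_of_le h3 ((h.u_le hb hε _).trans h5)
      rw [h2, ENNReal.ofReal_zero]
      exact zero_le
  calc ∫⁻ z : ℝ × ℝ, ENNReal.ofReal (ctl ε g u (t, z))
      ≤ ∫⁻ z : ℝ × ℝ, (toMeasurable volume (Bad N ε (rad t))).indicator
        (fun _ => ENNReal.ofReal (100 / (79 * ε))) z := lintegral_mono h1
    _ = ENNReal.ofReal (100 / (79 * ε)) * volume (Bad N ε (rad t)) := by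
      rw [lintegral_indicator_const (measurableSet_toMeasurable _ _), measure_toMeasurable]

end

/-- the numbers in the cost bound -/
theorem cost_small : ∀ᶠ ε : ℝ in 𝓝[>] 0, ∀ R : ℝ, 61 / 100 ≤ R →
    100 / (79 * ε) * (2 * Real.pi * (R + ε) * (ε / 10) + 2400 * (NN ε : ℝ) * ε ^ 2) ≤
      13 / 100 * (2 * Real.pi * R) := by
  have h1 : Tendsto (fun ε : ℝ => 2 * Real.pi * ε * (10 / 79) +
      240000 / 79 * ((NN ε : ℝ) * ε)) (𝓝[>] 0) (𝓝 0) := by
    have h2 : Tendsto (fun ε : ℝ => 2 * Real.pi * ε * (10 / 79)) (𝓝[>] 0) (𝓝 0) := by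
      have : Tendsto (fun ε : ℝ => 2 * Real.pi * ε * (10 / 79)) (𝓝 0)
          (𝓝 (2 * Real.pi * 0 * (10 / 79))) := by
        apply Continuous.tendsto; fun_prop
      simp only [mul_zero, zero_mul] at this
      exact this.mono_left nhdsWithin_le_nhds
    have h3 := h2.add (NN_mul_tendsto.const_mul (240000 / 79))
    simpa using h3
  have h4 : ∀ᶠ ε : ℝ in 𝓝[>] 0, 2 * Real.pi * ε * (10 / 79) +
      240000 / 79 * ((NN ε : ℝ) * ε) < 13 / 1000 := h1.eventually_lt_const (by norm_num)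
  filter_upwards [h4, self_mem_nhdsWithin] with ε h5 hε R hR
  have hε' : (0 : ℝ) < ε := hε
  have h6 : 100 / (79 * ε) * (2 * Real.pi * (R + ε) * (ε / 10) + 2400 * (NN ε : ℝ) * ε ^ 2) =
      10 / 79 * (2 * Real.pi * R) + (2 * Real.pi * ε * (10 / 79) +
      240000 / 79 * ((NN ε : ℝ) * ε)) := by
    field_simp
    ring
  rw [h6]
  have hpi : 3.1415 < Real.pi := Real.pi_gt_d4
  have h7 : 2 * 3.1415 * (61 / 100) ≤ 2 * Real.pi * R := by
    have : (0 : ℝ) ≤ 61 / 100 := by norm_num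
    nlinarith [mul_le_mul (by linarith : 2 * 3.1415 ≤ 2 * Real.pi) hR this (by positivity)]
  linarith

/-- the cost at all times -/
theorem cost_all (hF : S_FUN) (hb : S_BASIC) (hU : S_UP) (hA : S_AREA)
    (g u : ℝ → ST → ℝ) (h : ∀ ε : ℝ, 0 < ε → Sol ε (NN ε) (g ε) (u ε)) :
    ∀ᶠ ε : ℝ in 𝓝[>] 0, ∀ t : ℝ, t ≤ 1 / 10 →
      ∫⁻ z : ℝ × ℝ, ENNReal.ofReal (ctl ε (g ε) (u ε) (t, z)) ≤
        ENNReal.ofReal (13 / 100 * (2 * Real.pi * rad t)) := by
  obtain ⟨N₀, hN⟩ := hA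
  filter_upwards [cost_small, NN_tendsto.eventually_ge_atTop N₀, self_mem_nhdsWithin] with
    ε h1 h2 hε t ht
  have hε' : (0 : ℝ) < ε := hε
  have hR : 61 / 100 ≤ rad t := rad_ge ht
  refine ((h ε hε').cost hF hb hU hε' ht).trans ?_
  refine (mul_le_mul_right (hN (NN ε) h2 ε (rad t) hε' (by linarith)) _).trans ?_
  rw [← ENNReal.ofReal_mul (by positivity)]
  exact ENNReal.ofReal_le_ofReal (h1 (rad t) hR)

/-! ### Convergence -/

theorem continuous_pt (ε : ℝ) (p : ST) : Continuous (pt ε p) := by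
  unfold pt
  have : Continuous fun w : ST => √(2 * w.1) := (continuous_const.mul continuous_fst).sqrt
  fun_prop

theorem S_ind (hb : S_BASIC) (ε : ℝ) {s : Set ST} (hs : MeasurableSet s) {g : ST → ℝ}
    (hg : g = s.indicator (fun _ => (1 : ℝ))) (p : ST) :
    ENNReal.ofReal (S ε g p) = mu {w | pt ε p w ∈ s} := by
  have hpr := hb.1
  have hm : MeasurableSet {w | pt ε p w ∈ s} := (continuous_pt ε p).measurable hs
  have h1 : (fun w => g (pt ε p w)) = {w | pt ε p w ∈ s}.indicator 1 := by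
    funext w
    rw [hg]
    by_cases h : pt ε p w ∈ s
    · rw [indicator_of_mem h, indicator_of_mem (by exact h)]; rfl
    · rw [indicator_of_notMem h, indicator_of_notMem (by exact h)]
  unfold S
  rw [h1, integral_indicator_one hm, ofReal_measureReal]

theorem g0_eq (N : ℕ) :
    g0 N = {p : ST | p.1 ≤ 1 / 10 ∧ p.2 ∈ D N (rad p.1)}.indicator (fun _ => (1 : ℝ)) := by
  funext p
  classical
  by_cases h : p.1 ≤ 1 / 10 ∧ p.2 ∈ D N (rad p.1)
  · rw [indicator_of_mem (by exact h)]; simp only [g0]; rw [if_pos h]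
  · rw [indicator_of_notMem (by exact h)]; simp only [g0]; rw [if_neg h]

theorem gB_eq :
    gB = ({p : ST | p.1 ≤ 1 / 10} ∩ {p : ST | p.2.1 ^ 2 + p.2.2 ^ 2 < rad p.1 ^ 2}).indicator
      (fun _ => (1 : ℝ)) := by
  funext p
  classical
  by_cases h : p.1 ≤ 1 / 10 ∧ p.2.1 ^ 2 + p.2.2 ^ 2 < rad p.1 ^ 2
  · rw [indicator_of_mem (by exact h)]; simp only [gB]; rw [if_pos h]
  · rw [indicator_of_notMem (by exact h)]; simp only [gB]; rw [if_neg h]

theorem meas_disc : MeasurableSet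
    ({p : ST | p.1 ≤ 1 / 10} ∩ {p : ST | p.2.1 ^ 2 + p.2.2 ^ 2 < rad p.1 ^ 2}) := by
  have hr := continuous_rad
  refine MeasurableSet.inter ?_ ?_
  · exact (isClosed_le continuous_fst continuous_const).measurableSet
  · exact (isOpen_lt (by fun_prop) (by fun_prop)).measurableSet

theorem rad_sub (t ε σ : ℝ) : rad (t - ε * σ) = rad t + 39 / 10 * ε * σ := by
  unfold rad; ring

/-- the disc is a subsolution for small `ε` -/
theorem sub_gB (hF : S_FUN) (hb : S_BASIC) (hB : S_BALL) :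
    ∀ᶠ ε : ℝ in 𝓝[>] 0, ∀ p, gB p ≤ hh (S ε gB p) := by
  obtain ⟨K, hK, hB⟩ := hB
  have h0 : ∀ᶠ ε : ℝ in 𝓝[>] 0, ε * K < 61 / 100 := by
    have : Tendsto (fun ε : ℝ => ε * K) (𝓝 0) (𝓝 (0 * K)) :=
      (continuous_id.mul continuous_const).tendsto 0
    rw [zero_mul] at this
    exact (this.mono_left nhdsWithin_le_nhds).eventually_lt_const (by norm_num)
  filter_upwards [h0, self_mem_nhdsWithin] with ε h1 hε p
  have hε' : (0 : ℝ) < ε := hε
  by_cases hp : p.1 ≤ 1 / 10 ∧ p.2.1 ^ 2 + p.2.2 ^ 2 < rad p.1 ^ 2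
  · have hR : 61 / 100 ≤ rad p.1 := rad_ge hp.1
    have h2 := hB ε (rad p.1) hε' (by linarith) p.2.1 p.2.2 hp.2.le
    have h3 : mu {w | (p.2.1 + ε * √(2 * w.1) * w.2.1) ^ 2 +
        (p.2.2 + ε * √(2 * w.1) * w.2.2) ^ 2 < (rad p.1 + 39 / 10 * ε * w.1) ^ 2} ≤
        mu {w | pt ε p w ∈
          ({p : ST | p.1 ≤ 1 / 10} ∩ {p : ST | p.2.1 ^ 2 + p.2.2 ^ 2 < rad p.1 ^ 2})} := by
      refine measure_mono_ae ?_
      filter_upwards [ae_pos hb] with w hw h4
      refine ⟨?_, ?_⟩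
      · change p.1 - ε * w.1 ≤ 1 / 10
        have := mul_pos hε' hw
        linarith [hp.1]
      · change (p.2.1 + ε * √(2 * w.1) * w.2.1) ^ 2 +
          (p.2.2 + ε * √(2 * w.1) * w.2.2) ^ 2 < rad (p.1 - ε * w.1) ^ 2
        rw [rad_sub]
        exact h4
    have h4 : ENNReal.ofReal (85 / 100) ≤ ENNReal.ofReal (S ε gB p) := by
      rw [S_ind hb ε meas_disc gB_eq p]
      exact h2.trans h3
    have h5 : 85 / 100 ≤ S ε gB p := by
      have h6 : 0 ≤ S ε gB p := (hb.2.2.1 ε gB gB_le p).1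
      exact (ENNReal.ofReal_le_ofReal_iff h6).1 h4
    rw [hF.2.2.2.2.1 _ h5]
    exact (gB_le p).2
  · have : gB p = 0 := by simp only [gB]; rw [if_neg hp]
    rw [this]
    exact (hF.2.2.1 _).1

theorem gB_le_g0 (hG : S_IN) (N : ℕ) (p : ST) : gB p ≤ g0 N p := by
  classical
  by_cases hp : p.1 ≤ 1 / 10 ∧ p.2.1 ^ 2 + p.2.2 ^ 2 < rad p.1 ^ 2
  · have h1 : g0 N p = 1 := by
      simp only [g0]
      rw [if_pos]
      refine ⟨hp.1, hG N (rad p.1) (by linarith [rad_ge hp.1]) _ _ hp.2⟩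
    rw [h1]
    exact (gB_le p).2
  · have : gB p = 0 := by simp only [gB]; rw [if_neg hp]
    rw [this]
    exact (g0_le N p).1

/-- convergence in `L¹` -/
theorem conv (hF : S_FUN) (hb : S_BASIC) (hB : S_BALL) (hG : S_IN) (hO : S_OUT) (hL : S_LONE)
    (g u : ℝ → ST → ℝ) (h : ∀ ε : ℝ, 0 < ε → Sol ε (NN ε) (g ε) (u ε)) (t : ℝ) (ht0 : 0 ≤ t)
    (ht : t ≤ 1 / 10) :
    Tendsto (fun ε : ℝ => ∫⁻ z : ℝ × ℝ, ENNReal.ofReal |u ε (t, z) -
      {z : ℝ × ℝ | z.1 ^ 2 + z.2 ^ 2 < rad t ^ 2}.indicator (fun _ => (1 : ℝ)) z|)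
      (𝓝[>] 0) (𝓝 0) := by
  obtain ⟨C, hC, hL⟩ := hL
  -- the bound for each `δ`
  have key : ∀ δ : ℝ, 0 < δ → δ < 1 → ∀ᶠ ε : ℝ in 𝓝[>] 0,
      ∫⁻ z : ℝ × ℝ, ENNReal.ofReal |u ε (t, z) -
      {z : ℝ × ℝ | z.1 ^ 2 + z.2 ^ 2 < rad t ^ 2}.indicator (fun _ => (1 : ℝ)) z| ≤
      ENNReal.ofReal (C * (ε + δ)) := by
    intro δ hδ hδ1
    obtain ⟨N₀, hN⟩ := hO δ hδ
    have h1 : ∀ᶠ ε : ℝ in 𝓝[>] 0, ε < 1 :=
      (tendsto_id.mono_left nhdsWithin_le_nhds : Tendsto id (𝓝[>] (0 : ℝ)) (𝓝 0)).eventually_lt_const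
        (by norm_num)
    filter_upwards [h1, self_mem_nhdsWithin, NN_tendsto.eventually_ge_atTop N₀,
      sub_gB hF hb hB] with ε hε1 hε hNN hsub
    have hε' : (0 : ℝ) < ε := hε
    have hs := h ε hε'
    have h2 : ∀ p, gB p ≤ g ε p :=
      hs.max gB meas_gB (fun p => (gB_le p).1) (gB_le_g0 hG _) hsub
    refine hL ε δ hε' hε1 hδ hδ1 (u ε) (hs.meas_u hb) (fun p => (hs.range_u hb p).2)
      (fun p => (hs.range_u hb p).1) t ht0 ht ?_ ?_
    · intro x y
      rw [hs.u_eq]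
      exact hb.2.2.2 ε gB (g ε) meas_gB hs.meas_g gB_le hs.range_g _ (fun q _ => h2 q) hε'.le
    · intro x y
      refine (ENNReal.ofReal_le_ofReal (hs.u_le hb hε' (t, x, y))).trans ?_
      rw [S_ind hb ε (closed_D (NN ε)).measurableSet (g0_eq (NN ε)) (t, x, y)]
      refine measure_mono_ae ?_
      filter_upwards [ae_pos hb] with w hw h4
      have h5 : t - ε * w.1 ≤ 1 / 10 := by
        have := mul_pos hε' hw
        linarith
      exact hN (NN ε) hNN (rad (t - ε * w.1)) (by linarith [rad_ge h5]) _ _ h4.2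
  -- conclusion
  rw [ENNReal.tendsto_nhds_zero]
  intro η hη
  by_cases htop : η = ⊤
  · rw [htop]; exact Eventually.of_forall fun _ => le_top
  obtain ⟨η', rfl⟩ : ∃ x : ℝ, ENNReal.ofReal x = η := ⟨η.toReal, ENNReal.ofReal_toReal htop⟩
  have hη' : 0 < η' := ENNReal.ofReal_pos.1 hη
  set δ : ℝ := min (1 / 2) (η' / (2 * C)) with hδ
  have hδ0 : 0 < δ := lt_min (by norm_num) (by positivity)
  have hδ1 : δ < 1 := (min_le_left _ _).trans_lt (by norm_num)
  have h1 : ∀ᶠ ε : ℝ in 𝓝[>] 0, ε < η' / (2 * C) :=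
    (tendsto_id.mono_left nhdsWithin_le_nhds : Tendsto id (𝓝[>] (0 : ℝ)) (𝓝 0)).eventually_lt_const
      (by positivity)
  filter_upwards [key δ hδ0 hδ1, h1] with ε h2 h3
  refine h2.trans (ENNReal.ofReal_le_ofReal ?_)
  have h4 : δ ≤ η' / (2 * C) := min_le_right _ _
  calc C * (ε + δ) ≤ C * (η' / (2 * C) + η' / (2 * C)) :=
        mul_le_mul_of_nonneg_left (add_le_add h3.le h4) hC.le
    _ = η' := by field_simp; ring

/-! ### The effort -/

/-- the effort -/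
noncomputable def effort (f : ℝ → ℝ) (b : ℝ) : ℝ≥0∞ :=
  ⨅ (α : ℝ → ℝ) (U : ℝ → ℝ) (_ : Wave f b α U), ∫⁻ x, ENNReal.ofReal (α x)

theorem ff_bounds (hF : S_FUN) : ∃ a : ℝ, 79 / 100 < a ∧ a < 85 / 100 ∧
    (∀ u, 0 ≤ u → u ≤ a → -u ≤ ff u) ∧ (∀ u, a ≤ u → u ≤ 1 → 0 ≤ ff u) := by
  obtain ⟨hc, hmono, hrg, h79, h85, hC2, hz0, hz1, hd0, hd1, a, ha1, ha2, ha, hda, hlo, hhi⟩ := hF
  refine ⟨a, ha1, ha2, ?_, ?_⟩
  · intro u _ _
    unfold ff
    linarith [(hrg u).1]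
  · intro u h1 h2
    rcases h1.eq_or_lt with rfl | h1
    · exact ha.ge
    rcases h2.eq_or_lt with rfl | h2
    · exact hz1.ge
    · exact (hhi u h1 h2).le

theorem effort_ge (hF : S_FUN) (hE : S_EFF) (hn : S_NUM) :
    ENNReal.ofReal (3 / 10) ≤ effort ff (39 / 10) := by
  obtain ⟨a, ha1, ha2, hlo, hhi⟩ := ff_bounds hF
  refine le_iInf fun α => le_iInf fun U => le_iInf fun hw => ?_
  have hcf : Continuous ff := hF.2.2.2.2.2.1.continuous
  have h1 := hE ff a (39 / 10) hcf (by linarith) (by linarith) (by norm_num) hlo hhi α U hw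
  exact (ENNReal.ofReal_le_ofReal (hn a ha1 ha2).1).trans h1

theorem free_speed (hF : S_FUN) (hE : S_EFF) (hn : S_NUM) (b : ℝ) (U : ℝ → ℝ)
    (hw : Wave ff b (fun _ => 0) U) : b ≤ 39 / 10 := by
  by_contra hb
  push Not at hb
  obtain ⟨a, ha1, ha2, hlo, hhi⟩ := ff_bounds hF
  have hcf : Continuous ff := hF.2.2.2.2.2.1.continuous
  have h1 := hE ff a b hcf (by linarith) (by linarith) (by linarith) hlo hhi _ U hw
  have h2 := (hn a ha1 ha2).2 b hb
  simp only [ENNReal.ofReal_zero, lintegral_zero, nonpos_iff_eq_zero, ENNReal.ofReal_eq_zero] at h1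
  linarith

end Pool.Agent.W5h10.SI
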