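import Pool.Agent.W5h10.SI.Assem
import Pool.Agent.W5h10.SI.Defs2

/-!
# Assembly with the narrower wedges: the cost tends to zero
-/

set_option autoImplicit false

open MeasureTheory Set Filter Topology ProbabilityTheory
open scoped ENNReal ContDiff

namespace Pool.Agent.W5h10.SI.Z

theorem g2_le (N : ℕ) (p : ST) : 0 ≤ g2 N p ∧ g2 N p ≤ 1 := by
  unfold g2; split_ifs <;> norm_num

theorem closed_D2 (N : ℕ) : IsClosed {p : ST | p.1 ≤ 1 / 10 ∧ p.2 ∈ D2 N (rad p.1)} := by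
  have : {p : ST | p.1 ≤ 1 / 10 ∧ p.2 ∈ D2 N (rad p.1)} =
      {p : ST | p.1 ≤ 1 / 10} ∩ ⋂ (j : ℕ) (_ : j < N),
        ({p : ST | e1 N j (rad p.1) p.2.1 p.2.2 ≤ 0} ∪
          {p : ST | e2 N j (rad p.1) p.2.1 p.2.2 ≤ 0}) := by
    ext p
    simp [D2]
  rw [this]
  have hr := continuous_rad
  refine (isClosed_le continuous_fst continuous_const).inter
    (isClosed_iInter fun j => isClosed_iInter fun _ => ?_)
  refine (isClosed_le ?_ continuous_const).union (isClosed_le ?_ continuous_const)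
  · unfold e1 ca cb; fun_prop
  · unfold e2 ca cb; fun_prop

theorem meas_g2 (N : ℕ) : Measurable (g2 N) := by
  have : g2 N = {p : ST | p.1 ≤ 1 / 10 ∧ p.2 ∈ D2 N (rad p.1)}.indicator (fun _ => (1 : ℝ)) := by
    funext p
    classical
    by_cases h : p.1 ≤ 1 / 10 ∧ p.2 ∈ D2 N (rad p.1)
    · rw [indicator_of_mem (by exact h)]; simp only [g2]; rw [if_pos h]
    · rw [indicator_of_notMem (by exact h)]; simp only [g2]; rw [if_neg h]
  rw [this]
  exact measurable_const.indicator (closed_D2 N).measurableSet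

/-- what the construction gives for a single `ε` -/
structure Sol (ε : ℝ) (N : ℕ) (g u : ST → ℝ) : Prop where
  meas_g : Measurable g
  range_g : ∀ p, 0 ≤ g p ∧ g p ≤ 1
  eq_u : ∀ p, u p = S ε g p
  eq_g : ∀ p, g p = min (g2 N p) (hh (u p))
  max : ∀ g' : ST → ℝ, Measurable g' → (∀ p, 0 ≤ g' p) → (∀ p, g' p ≤ g2 N p) →
      (∀ p, g' p ≤ hh (S ε g' p)) → ∀ p, g' p ≤ g p

theorem exists_sol (hF : S_FUN) (hI : S_ITER) (ε : ℝ) (hε : 0 < ε) (N : ℕ) :
    ∃ g u : ST → ℝ, Sol ε N g u := by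
  obtain ⟨g, h1, h2, h3, h4⟩ := hI ε hε hh hF.1 hF.2.1 hF.2.2.1 (g2 N) (meas_g2 N) (g2_le N)
  exact ⟨g, S ε g, h1, h2, fun _ => rfl, h3, h4⟩

section
variable {ε : ℝ} {N : ℕ} {g u : ST → ℝ}

theorem Sol.u_eq (h : Sol ε N g u) : u = S ε g := funext h.eq_u

theorem Sol.meas_u (hb : S_BASIC) (h : Sol ε N g u) : Measurable u := by
  rw [h.u_eq]; exact hb.2.1 ε g h.meas_g

theorem Sol.range_u (hb : S_BASIC) (h : Sol ε N g u) (p : ST) : 0 ≤ u p ∧ u p ≤ 1 := by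
  rw [h.u_eq]; exact hb.2.2.1 ε g h.range_g p

theorem Sol.le_g2 (h : Sol ε N g u) (p : ST) : g p ≤ g2 N p := by
  rw [h.eq_g p]; exact min_le_left _ _

theorem Sol.le_hh (h : Sol ε N g u) (p : ST) : g p ≤ hh (u p) := by
  rw [h.eq_g p]; exact min_le_right _ _

theorem Sol.u_le (hb : S_BASIC) (hε : 0 < ε) (h : Sol ε N g u) (p : ST) :
    u p ≤ S ε (g2 N) p := by
  rw [h.u_eq]
  exact hb.2.2.2 ε g (g2 N) h.meas_g (meas_g2 N) h.range_g (g2_le N) p
    (fun q _ => h.le_g2 q) hε.le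

theorem Sol.meas_ctl (hF : S_FUN) (hb : S_BASIC) (h : Sol ε N g u) : Measurable (ctl ε g u) := by
  unfold ctl
  exact ((hF.1.measurable.comp (h.meas_u hb)).sub h.meas_g).div
    ((h.meas_u hb).const_mul ε)

theorem Sol.ctl_nonneg (hb : S_BASIC) (hε : 0 < ε) (h : Sol ε N g u) (p : ST) :
    0 ≤ ctl ε g u p := by
  unfold ctl
  exact div_nonneg (sub_nonneg.2 (h.le_hh p)) (mul_nonneg hε.le (h.range_u hb p).1)

theorem hh_zero (hF : S_FUN) {x : ℝ} (hx : x ≤ 79 / 100) : hh x = 0 := hF.2.2.2.1 x hx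

theorem Sol.ctl_zero (hF : S_FUN) (h : Sol ε N g u) (p : ST) (hu : u p ≤ 79 / 100) :
    ctl ε g u p = 0 := by
  have h1 : hh (u p) = 0 := hh_zero hF hu
  have h2 : g p = 0 := le_antisymm (by rw [← h1]; exact h.le_hh p) (h.range_g p).1
  simp [ctl, h1, h2]

theorem Sol.ctl_zero' (hF : S_FUN) (h : Sol ε N g u) (p : ST) (hg : g2 N p = 1) :
    ctl ε g u p = 0 := by
  have h1 : g p = hh (u p) := by
    rw [h.eq_g p, hg]; exact min_eq_right (hF.2.2.1 _).2
  simp [ctl, h1]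

theorem Sol.ctl_le (hF : S_FUN) (hε : 0 < ε) (h : Sol ε N g u) (p : ST) :
    ctl ε g u p ≤ 100 / (79 * ε) := by
  by_cases hu : u p ≤ 79 / 100
  · rw [h.ctl_zero hF p hu]; positivity
  · push Not at hu
    unfold ctl
    have h1 : hh (u p) - g p ≤ 1 := by linarith [(hF.2.2.1 (u p)).2, (h.range_g p).1]
    rw [div_le_div_iff₀ (mul_pos hε (by linarith)) (by positivity)]
    have h2 : (hh (u p) - g p) * (79 * ε) ≤ 1 * (79 * ε) :=
      mul_le_mul_of_nonneg_right h1 (by positivity)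
    nlinarith

/-- the weak equation -/
theorem Sol.weak (hW : S_WEAK) (hF : S_FUN) (hε : 0 < ε) (h : Sol ε N g u) (φ : ST → ℝ)
    (hφ : Test φ) :
    ∫ p, (u p * (dt φ p + ε * lap φ p) + (ff (u p) / ε - ctl ε g u p * u p) * φ p) = 0 := by
  have h1 := hW ε hε g h.meas_g h.range_g φ hφ
  have h2 : (fun p => (u p * (dt φ p + ε * lap φ p) +
      (ff (u p) / ε - ctl ε g u p * u p) * φ p)) = fun p => ε⁻¹ *
      (S ε g p * (ε * dt φ p + ε ^ 2 * lap φ p) + (g p - S ε g p) * φ p) := by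
    funext p
    rw [← h.eq_u p]
    have h3 : ff (u p) / ε - ctl ε g u p * u p = ε⁻¹ * (g p - u p) := by
      by_cases hu : u p = 0
      · have h4 : hh (u p) = 0 := hh_zero hF (by rw [hu]; norm_num)
        have h5 : g p = 0 := le_antisymm (by rw [← h4]; exact h.le_hh p) (h.range_g p).1
        unfold ff
        rw [h4, h5, hu]; simp
      · unfold ff ctl
        field_simp
        ring
    rw [h3]
    field_simp
  rw [h2, integral_const_mul, h1, mul_zero]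

/-- the cost at one time -/
theorem Sol.cost (hF : S_FUN) (hb : S_BASIC) (hU : S_UP2) (hε : 0 < ε) (h : Sol ε N g u)
    {t : ℝ} (ht : t ≤ 1 / 10) :
    ∫⁻ z : ℝ × ℝ, ENNReal.ofReal (ctl ε g u (t, z)) ≤
      ENNReal.ofReal (100 / (79 * ε)) * volume (Bad2 N ε (rad t)) := by
  have h1 : ∀ z : ℝ × ℝ, ENNReal.ofReal (ctl ε g u (t, z)) ≤
      (toMeasurable volume (Bad2 N ε (rad t))).indicator
        (fun _ => ENNReal.ofReal (100 / (79 * ε))) z := by
    intro z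
    by_cases hz : z ∈ Bad2 N ε (rad t)
    · rw [indicator_of_mem (subset_toMeasurable _ _ hz)]
      exact ENNReal.ofReal_le_ofReal (h.ctl_le hF hε _)
    · have h2 : ctl ε g u (t, z) = 0 := by
        by_contra hne
        apply hz
        have h3 : ¬ u (t, z) ≤ 79 / 100 := fun h4 => hne (h.ctl_zero hF _ h4)
        push Not at h3
        have h4 : z ∉ D2 N (rad t) := by
          intro h5
          apply hne
          apply h.ctl_zero' hF
          simp only [g2]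
          rw [if_pos ⟨ht, h5⟩]
        refine ⟨h4, fun j hj hd1 hd2 => ?_⟩
        have h5 := hU N j ε (t, z) hj hε ht hd1 hd2
        exact lt_of_lt_of_le h3 ((h.u_le hb hε _).trans h5)
      rw [h2, ENNReal.ofReal_zero]
      exact zero_le
  calc ∫⁻ z : ℝ × ℝ, ENNReal.ofReal (ctl ε g u (t, z))
      ≤ ∫⁻ z : ℝ × ℝ, (toMeasurable volume (Bad2 N ε (rad t))).indicator
        (fun _ => ENNReal.ofReal (100 / (79 * ε))) z := lintegral_mono h1
    _ = ENNReal.ofReal (100 / (79 * ε)) * volume (Bad2 N ε (rad t)) := by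
      rw [lintegral_indicator_const (measurableSet_toMeasurable _ _), measure_toMeasurable]

end

/-- the cost at all times -/
theorem cost_all (hF : S_FUN) (hb : S_BASIC) (hU : S_UP2) (hA : S_AREA2)
    (g u : ℝ → ST → ℝ) (h : ∀ ε : ℝ, 0 < ε → Sol ε (NN ε) (g ε) (u ε)) (ε : ℝ) (hε : 0 < ε)
    (t : ℝ) (ht : t ≤ 1 / 10) :
      ∫⁻ z : ℝ × ℝ, ENNReal.ofReal (ctl ε (g ε) (u ε) (t, z)) ≤
        ENNReal.ofReal (300 * ((NN ε : ℝ) * ε)) := by
  have hR : 61 / 100 ≤ rad t := rad_ge ht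
  refine ((h ε hε).cost hF hb hU hε ht).trans ?_
  refine (mul_le_mul_right (hA (NN ε) ε (rad t) hε (by linarith)) _).trans ?_
  rw [← ENNReal.ofReal_mul (by positivity)]
  refine ENNReal.ofReal_le_ofReal ?_
  have h1 : 100 / (79 * ε) * (200 * (NN ε : ℝ) * ε ^ 2) = 20000 / 79 * ((NN ε : ℝ) * ε) := by
    field_simp
    ring
  rw [h1]
  exact mul_le_mul_of_nonneg_right (by norm_num) (by positivity)

theorem g2_eq (N : ℕ) :
    g2 N = {p : ST | p.1 ≤ 1 / 10 ∧ p.2 ∈ D2 N (rad p.1)}.indicator (fun _ => (1 : ℝ)) := by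
  funext p
  classical
  by_cases h : p.1 ≤ 1 / 10 ∧ p.2 ∈ D2 N (rad p.1)
  · rw [indicator_of_mem (by exact h)]; simp only [g2]; rw [if_pos h]
  · rw [indicator_of_notMem (by exact h)]; simp only [g2]; rw [if_neg h]

theorem gB_le_g2 (hG : S_IN2) (N : ℕ) (p : ST) : gB p ≤ g2 N p := by
  classical
  by_cases hp : p.1 ≤ 1 / 10 ∧ p.2.1 ^ 2 + p.2.2 ^ 2 < rad p.1 ^ 2
  · have h1 : g2 N p = 1 := by
      simp only [g2]
      rw [if_pos]
      refine ⟨hp.1, hG N (rad p.1) (by linarith [rad_ge hp.1]) _ _ hp.2⟩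
    rw [h1]
    exact (gB_le p).2
  · have : gB p = 0 := by simp only [gB]; rw [if_neg hp]
    rw [this]
    exact (g2_le N p).1

/-- convergence in `L¹` -/
theorem conv (hF : S_FUN) (hb : S_BASIC) (hB : S_BALL) (hG : S_IN2) (hO : S_OUT2) (hL : S_LONE)
    (g u : ℝ → ST → ℝ) (h : ∀ ε : ℝ, 0 < ε → Sol ε (NN ε) (g ε) (u ε)) (t : ℝ) (ht0 : 0 ≤ t)
    (ht : t ≤ 1 / 10) :
    Tendsto (fun ε : ℝ => ∫⁻ z : ℝ × ℝ, ENNReal.ofReal |u ε (t, z) -
      {z : ℝ × ℝ | z.1 ^ 2 + z.2 ^ 2 < rad t ^ 2}.indicator (fun _ => (1 : ℝ)) z|)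
      (𝓝[>] 0) (𝓝 0) := by
  obtain ⟨C, hC, hL⟩ := hL
  -- the bound for each `δ`
  have key : ∀ δ : ℝ, 0 < δ → δ < 1 → ∀ᶠ ε : ℝ in 𝓝[>] 0,
      ∫⁻ z : ℝ × ℝ, ENNReal.ofReal |u ε (t, z) -
      {z : ℝ × ℝ | z.1 ^ 2 + z.2 ^ 2 < rad t ^ 2}.indicator (fun _ => (1 : ℝ)) z| ≤
      ENNReal.ofReal (C * (ε + δ)) := by
    intro δ hδ hδ1
    obtain ⟨N₀, hN⟩ := hO δ hδ
    have h1 : ∀ᶠ ε : ℝ in 𝓝[>] 0, ε < 1 :=
      (tendsto_id.mono_left nhdsWithin_le_nhds : Tendsto id (𝓝[>] (0 : ℝ)) (𝓝 0)).eventually_lt_const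
        (by norm_num)
    filter_upwards [h1, self_mem_nhdsWithin, NN_tendsto.eventually_ge_atTop N₀,
      sub_gB hF hb hB] with ε hε1 hε hNN hsub
    have hε' : (0 : ℝ) < ε := hε
    have hs := h ε hε'
    have h2 : ∀ p, gB p ≤ g ε p :=
      hs.max gB meas_gB (fun p => (gB_le p).1) (gB_le_g2 hG _) hsub
    refine hL ε δ hε' hε1 hδ hδ1 (u ε) (hs.meas_u hb) (fun p => (hs.range_u hb p).2)
      (fun p => (hs.range_u hb p).1) t ht0 ht ?_ ?_
    · intro x y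
      rw [hs.u_eq]
      exact hb.2.2.2 ε gB (g ε) meas_gB hs.meas_g gB_le hs.range_g _ (fun q _ => h2 q) hε'.le
    · intro x y
      refine (ENNReal.ofReal_le_ofReal (hs.u_le hb hε' (t, x, y))).trans ?_
      rw [S_ind hb ε (closed_D2 (NN ε)).measurableSet (g2_eq (NN ε)) (t, x, y)]
      refine measure_mono_ae ?_
      filter_upwards [ae_pos hb] with w hw h4
      have h5 : t - ε * w.1 ≤ 1 / 10 := by
        have := mul_pos hε' hw
        linarith
      exact hN (NN ε) hNN (rad (t - ε * w.1)) (by linarith [rad_ge h5]) _ _ h4.2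
  -- conclusion
  rw [ENNReal.tendsto_nhds_zero]
  intro η hη
  by_cases htop : η = ⊤
  · rw [htop]; exact Eventually.of_forall fun _ => le_top
  obtain ⟨η', rfl⟩ : ∃ x : ℝ, ENNReal.ofReal x = η := ⟨η.toReal, ENNReal.ofReal_toReal htop⟩
  have hη' : 0 < η' := ENNReal.ofReal_pos.1 hη
  set δ : ℝ := min (1 / 2) (η' / (2 * C)) with hδ
  have hδ0 : 0 < δ := lt_min (by norm_num) (by positivity)
  have hδ1 : δ < 1 := (min_le_left _ _).trans_lt (by norm_num)
  have h1 : ∀ᶠ ε : ℝ in 𝓝[>] 0, ε < η' / (2 * C) :=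
    (tendsto_id.mono_left nhdsWithin_le_nhds : Tendsto id (𝓝[>] (0 : ℝ)) (𝓝 0)).eventually_lt_const
      (by positivity)
  filter_upwards [key δ hδ0 hδ1, h1] with ε h2 h3
  refine h2.trans (ENNReal.ofReal_le_ofReal ?_)
  have h4 : δ ≤ η' / (2 * C) := min_le_right _ _
  calc C * (ε + δ) ≤ C * (η' / (2 * C) + η' / (2 * C)) :=
        mul_le_mul_of_nonneg_left (add_le_add h3.le h4) hC.le
    _ = η' := by field_simp; ring

end Pool.Agent.W5h10.SI.Z
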