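import Pool.Agent.W5h10.SI.Assem

/-!
# The final statement, from the lemmas
-/

set_option autoImplicit false

open MeasureTheory Set Filter Topology ProbabilityTheory
open scoped ENNReal ContDiff

namespace Pool.Agent.W5h10.SI

/-- the reaction terms of the problem: `f ∈ C²`, `f(0) = f(1) = 0`, `f'(0) < 0`, `f'(1) < 0`, exactly
one zero in `(0, 1)`, with positive derivative -/
structure Reaction (f : ℝ → ℝ) : Prop where
  smooth : ContDiff ℝ 2 f
  zero : f 0 = 0
  one : f 1 = 0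
  deriv_zero : deriv f 0 < 0
  deriv_one : deriv f 1 < 0
  middle : ∃ a : ℝ, 0 < a ∧ a < 1 ∧ f a = 0 ∧ 0 < deriv f a ∧ ∀ x, 0 < x → x < 1 → f x = 0 → x = a

/-- `α` is a bounded measurable control and `u` a continuous weak solution of
`u_t = f(u)/ε + ε Δu - α u` with values in `[0, 1]`, on the whole space-time -/
structure Controlled (f : ℝ → ℝ) (ε : ℝ) (α u : ST → ℝ) : Prop where
  meas : Measurable α
  nonneg : ∀ p, 0 ≤ α p
  bounded : ∃ C : ℝ, ∀ p, α p ≤ C
  cont : Continuous u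
  range : ∀ p, 0 ≤ u p ∧ u p ≤ 1
  weak : ∀ φ : ST → ℝ, Test φ →
    ∫ p, (u p * (dt φ p + ε * lap φ p) + (f (u p) / ε - α p * u p) * φ p) = 0

/-- the disc of radius `1 - 39t/10` -/
def Om (t : ℝ) : Set (ℝ × ℝ) := {z | z.1 ^ 2 + z.2 ^ 2 < (1 - 39 / 10 * t) ^ 2}

theorem reaction_ff (hF : S_FUN) : Reaction ff := by
  obtain ⟨hc, hmono, hrg, h79, h85, hC2, hz0, hz1, hd0, hd1, a, ha1, ha2, ha, hda, hlo, hhi⟩ := hF
  refine ⟨hC2, hz0, hz1, hd0, hd1, a, by linarith, by linarith, ha, hda, fun x hx0 hx1 hx => ?_⟩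
  rcases lt_trichotomy x a with h | h | h
  · exact absurd hx (hlo x hx0 h).ne
  · exact h
  · exact absurd hx (hhi x h hx1).ne'

theorem final (hW : S_WEAK) (hC : S_CONT) (hI : S_ITER) (hb : S_BASIC) (hB : S_BALL) (hG : S_IN)
    (hO : S_OUT) (hA : S_AREA) (hU : S_UP) (hL : S_LONE) (hF : S_FUN) (hE : S_EFF) (hn : S_NUM) :
    ∃ f : ℝ → ℝ, Reaction f ∧ (∀ (b : ℝ) (U : ℝ → ℝ), Wave f b (fun _ => 0) U → b ≤ 39 / 10) ∧
      0 < effort f (39 / 10) ∧
      ∃ α u : ℝ → ST → ℝ,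
        (∀ ε : ℝ, 0 < ε → Controlled f ε (α ε) (u ε)) ∧
        (∀ t ∈ Icc (0 : ℝ) (1 / 10), Tendsto (fun ε : ℝ => ∫⁻ z : ℝ × ℝ,
          ENNReal.ofReal |u ε (t, z) - (Om t).indicator (fun _ => (1 : ℝ)) z|) (𝓝[>] 0) (𝓝 0)) ∧
        (∀ᶠ ε : ℝ in 𝓝[>] 0, ∀ t ∈ Icc (0 : ℝ) (1 / 10),
          ∫⁻ z : ℝ × ℝ, ENNReal.ofReal (α ε (t, z)) ≤
            13 / 30 * (effort f (39 / 10) * ENNReal.ofReal (2 * Real.pi * (1 - 39 / 10 * t)))) ∧
        (∀ t₁ t₂ : ℝ, 0 ≤ t₁ → t₁ < t₂ → t₂ ≤ 1 / 10 →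
          limsup (fun ε : ℝ => ∫⁻ t in Icc t₁ t₂, ∫⁻ z : ℝ × ℝ, ENNReal.ofReal (α ε (t, z)))
            (𝓝[>] 0) <
          ∫⁻ t in Icc t₁ t₂,
            effort f (39 / 10) * ENNReal.ofReal (2 * Real.pi * (1 - 39 / 10 * t))) := by
  have hsol : ∀ ε : ℝ, ∃ g u : ST → ℝ, 0 < ε → Sol ε (NN ε) g u := by
    intro ε
    by_cases hε : 0 < ε
    · obtain ⟨g, u, h⟩ := exists_sol hF hI ε hε (NN ε)
      exact ⟨g, u, fun _ => h⟩
    · exact ⟨fun _ => 0, fun _ => 0, fun h => absurd h hε⟩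
  choose g u hgu using hsol
  have heff := effort_ge hF hE hn
  have hcost := cost_all hF hb hU hA g u hgu
  have hrad : ∀ t, rad t = 1 - 39 / 10 * t := fun t => rfl
  -- the bound of the cost at each time
  have hcost2 : ∀ᶠ ε : ℝ in 𝓝[>] 0, ∀ t ∈ Icc (0 : ℝ) (1 / 10),
          ∫⁻ z : ℝ × ℝ, ENNReal.ofReal (ctl ε (g ε) (u ε) (t, z)) ≤
            13 / 30 * (effort ff (39 / 10) * ENNReal.ofReal (2 * Real.pi * (1 - 39 / 10 * t))) := by
    filter_upwards [hcost] with ε h t ht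
    refine (h t ht.2).trans ?_
    have h1 : ENNReal.ofReal (13 / 100 * (2 * Real.pi * rad t)) =
        13 / 30 * (ENNReal.ofReal (3 / 10) * ENNReal.ofReal (2 * Real.pi * (1 - 39 / 10 * t))) := by
      have h2 : (13 / 30 : ℝ≥0∞) = ENNReal.ofReal (13 / 30) := by
        rw [ENNReal.ofReal_div_of_pos (by norm_num)]
        norm_num
      rw [h2, ← ENNReal.ofReal_mul (by norm_num), ← ENNReal.ofReal_mul (by norm_num), hrad]
      congr 1
      ring
    rw [h1]
    gcongr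
  refine ⟨ff, reaction_ff hF, free_speed hF hE hn, lt_of_lt_of_le (by norm_num) heff,
    fun ε => ctl ε (g ε) (u ε), u, ?_, ?_, hcost2, ?_⟩
  · intro ε hε
    have h := hgu ε hε
    refine ⟨h.meas_ctl hF hb, h.ctl_nonneg hb hε, ⟨_, h.ctl_le hF hε⟩, ?_, h.range_u hb,
      h.weak hW hF hε⟩
    rw [h.u_eq]
    exact hC ε hε (g ε) h.meas_g h.range_g
  · intro t ht
    exact conv hF hb hB hG hO hL g u hgu t ht.1 ht.2
  · intro t₁ t₂ h1 h12 h2
    -- the two integrals
    have hI1 : ∫⁻ t in Icc t₁ t₂, ENNReal.ofReal (13 / 100 * (2 * Real.pi * rad t)) < ⊤ := by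
      have : IntegrableOn (fun t => 13 / 100 * (2 * Real.pi * rad t)) (Icc t₁ t₂) := by
        apply Continuous.integrableOn_Icc
        have := continuous_rad
        fun_prop
      exact this.lintegral_lt_top
    have hlim : limsup (fun ε : ℝ => ∫⁻ t in Icc t₁ t₂, ∫⁻ z : ℝ × ℝ,
        ENNReal.ofReal (ctl ε (g ε) (u ε) (t, z))) (𝓝[>] 0) ≤
        ∫⁻ t in Icc t₁ t₂, ENNReal.ofReal (13 / 100 * (2 * Real.pi * rad t)) := by
      refine limsup_le_of_le (by isBoundedDefault) ?_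
      filter_upwards [hcost] with ε h
      refine setLIntegral_mono' measurableSet_Icc fun t ht => ?_
      exact h t (ht.2.trans h2)
    refine hlim.trans_lt ?_
    have hstrict : ∫⁻ t in Icc t₁ t₂, ENNReal.ofReal (13 / 100 * (2 * Real.pi * rad t)) <
        ∫⁻ t in Icc t₁ t₂, ENNReal.ofReal (30 / 100 * (2 * Real.pi * rad t)) := by
      have e1 : ∫⁻ t in Icc t₁ t₂, ENNReal.ofReal (30 / 100 * (2 * Real.pi * rad t)) =
          ENNReal.ofReal (30 / 13) *
            ∫⁻ t in Icc t₁ t₂, ENNReal.ofReal (13 / 100 * (2 * Real.pi * rad t)) := by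
        rw [← lintegral_const_mul' _ _ ENNReal.ofReal_ne_top]
        refine lintegral_congr fun t => ?_
        rw [← ENNReal.ofReal_mul (by norm_num)]
        congr 1
        ring
      have e2 : 0 < ∫⁻ t in Icc t₁ t₂, ENNReal.ofReal (13 / 100 * (2 * Real.pi * rad t)) := by
        have e3 : ENNReal.ofReal (1 / 10) * volume (Icc t₁ t₂) ≤
            ∫⁻ t in Icc t₁ t₂, ENNReal.ofReal (13 / 100 * (2 * Real.pi * rad t)) := by
          rw [← setLIntegral_const]
          refine setLIntegral_mono' measurableSet_Icc fun t ht => ?_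
          apply ENNReal.ofReal_le_ofReal
          have h5 : 61 / 100 ≤ rad t := rad_ge (ht.2.trans h2)
          have hpi : 3 < Real.pi := Real.pi_gt_three
          nlinarith [mul_le_mul hpi.le h5 (by norm_num) Real.pi_pos.le]
        refine lt_of_lt_of_le ?_ e3
        rw [Real.volume_Icc]
        refine ENNReal.mul_pos ?_ ?_
        · simp
        · simpa using h12
      rw [e1]
      set I := ∫⁻ t in Icc t₁ t₂, ENNReal.ofReal (13 / 100 * (2 * Real.pi * rad t))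
      calc I = 1 * I := (one_mul I).symm
        _ < ENNReal.ofReal (30 / 13) * I := by
          refine (ENNReal.mul_lt_mul_iff_left e2.ne' hI1.ne).2 ?_
          rw [← ENNReal.ofReal_one]
          exact (ENNReal.ofReal_lt_ofReal_iff (by norm_num)).2 (by norm_num)
    refine hstrict.trans_le ?_
    refine setLIntegral_mono' measurableSet_Icc fun t ht => ?_
    have h6 : ENNReal.ofReal (30 / 100 * (2 * Real.pi * rad t)) =
        ENNReal.ofReal (3 / 10) * ENNReal.ofReal (2 * Real.pi * (1 - 39 / 10 * t)) := by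
      rw [← ENNReal.ofReal_mul (by norm_num), hrad]
      congr 1
      ring
    rw [h6]
    gcongr

end Pool.Agent.W5h10.SI
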