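import Pool.Agent.W5h10.SI.Assem2
import Pool.Agent.W5h10.SI.Final

/-!
# The final statement, from the lemmas
-/

set_option autoImplicit false

open MeasureTheory Set Filter Topology ProbabilityTheory
open scoped ENNReal ContDiff

namespace Pool.Agent.W5h10.SI

theorem NN_le (ε : ℝ) (hε : 0 < ε) : (NN ε : ℝ) * ε ≤ √ε + ε := by
  have h2 : (NN ε : ℝ) ≤ 1 / √ε + 1 := (Nat.ceil_lt_add_one (by positivity)).le
  calc (NN ε : ℝ) * ε ≤ (1 / √ε + 1) * ε := mul_le_mul_of_nonneg_right h2 hε.le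
    _ = √ε + ε := by
      have : √ε * √ε = ε := Real.mul_self_sqrt hε.le
      have h3 : 0 < √ε := Real.sqrt_pos.2 hε
      field_simp
      nlinarith

theorem final2 (hW : S_WEAK) (hC : S_CONT) (hI : S_ITER) (hb : S_BASIC) (hB : S_BALL)
    (hG : S_IN2) (hO : S_OUT2) (hA : S_AREA2) (hU : S_UP2) (hL : S_LONE) (hF : S_FUN)
    (hE : S_EFF) (hn : S_NUM) (hfin : effort ff (39 / 10) < ⊤) :
    ∃ f : ℝ → ℝ, Reaction f ∧ (∀ (b : ℝ) (U : ℝ → ℝ), Wave f b (fun _ => 0) U → b ≤ 39 / 10) ∧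
      3 / 10 ≤ effort f (39 / 10) ∧ effort f (39 / 10) < ⊤ ∧
      ∃ α u : ℝ → ST → ℝ,
        (∀ ε : ℝ, 0 < ε → Controlled f ε (α ε) (u ε)) ∧
        (∀ t ∈ Icc (0 : ℝ) (1 / 10), Tendsto (fun ε : ℝ => ∫⁻ z : ℝ × ℝ,
          ENNReal.ofReal |u ε (t, z) - (Om t).indicator (fun _ => (1 : ℝ)) z|) (𝓝[>] 0) (𝓝 0)) ∧
        (∀ ε : ℝ, 0 < ε → ∀ t ∈ Icc (0 : ℝ) (1 / 10),
          ∫⁻ z : ℝ × ℝ, ENNReal.ofReal (α ε (t, z)) ≤ ENNReal.ofReal (300 * (√ε + ε))) ∧
        (∀ t₁ t₂ : ℝ, 0 ≤ t₁ → t₁ < t₂ → t₂ ≤ 1 / 10 →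
          Tendsto (fun ε : ℝ => ∫⁻ t in Icc t₁ t₂, ∫⁻ z : ℝ × ℝ, ENNReal.ofReal (α ε (t, z)))
            (𝓝[>] 0) (𝓝 0) ∧
          0 < ∫⁻ t in Icc t₁ t₂,
            effort f (39 / 10) * ENNReal.ofReal (2 * Real.pi * (1 - 39 / 10 * t))) := by
  have hsol : ∀ ε : ℝ, ∃ g u : ST → ℝ, 0 < ε → Z.Sol ε (NN ε) g u := by
    intro ε
    by_cases hε : 0 < ε
    · obtain ⟨g, u, h⟩ := Z.exists_sol hF hI ε hε (NN ε)
      exact ⟨g, u, fun _ => h⟩
    · exact ⟨fun _ => 0, fun _ => 0, fun h => absurd h hε⟩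
  choose g u hgu using hsol
  have heff := effort_ge hF hE hn
  have hrad : ∀ t, rad t = 1 - 39 / 10 * t := fun t => rfl
  have hcost : ∀ ε : ℝ, 0 < ε → ∀ t ≤ (1 / 10 : ℝ),
      ∫⁻ z : ℝ × ℝ, ENNReal.ofReal (ctl ε (g ε) (u ε) (t, z)) ≤
        ENNReal.ofReal (300 * (√ε + ε)) := by
    intro ε hε t ht
    refine (Z.cost_all hF hb hU hA g u hgu ε hε t ht).trans (ENNReal.ofReal_le_ofReal ?_)
    exact mul_le_mul_of_nonneg_left (NN_le ε hε) (by norm_num)
  refine ⟨ff, reaction_ff hF, free_speed hF hE hn, ?_, hfin,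
    fun ε => ctl ε (g ε) (u ε), u, ?_, ?_, ?_, ?_⟩
  · refine le_trans (le_of_eq ?_) heff
    rw [ENNReal.ofReal_div_of_pos (by norm_num)]
    norm_num
  · intro ε hε
    have h := hgu ε hε
    refine ⟨h.meas_ctl hF hb, h.ctl_nonneg hb hε, ⟨_, h.ctl_le hF hε⟩, ?_, h.range_u hb,
      h.weak hW hF hε⟩
    rw [h.u_eq]
    exact hC ε hε (g ε) h.meas_g h.range_g
  · intro t ht
    exact Z.conv hF hb hB hG hO hL g u hgu t ht.1 ht.2
  · exact fun ε hε t ht => hcost ε hε t ht.2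
  · intro t₁ t₂ h1 h12 h2
    constructor
    · have h3 : Tendsto (fun ε : ℝ => ENNReal.ofReal (300 * (√ε + ε))) (𝓝[>] 0) (𝓝 0) := by
        have : Tendsto (fun ε : ℝ => ENNReal.ofReal (300 * (√ε + ε))) (𝓝 0)
            (𝓝 (ENNReal.ofReal (300 * (√0 + 0)))) := by
          apply Continuous.tendsto
          exact ENNReal.continuous_ofReal.comp
            (continuous_const.mul (Real.continuous_sqrt.add continuous_id))
        rw [Real.sqrt_zero, add_zero, mul_zero, ENNReal.ofReal_zero] at this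
        exact this.mono_left nhdsWithin_le_nhds
      have h4 : Tendsto (fun ε : ℝ => ENNReal.ofReal (300 * (√ε + ε)) * volume (Icc t₁ t₂))
          (𝓝[>] 0) (𝓝 0) := by
        have h5 : volume (Icc t₁ t₂) ≠ ⊤ := by rw [Real.volume_Icc]; exact ENNReal.ofReal_ne_top
        have := ENNReal.Tendsto.mul_const h3 (Or.inr h5)
        rwa [zero_mul] at this
      refine tendsto_of_tendsto_of_tendsto_of_le_of_le' tendsto_const_nhds h4
        (Eventually.of_forall fun _ => zero_le) ?_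
      filter_upwards [self_mem_nhdsWithin] with ε hε
      rw [← setLIntegral_const]
      exact setLIntegral_mono' measurableSet_Icc fun t ht => hcost ε hε t (ht.2.trans h2)
    · have e3 : ENNReal.ofReal (1 / 10) * volume (Icc t₁ t₂) ≤
          ∫⁻ t in Icc t₁ t₂,
            effort ff (39 / 10) * ENNReal.ofReal (2 * Real.pi * (1 - 39 / 10 * t)) := by
        rw [← setLIntegral_const]
        refine setLIntegral_mono' measurableSet_Icc fun t ht => ?_
        have h5 : 61 / 100 ≤ rad t := rad_ge (ht.2.trans h2)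
        have hpi : 3 < Real.pi := Real.pi_gt_three
        calc ENNReal.ofReal (1 / 10) ≤ ENNReal.ofReal (3 / 10) *
              ENNReal.ofReal (2 * Real.pi * (1 - 39 / 10 * t)) := by
              rw [← ENNReal.ofReal_mul (by norm_num)]
              apply ENNReal.ofReal_le_ofReal
              rw [hrad] at h5
              nlinarith [mul_le_mul hpi.le h5 (by norm_num) Real.pi_pos.le]
          _ ≤ _ := by gcongr
      refine lt_of_lt_of_le ?_ e3
      rw [Real.volume_Icc]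
      refine ENNReal.mul_pos ?_ ?_
      · simp
      · simpa using h12

end Pool.Agent.W5h10.SI
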