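import Mathlib
import Pool.Agent.W5h10.SI.Defs

/-! # Numbers (task M') -/

set_option autoImplicit false

namespace Pool.Agent.W5h10.SI

theorem num : S_NUM := by
  intro a h1 h2
  have ha : 0 < a := by linarith
  have hlog : 2 * (1 - a) / (1 + a) ≤ Real.log (1 / a) := by
    have h3 : (0:ℝ) ≤ 1 / a - 1 := by
      rw [sub_nonneg, le_div_iff₀ ha]
      linarith
    have h4 := Real.le_log_one_add_of_nonneg h3
    have e1 : (1:ℝ) + (1 / a - 1) = 1 / a := by ring
    rw [e1] at h4
    have e2 : 2 * (1 / a - 1) / (1 / a - 1 + 2) = 2 * (1 - a) / (1 + a) := by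
      have f1 : 2 * (1 / a - 1) = 2 * (1 - a) / a := by
        rw [eq_div_iff ha.ne', mul_assoc, sub_mul, one_div, inv_mul_cancel₀ ha.ne', one_mul]
      have f2 : 1 / a - 1 + 2 = (1 + a) / a := by
        rw [eq_div_iff ha.ne', add_mul, sub_mul, one_div, inv_mul_cancel₀ ha.ne']
        ring
      rw [f1, f2, div_div_div_cancel_right₀ ha.ne']
    rwa [e2] at h4
  have key : 3 / 10 ≤ a * (39 / 10) * Real.log (1 / a) - a / (39 / 10) := by
    have h5 : a * (39 / 10) * (2 * (1 - a) / (1 + a)) ≤ a * (39 / 10) * Real.log (1 / a) :=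
      mul_le_mul_of_nonneg_left hlog (by positivity)
    have h6 : 3 / 10 + a / (39 / 10) ≤ a * (39 / 10) * (2 * (1 - a) / (1 + a)) := by
      rw [mul_div_assoc', le_div_iff₀ (by positivity)]
      nlinarith [mul_nonneg (sub_nonneg.2 h1.le) (sub_nonneg.2 h2.le)]
    linarith
  refine ⟨key, fun b hb => ?_⟩
  have hl : 0 < Real.log (1 / a) := Real.log_pos (by rw [lt_div_iff₀ ha]; linarith)
  have h7 : a * (39 / 10) * Real.log (1 / a) ≤ a * b * Real.log (1 / a) := by
    have : a * (39 / 10) ≤ a * b := by nlinarith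
    exact mul_le_mul_of_nonneg_right this hl.le
  have h8 : a / b ≤ a / (39 / 10) := div_le_div_of_nonneg_left ha.le (by norm_num) hb.le
  linarith

end Pool.Agent.W5h10.SI
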