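import Mathlib
import Pool.Agent.W5h10.SI.Defs

/-! # (J) the bound of the average in a wedge -/

set_option autoImplicit false

open MeasureTheory Set Filter Topology ProbabilityTheory
open scoped ENNReal ContDiff

namespace Pool.Agent.W5h10.SI

namespace UpP

/-- the half-plane event -/
def A (b x c s : ℝ) : Set ST := {w | x ≤ b * w.1 + √(2 * w.1) * (c * w.2.1 + s * w.2.2)}

theorem A_meas (b x c s : ℝ) : MeasurableSet (A b x c s) := by
  unfold A
  apply measurableSet_le measurable_const
  fun_prop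

theorem fac_eq : fac (3 / 2) = 4 / 5 := by
  have h : √((3 / 2 : ℝ) ^ 2 + 4) = 5 / 2 := by
    rw [show ((3 / 2 : ℝ) ^ 2 + 4) = (5 / 2) ^ 2 by norm_num]
    exact Real.sqrt_sq (by norm_num)
  unfold fac
  rw [h]; norm_num

theorem lam_eq : lam (3 / 2) = 1 / 2 := by
  have h : √((3 / 2 : ℝ) ^ 2 + 4) = 5 / 2 := by
    rw [show ((3 / 2 : ℝ) ^ 2 + 4) = (5 / 2) ^ 2 by norm_num]
    exact Real.sqrt_sq (by norm_num)
  unfold lam
  rw [h]; norm_num

theorem A_real (h : S_HALF) (x c s : ℝ) (hcs : c ^ 2 + s ^ 2 = 1) (hx : 0 ≤ x) :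
    mu.real (A (3 / 2) x c s) = 4 / 5 * Real.exp (-(1 / 2 * x)) := by
  have h1 := h (3 / 2) x c s hcs hx
  rw [fac_eq, lam_eq] at h1
  unfold Measure.real A
  rw [h1, ENNReal.toReal_ofReal (by positivity)]

end UpP

open UpP

theorem up (h : S_HALF) (hb : S_BASIC) : S_UP := by
  intro N j ε p hj hε hp h1 h2
  have hmu : IsProbabilityMeasure mu := hb.1
  set c := Real.cos (2 * Real.pi * j / N) with hc
  set s := Real.sin (2 * Real.pi * j / N) with hs
  have hcs : c ^ 2 + s ^ 2 = 1 := by
    rw [add_comm]; exact Real.sin_sq_add_cos_sq _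
  set D1 := d1 N j (rad p.1) p.2.1 p.2.2 with hD1
  set D2 := d2 N j (rad p.1) p.2.1 p.2.2 with hD2
  -- the two events
  set A1 := A (3 / 2) (D1 / ε) (-((5 * c + 12 * s) / 13)) (-((5 * s - 12 * c) / 13)) with hA1
  set A2 := A (3 / 2) (D2 / ε) (-((5 * c - 12 * s) / 13)) (-((5 * s + 12 * c) / 13)) with hA2
  have m1 : MeasurableSet A1 := A_meas _ _ _ _
  have m2 : MeasurableSet A2 := A_meas _ _ _ _
  have r1 : mu.real A1 = 4 / 5 * Real.exp (-(1 / 2 * (D1 / ε))) :=
    A_real h _ _ _ (by nlinarith) (div_nonneg h1.le hε.le)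
  have r2 : mu.real A2 = 4 / 5 * Real.exp (-(1 / 2 * (D2 / ε))) :=
    A_real h _ _ _ (by nlinarith) (div_nonneg h2.le hε.le)
  have key : ∀ w : ST, g0 N (pt ε p w) ≤ A1.indicator (fun _ => (1 : ℝ)) w +
      A2.indicator (fun _ => (1 : ℝ)) w := by
    intro w
    have n1 : 0 ≤ A1.indicator (fun _ => (1 : ℝ)) w := indicator_nonneg (fun _ _ => zero_le_one) w
    have n2 : 0 ≤ A2.indicator (fun _ => (1 : ℝ)) w := indicator_nonneg (fun _ _ => zero_le_one) w
    unfold g0
    split_ifs with hw
    · obtain ⟨_, hw2⟩ := hw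
      have e1 : d1 N j (rad (pt ε p w).1) (pt ε p w).2.1 (pt ε p w).2.2 =
          D1 - ε * (3 / 2 * w.1 + √(2 * w.1) * (-((5 * c + 12 * s) / 13) * w.2.1 +
            -((5 * s - 12 * c) / 13) * w.2.2)) := by
        rw [hD1]
        unfold d1 ca cb rad pt
        rw [← hc, ← hs]
        simp only
        ring
      have e2 : d2 N j (rad (pt ε p w).1) (pt ε p w).2.1 (pt ε p w).2.2 =
          D2 - ε * (3 / 2 * w.1 + √(2 * w.1) * (-((5 * c - 12 * s) / 13) * w.2.1 +
            -((5 * s + 12 * c) / 13) * w.2.2)) := by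
        rw [hD2]
        unfold d2 ca cb rad pt
        rw [← hc, ← hs]
        simp only
        ring
      rcases hw2 j hj with h3 | h3
      · have : w ∈ A1 := by
          change D1 / ε ≤ _
          rw [div_le_iff₀ hε]
          have h4 := h3
          rw [e1] at h4
          linarith
        rw [indicator_of_mem this]
        linarith
      · have : w ∈ A2 := by
          change D2 / ε ≤ _
          rw [div_le_iff₀ hε]
          have h4 := h3
          rw [e2] at h4
          linarith
        rw [indicator_of_mem this]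
        linarith
    · linarith
  have g0n : ∀ q, 0 ≤ g0 N q := by
    intro q
    unfold g0
    split_ifs <;> norm_num
  have hle : S ε (g0 N) p ≤ ∫ w, (A1.indicator (fun _ => (1 : ℝ)) w +
      A2.indicator (fun _ => (1 : ℝ)) w) ∂mu := by
    unfold S
    refine integral_mono_of_nonneg (ae_of_all _ fun w => g0n _) ?_ (ae_of_all _ key)
    exact ((integrable_const (1 : ℝ)).indicator m1).add ((integrable_const (1 : ℝ)).indicator m2)
  rw [integral_add ((integrable_const (1 : ℝ)).indicator m1)
    ((integrable_const (1 : ℝ)).indicator m2), integral_indicator_const _ m1,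
    integral_indicator_const _ m2, r1, r2] at hle
  have x1 : D1 / (2 * ε) = 1 / 2 * (D1 / ε) := by field_simp
  have x2 : D2 / (2 * ε) = 1 / 2 * (D2 / ε) := by field_simp
  rw [x1, x2]
  simp only [smul_eq_mul, mul_one] at hle
  linarith

end Pool.Agent.W5h10.SI
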